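import Pool.Agent.Helper32.TS.GainC
import Pool.Agent.Helper74.TS.OneLow

/-!
# The main cell of a class with three far cells
-/

set_option autoImplicit false

namespace Pool.Agent.Helper92.TS

open Pool.Agent.Helper84.TS Pool.Agent.Helper23.TS Pool.Agent.Helper36.TS Pool.Agent.Helper44.TS
  Pool.Agent.Helper74.TS Pool.Agent.Helper5.TS Pool.Agent.Helper32.TS

/-- real form: `σ` the supports, `w x z` the widths -/
theorem main_three_real {d w x z α β γ : ℝ} (w0 : 0 ≤ w) (x0 : 0 ≤ x) (z0 : 0 ≤ z)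
    (h1 : w ≤ α) (h2 : x ≤ β) (h3 : z ≤ γ) (hd : α + β + γ = 2 * d - 1) (d1 : d ≤ 1) :
    7 / 6 - 3 / 2 * d + d ^ 2 / 2 - d ^ 3 / 6 -
        (1 - d) * ((d - α) ^ 2 + (d - β) ^ 2 + (d - γ) ^ 2) / 2 ≤
      (1 - (w + x + z)) * (4 - 2 * (w + x + z) + (w + x + z) ^ 2 -
        3 * (w ^ 2 + x ^ 2 + z ^ 2)) / 12 := by
  obtain ⟨S, hS⟩ : ∃ S, S = α + β + γ := ⟨_, rfl⟩
  obtain ⟨s, hs⟩ : ∃ s, s = w + x + z := ⟨_, rfl⟩
  obtain ⟨Q, hQ⟩ : ∃ Q, Q = w ^ 2 + x ^ 2 + z ^ 2 := ⟨_, rfl⟩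
  obtain ⟨Q', hQ'⟩ : ∃ Q', Q' = α ^ 2 + β ^ 2 + γ ^ 2 := ⟨_, rfl⟩
  have hd' : d = (1 + S) / 2 := by linarith
  have sS : s ≤ S := by linarith
  have S1 : S ≤ 1 := by linarith
  have s0 : 0 ≤ s := by linarith
  have qq : Q ≤ Q' := by
    have a1 : w ^ 2 ≤ α ^ 2 := pow_le_pow_left₀ w0 h1 2
    have a2 : x ^ 2 ≤ β ^ 2 := pow_le_pow_left₀ x0 h2 2
    have a3 : z ^ 2 ≤ γ ^ 2 := pow_le_pow_left₀ z0 h3 2
    linarith
  have qs : Q ≤ s ^ 2 := by
    rw [hQ, hs]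
    nlinarith [mul_nonneg w0 x0, mul_nonneg w0 z0, mul_nonneg x0 z0]
  have e1 : 7 / 6 - 3 / 2 * d + d ^ 2 / 2 - d ^ 3 / 6 -
      (1 - d) * ((d - α) ^ 2 + (d - β) ^ 2 + (d - γ) ^ 2) / 2 =
      (1 - S) * (4 - 2 * S + S ^ 2 - 3 * Q') / 12 := by
    have e2 : (d - α) ^ 2 + (d - β) ^ 2 + (d - γ) ^ 2 = 3 * d ^ 2 - 2 * d * S + Q' := by
      rw [hS, hQ']
      ring
    rw [e2, hd']
    ring
  rw [e1, ← hs, ← hQ]
  have e3 : 0 ≤ (S - s) * (4 - 2 * s + s ^ 2 - 3 * Q) := by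
    refine mul_nonneg (by linarith) ?_
    have : 0 ≤ (1 - s) * (2 + s) := mul_nonneg (by linarith) (by linarith)
    nlinarith
  have e4 : 0 ≤ (1 - S) * ((S - s) * (2 - S - s) + 3 * (Q' - Q)) := by
    refine mul_nonneg (by linarith) ?_
    have := mul_nonneg (by linarith : 0 ≤ S - s) (by linarith : 0 ≤ 2 - S - s)
    linarith
  nlinarith

section

variable {A : Fin 4 → Fin 4 → Option (Fin 4 → ℝ)} {a p r s : Fin 4}

/-- **the main cell with three far cells** -/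
theorem main_three (h : OF A) (hn : [a, r, p, s].Nodup) {C D E M : Fin 4 → ℝ}
    (hC : A a r = some C) (hD : A a p = some D) (hE : A a s = some E) (hM : A a a = some M) :
    (2 + C r) + (2 + D p) + (2 + E s) ≤ 1 ∧
    fo a (A a a) ≤ (1 - ((2 + C r) + (2 + D p) + (2 + E s))) *
      (4 - 2 * ((2 + C r) + (2 + D p) + (2 + E s)) + ((2 + C r) + (2 + D p) + (2 + E s)) ^ 2 -
        3 * ((2 + C r) ^ 2 + (2 + D p) ^ 2 + (2 + E s) ^ 2)) / 12 := by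
  have n := nodup_ne hn
  obtain ⟨c1, c2, c3⟩ := far_key h n.1 hM hC
  obtain ⟨d1, d2, d3⟩ := far_key h n.2.1 hM hD
  obtain ⟨e1, e2, e3⟩ := far_key h n.2.2 hM hE
  have cM := h.cell a a M hM
  have mM := h.main a M hM
  have hl := cell_lin cM hn
  obtain ⟨b1, b2, b3⟩ := main_ent hn mM
  have eM : fo a (A a a) = fcl a M := by
    rw [hM]
    rfl
  refine ⟨by linarith, ?_⟩
  rw [eM, main_f hn mM, max_eq_right (by linarith : M r ≤ 0), max_eq_right (by linarith : M p ≤ 0),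
    max_eq_right (by linarith : M s ≤ 0)]
  have := main_three_real (d := M a - 1) c1.le d1.le e1.le c3 d3 e3 (by linarith) (by linarith)
  have k1 : M a - 1 - (M r + (M a - 1)) = -M r := by ring
  have k2 : M a - 1 - (M p + (M a - 1)) = -M p := by ring
  have k3 : M a - 1 - (M s + (M a - 1)) = -M s := by ring
  rw [k1, k2, k3] at this
  nlinarith
end

end Pool.Agent.Helper92.TS
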