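import Pool.Agent.Helper92.TS.RpCC

/-!
# `OL2Brp`: all but the two fields `NB` and `DB` of the class `a`
-/

set_option autoImplicit false

namespace Pool.Agent.Helper92.TS

open Pool.Agent.Helper84.TS Pool.Agent.Helper23.TS Pool.Agent.Helper36.TS Pool.Agent.Helper44.TS
  Pool.Agent.Helper74.TS Pool.Agent.Helper5.TS

/-- **`OL2Brp` from two bounds of the class `a`.** -/
theorem ol2Brp_of_NB_DB
    (NB : ∀ (A : Fin 4 → Fin 4 → Option (Fin 4 → ℝ)) (P : Fin 4 → Fin 4 → ℝ)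
      (a p r s : Fin 4) (C D : Fin 4 → ℝ), OLB A P a → [a, p, r, s].Nodup → KB A P a r p s C →
      KB A P a p r s D → fo a (A a p) ≤ 43 / 100 → fo a (A a s) ≤ 2 / 5 →
      VV A a ≤ 19 / 50 - 2 / 25 * (C p + (C a - 1)) + 21 / 50 * (2 - C a) +
        3 / 25 * (C s + (C a - 1)) - 77 / 500 * (D r + (D a - 1)) + 11 / 100 * (2 - D a))
    (DB : ∀ (A : Fin 4 → Fin 4 → Option (Fin 4 → ℝ)) (P : Fin 4 → Fin 4 → ℝ)
      (a p r s : Fin 4) (C D : Fin 4 → ℝ), OLB A P a → [a, p, r, s].Nodup → KB A P a r p s C →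
      KB A P a p r s D → 43 / 100 ≤ fo a (A a p) → fo a (A a s) ≤ 2 / 5 →
      VV A a ≤ 229 / 2000 - 3 / 100 * (C p + (C a - 1)) + 9 / 50 * (2 - C a) +
        1 / 100 * (C s + (C a - 1)) - 21 / 100 * (D r + (D a - 1)) + 53 / 100 * (2 - D a)) :
    OL2Brp :=
  ol2Brp_of fun A P a p r s C D h hn kC kD =>
    ⟨NB A P a p r s C D h hn kC kD, DB A P a p r s C D h hn kC kD,
      fun _ hE hf s1 s2 => rp_CC h hn kC kD hE hf s1 s2,
      fun _ hE hf s1 s2 _ x0 hx => rp_AA h hn kC kD hE hf s1 s2 x0 hx,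
      fun _ hE hf => rp_BB h hn hE hf⟩

end Pool.Agent.Helper92.TS
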