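import Pool.Agent.Helper74.TS.RowGen

/-!
# Bounds for a good class with a small cell in the first column

As `row_gen` of `Helper74`, but the volume of the far cell in the first column is at most `hC w`
(`w` its width).
-/

set_option autoImplicit false

namespace Pool.Agent.Helper92.TS

open Pool.Agent.Helper84.TS Pool.Agent.Helper23.TS Pool.Agent.Helper36.TS Pool.Agent.Helper44.TS
  Pool.Agent.Helper74.TS

/-- the bound of the cell in conflict with `C` -/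
noncomputable def hC (w : ℝ) : ℝ := 26 / 125 * w + 1 / 20 * w ^ 2 + 9 / 50 * w ^ 3

theorem hC_zero : hC 0 = 0 := by unfold hC; norm_num

theorem hC_mono {s t : ℝ} (h0 : 0 ≤ s) (h : s ≤ t) : hC s ≤ hC t := by
  unfold hC
  have e2 : s ^ 2 ≤ t ^ 2 := pow_le_pow_left₀ h0 h 2
  have e3 : s ^ 3 ≤ t ^ 3 := pow_le_pow_left₀ h0 h 3
  linarith

theorem hC_bb {w : ℝ} (h0 : 0 ≤ w) (h1 : w ≤ 1) : hC w ≤ bb w := by
  unfold hC bb
  have e2 : 0 ≤ w ^ 2 := by positivity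
  have e3 : w ^ 3 ≤ w ^ 2 := pow_le_pow_of_le_one h0 h1 (by norm_num)
  linarith

/-- a far cell in the first column -/
structure OneC (D : ℝ → ℝ → ℝ → ℝ → Prop) (R : ℝ → ℝ → ℝ → ℝ → ℝ) : Prop where
  p : ∀ d a b : ℝ, 0 ≤ d → d ≤ 3 / 5 → 0 ≤ a → a ≤ d → d - a ≤ b → b ≤ 1 →
    D d a b (1 + d - a - b) →
    bs d - (1 - d) * (a ^ 2 + b ^ 2 + (1 + d - a - b) ^ 2) / 2 + hC (d - a) ≤
      R d a b (1 + d - a - b)
  n : ∀ d t b w : ℝ, 0 ≤ d → d ≤ 3 / 5 → 0 ≤ t → t ≤ 1 - d → d + t ≤ b → b ≤ 1 → 0 ≤ w →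
    w ≤ d + t → w ≤ 13 / 20 → D d (-t) b (1 + d + t - b) →
    bs d - (1 - d) * (t ^ 2 + b ^ 2 + (1 + d + t - b) ^ 2) / 2 + t ^ 3 / 3 + hC w ≤
      R d (-t) b (1 + d + t - b)

/-- far cells in the first two columns -/
def TwoC (D : ℝ → ℝ → ℝ → ℝ → Prop) (R : ℝ → ℝ → ℝ → ℝ → ℝ) : Prop :=
  ∀ d a b : ℝ, 0 ≤ d → d ≤ 3 / 5 → 0 ≤ a → a ≤ d → 0 ≤ b → b ≤ d → d ≤ a + b →
    D d a b (1 + d - a - b) →
    bs d - (1 - d) * (a ^ 2 + b ^ 2 + (1 + d - a - b) ^ 2) / 2 + hC (d - a) + bb (d - b) ≤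
      R d a b (1 + d - a - b)

/-- **The inequalities.** -/
structure RC (D : ℝ → ℝ → ℝ → ℝ → Prop) (R : ℝ → ℝ → ℝ → ℝ → ℝ) : Prop where
  none : ∀ d a b : ℝ, 0 ≤ d → d ≤ 3 / 5 → d ≤ a → d ≤ b → a + b ≤ 1 → D d a b (1 + d - a - b) →
    bs d - (1 - d) * (a ^ 2 + b ^ 2 + (1 + d - a - b) ^ 2) / 2 ≤ R d a b (1 + d - a - b)
  one1 : OneC D R
  one2 : One (fun d b a c => D d a b c) (fun d b a c => R d a b c)
  one3 : One (fun d c a b => D d a b c) (fun d c a b => R d a b c)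
  two12 : TwoC D R
  two13 : TwoC (fun d a c b => D d a b c) (fun d a c b => R d a b c)
  two23 : Two (fun d b c a => D d a b c) (fun d b c a => R d a b c)
  three : ∀ d a b : ℝ, 1 / 2 ≤ d → d ≤ 3 / 5 → 1 - d ≤ a → a ≤ d → 1 - d ≤ b → b ≤ d →
    1 ≤ a + b → D d a b (1 + d - a - b) → 13 / 30 ≤ R d a b (1 + d - a - b)

section

variable {D : ℝ → ℝ → ℝ → ℝ → Prop} {R : ℝ → ℝ → ℝ → ℝ → ℝ}

/-- a far cell in the column `j` -/
theorem OneC.le (h : OneC D R) {i j k l : Fin 4} {v : Fin 4 → ℝ} {w : ℝ} (hv : IsCell i v)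
    (hn : [i, j, k, l].Nodup) (hm : ∀ m, m ≠ i → -v m ≤ 1)
    (hd : v i - 1 < 3 / 5) (hD : D (v i - 1) (-v j) (-v k) (-v l)) (w0 : 0 ≤ w)
    (w1 : w ≤ 13 / 20) (hw : w ≤ v j + (v i - 1)) :
    fcl i v + hC w ≤ R (v i - 1) (-v j) (-v k) (-v l) := by
  obtain ⟨a1, a2, a3, a4, a5, a6, a7, a8, a9⟩ := cell_lin hv hn
  obtain ⟨b1, b2, b3⟩ := main_ent hn hm
  rw [main_f hn hm, max_eq_right (by linarith : v k ≤ 0), max_eq_right (by linarith : v l ≤ 0)]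
  obtain ⟨d, hd'⟩ : ∃ d, d = v i - 1 := ⟨_, rfl⟩
  obtain ⟨r, hr⟩ : ∃ r, r = v j := ⟨_, rfl⟩
  obtain ⟨q, hq⟩ : ∃ q, q = -v k := ⟨_, rfl⟩
  have ek : v k = -q := by linarith
  have el : v l = -(1 + d + r - q) := by rw [hd', hr, hq]; linarith
  rw [← hd', ← hr, ek, el] at hD ⊢
  rw [← hd'] at hd
  have hd0 : 0 ≤ d := by linarith
  have z3 : (0 : ℝ) ^ 3 = 0 := by norm_num
  rcases le_total r 0 with r0 | r0
  · rw [max_eq_right r0]
    have e2 : - -(1 + d + r - q) = 1 + d - -r - q := by ring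
    rw [neg_neg, e2] at hD ⊢
    have h1 := h.p d (-r) q hd0 hd.le (by linarith) (by linarith) (by linarith) (by linarith) hD
    have h2 : hC w ≤ hC (d - -r) := hC_mono w0 (by linarith)
    have e1 : (-r) ^ 2 + q ^ 2 + (1 + d - -r - q) ^ 2 =
        r ^ 2 + (-q) ^ 2 + (-(1 + d + r - q)) ^ 2 := by ring
    rw [e1] at h1
    unfold bs at h1
    rw [z3]
    linarith
  · rw [max_eq_left r0]
    rw [neg_neg, neg_neg] at hD ⊢
    have h1 := h.n d r q w hd0 hd.le r0 (by linarith) (by linarith) (by linarith) w0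
      (by linarith) w1 hD
    have e1 : r ^ 2 + q ^ 2 + (1 + d + r - q) ^ 2 =
        r ^ 2 + (-q) ^ 2 + (-(1 + d + r - q)) ^ 2 := by ring
    rw [e1] at h1
    unfold bs at h1
    rw [z3]
    linarith

/-- far cells in the columns `j` and `k` -/
theorem TwoC.le (h : TwoC D R) {i j k l : Fin 4} {v : Fin 4 → ℝ} {w w' : ℝ} (hv : IsCell i v)
    (hn : [i, j, k, l].Nodup) (hm : ∀ m, m ≠ i → -v m ≤ 1)
    (hd : v i - 1 < 3 / 5) (hD : D (v i - 1) (-v j) (-v k) (-v l)) (w0 : 0 ≤ w) (w0' : 0 ≤ w')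
    (hw : w ≤ v j + (v i - 1)) (hw' : w' ≤ v k + (v i - 1)) :
    fcl i v + hC w + bb w' ≤ R (v i - 1) (-v j) (-v k) (-v l) := by
  obtain ⟨a1, a2, a3, a4, a5, a6, a7, a8, a9⟩ := cell_lin hv hn
  obtain ⟨b1, b2, b3⟩ := main_ent hn hm
  rw [main_f hn hm, max_eq_right (by linarith : v j ≤ 0), max_eq_right (by linarith : v k ≤ 0),
    max_eq_right (by linarith : v l ≤ 0)]
  obtain ⟨d, hd'⟩ : ∃ d, d = v i - 1 := ⟨_, rfl⟩
  obtain ⟨a, ha⟩ : ∃ a, a = -v j := ⟨_, rfl⟩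
  obtain ⟨b, hb⟩ : ∃ b, b = -v k := ⟨_, rfl⟩
  have ej : v j = -a := by linarith
  have ek : v k = -b := by linarith
  have el : v l = -(1 + d - a - b) := by rw [hd', ha, hb]; linarith
  rw [← hd', ej, ek, el] at hD ⊢
  rw [neg_neg, neg_neg, neg_neg] at hD
  rw [← hd'] at hd
  have z3 : (0 : ℝ) ^ 3 = 0 := by norm_num
  have h1 := h d a b (by linarith) hd.le (by linarith) (by linarith) (by linarith)
    (by linarith) (by linarith) hD
  have h2 : hC w ≤ hC (d - a) := hC_mono w0 (by linarith)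
  have h3 : bb w' ≤ bb (d - b) := bb_mono w0' (by linarith) (by linarith)
  have e1 : a ^ 2 + b ^ 2 + (1 + d - a - b) ^ 2 =
      (-a) ^ 2 + (-b) ^ 2 + (-(1 + d - a - b)) ^ 2 := by ring
  rw [e1] at h1
  unfold bs at h1
  rw [z3, neg_neg, neg_neg, neg_neg]
  linarith

private theorem n2 : ∀ {i j k l : Fin 4}, [i, j, k, l].Nodup → [i, k, j, l].Nodup := by decide

private theorem n3 : ∀ {i j k l : Fin 4}, [i, j, k, l].Nodup → [i, l, j, k].Nodup := by decide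

private theorem n13 : ∀ {i j k l : Fin 4}, [i, j, k, l].Nodup → [i, j, l, k].Nodup := by decide

private theorem n23 : ∀ {i j k l : Fin 4}, [i, j, k, l].Nodup → [i, k, l, j].Nodup := by decide

/-- no far cell -/
theorem RC.none_le (h : RC D R) {i j k l : Fin 4} {v : Fin 4 → ℝ} (hv : IsCell i v)
    (hn : [i, j, k, l].Nodup) (hm : ∀ m, m ≠ i → -v m ≤ 1)
    (hd : v i - 1 < 3 / 5) (hD : D (v i - 1) (-v j) (-v k) (-v l)) :
    fcl i v ≤ R (v i - 1) (-v j) (-v k) (-v l) := by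
  obtain ⟨a1, a2, a3, a4, a5, a6, a7, a8, a9⟩ := cell_lin hv hn
  obtain ⟨b1, b2, b3⟩ := main_ent hn hm
  rcases le_total 0 (v j + (v i - 1)) with h1 | h1
  · have := h.one1.le hv hn hm hd hD le_rfl (by norm_num) h1
    rw [hC_zero] at this
    linarith
  rcases le_total 0 (v k + (v i - 1)) with h2 | h2
  · have := h.one2.le hv (n2 hn) hm hd hD le_rfl (by norm_num) h2
    rw [bb_zero] at this
    linarith
  rcases le_total 0 (v l + (v i - 1)) with h3 | h3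
  · have := h.one3.le hv (n3 hn) hm hd hD le_rfl (by norm_num) h3
    rw [bb_zero] at this
    linarith
  · rw [main_f hn hm, max_eq_right (by linarith : v j ≤ 0), max_eq_right (by linarith : v k ≤ 0),
      max_eq_right (by linarith : v l ≤ 0)]
    obtain ⟨d, hd'⟩ : ∃ d, d = v i - 1 := ⟨_, rfl⟩
    obtain ⟨a, ha⟩ : ∃ a, a = -v j := ⟨_, rfl⟩
    obtain ⟨b, hb⟩ : ∃ b, b = -v k := ⟨_, rfl⟩
    have ej : v j = -a := by linarith
    have ek : v k = -b := by linarith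
    have el : v l = -(1 + d - a - b) := by rw [hd', ha, hb]; linarith
    rw [← hd', ej, ek, el] at hD ⊢
    rw [neg_neg, neg_neg, neg_neg] at hD
    rw [← hd'] at hd
    have z3 : (0 : ℝ) ^ 3 = 0 := by norm_num
    have h4 := h.none d a b (by linarith) hd.le (by linarith) (by linarith) (by linarith) hD
    have e1 : a ^ 2 + b ^ 2 + (1 + d - a - b) ^ 2 =
        (-a) ^ 2 + (-b) ^ 2 + (-(1 + d - a - b)) ^ 2 := by ring
    rw [e1] at h4
    unfold bs at h4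
    rw [z3, neg_neg, neg_neg, neg_neg]
    linarith

/-- three far cells -/
theorem RC.three_le (h : RC D R) {i j k l : Fin 4} {v : Fin 4 → ℝ} {w w' w'' : ℝ}
    (hv : IsCell i v) (hn : [i, j, k, l].Nodup) (hm : ∀ m, m ≠ i → -v m ≤ 1)
    (hd : v i - 1 < 3 / 5) (hD : D (v i - 1) (-v j) (-v k) (-v l)) (w0 : 0 ≤ w) (w0' : 0 ≤ w')
    (w0'' : 0 ≤ w'') (hw : w ≤ v j + (v i - 1)) (hw' : w' ≤ v k + (v i - 1))
    (hw'' : w'' ≤ v l + (v i - 1)) :
    fcl i v + hC w + bb w' + bb w'' ≤ R (v i - 1) (-v j) (-v k) (-v l) := by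
  obtain ⟨a1, a2, a3, a4, a5, a6, a7, a8, a9⟩ := cell_lin hv hn
  have hf := main_d hv hm
  have el : -v l = 1 + (v i - 1) - -v j - -v k := by linarith
  rw [el] at hD ⊢
  have hR := h.three (v i - 1) (-v j) (-v k) (by linarith) hd.le (by linarith) (by linarith)
    (by linarith) (by linarith) (by linarith) hD
  obtain ⟨d, hd'⟩ : ∃ d, d = v i - 1 := ⟨_, rfl⟩
  rw [← hd'] at hd hf
  have hs : w + w' + w'' ≤ 1 / 5 := by linarith
  have hd2 : 1 / 2 ≤ d := by linarith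
  have h0 := hC_bb w0 (by linarith)
  have h1 := bb_add w0 w0' (by linarith)
  have h2 := bb_add (by linarith : 0 ≤ w + w') w0'' (by linarith)
  have h3 : bb (w + w' + w'') ≤ bb (1 / 5) := bb_mono (by linarith) hs (by norm_num)
  have h4 : bb (1 / 5) ≤ 1 / 10 := by unfold bb; norm_num
  have h5 : (1 - d) * (1 - 2 / 3 * d) ≤ 1 / 3 := by nlinarith
  linarith

end

/-- **A bound for a good class.** -/
theorem row_genC {D : ℝ → ℝ → ℝ → ℝ → Prop} {R : ℝ → ℝ → ℝ → ℝ → ℝ} (r : RC D R)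
    {A : Fin 4 → Fin 4 → Option (Fin 4 → ℝ)} (h : OF A) {i j k l : Fin 4}
    (hn : [i, j, k, l].Nodup) {M : Fin 4 → ℝ} (hM : A i i = some M) (hd : M i - 1 < 3 / 5)
    (hw : ∀ j F, j ≠ i → A i j = some F → 2 + F j ≤ 13 / 20)
    (hF1 : ∀ F, A i j = some F → fo i (A i j) ≤ hC (2 + F j))
    (hD : D (M i - 1) (-M j) (-M k) (-M l)) : VV A i ≤ R (M i - 1) (-M j) (-M k) (-M l) := by
  have n := nodup_ne hn
  have cv := h.cell i i M hM
  have mv := h.main i M hM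
  rw [Pool.Agent.Helper44.TS.VV_eq hn, hM]
  simp only [fo]
  rcases hj : A i j with _ | F <;> rcases hk : A i k with _ | G <;> rcases hl : A i l with _ | H <;>
    simp only [add_zero]
  · exact r.none_le cv hn mv hd hD
  · obtain ⟨g1, g2, g3, g4⟩ := gfar' h n.2.2 hM hl (hw l H n.2.2 hl)
    have := r.one3.le cv (n3 hn) mv hd hD g2 g3 g4
    linarith
  · obtain ⟨g1, g2, g3, g4⟩ := gfar' h n.2.1 hM hk (hw k G n.2.1 hk)
    have := r.one2.le cv (n2 hn) mv hd hD g2 g3 g4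
    linarith
  · obtain ⟨g1, g2, g3, g4⟩ := gfar' h n.2.1 hM hk (hw k G n.2.1 hk)
    obtain ⟨e1, e2, e3, e4⟩ := gfar' h n.2.2 hM hl (hw l H n.2.2 hl)
    have := r.two23.le cv (n23 hn) mv hd hD g2 e2 g4 e4
    linarith
  · obtain ⟨_, g2, g3, g4⟩ := gfar' h n.1 hM hj (hw j F n.1 hj)
    have g1 := hF1 F hj
    rw [hj] at g1
    simp only [fo] at g1
    have := r.one1.le cv hn mv hd hD g2 g3 g4
    linarith
  · obtain ⟨_, g2, g3, g4⟩ := gfar' h n.1 hM hj (hw j F n.1 hj)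
    have g1 := hF1 F hj
    rw [hj] at g1
    simp only [fo] at g1
    obtain ⟨e1, e2, e3, e4⟩ := gfar' h n.2.2 hM hl (hw l H n.2.2 hl)
    have := r.two13.le cv (n13 hn) mv hd hD g2 e2 g4 e4
    linarith
  · obtain ⟨_, g2, g3, g4⟩ := gfar' h n.1 hM hj (hw j F n.1 hj)
    have g1 := hF1 F hj
    rw [hj] at g1
    simp only [fo] at g1
    obtain ⟨e1, e2, e3, e4⟩ := gfar' h n.2.1 hM hk (hw k G n.2.1 hk)
    have := r.two12.le cv hn mv hd hD g2 e2 g4 e4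
    linarith
  · obtain ⟨_, g2, g3, g4⟩ := gfar' h n.1 hM hj (hw j F n.1 hj)
    have g1 := hF1 F hj
    rw [hj] at g1
    simp only [fo] at g1
    obtain ⟨e1, e2, e3, e4⟩ := gfar' h n.2.1 hM hk (hw k G n.2.1 hk)
    obtain ⟨f1, f2, f3, f4⟩ := gfar' h n.2.2 hM hl (hw l H n.2.2 hl)
    have := r.three_le cv hn mv hd hD g2 e2 f2 g4 e4 f4
    linarith

end Pool.Agent.Helper92.TS
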