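import Pool.Agent.Helper92.TS.RowH
import Pool.Agent.Helper74.TS.Far
import Pool.Agent.Helper74.TS.KindB

/-!
# The own cell of the row `s` if `u^r_a` is large

If `u^r_a - d_r ≥ 3/5` and `d_r - u^r_s ≥ 3/10`, the cell `(s; a)` has volume at most `hO w`.
-/

set_option autoImplicit false

namespace Pool.Agent.Helper92.TS

open Pool.Agent.Helper84.TS Pool.Agent.Helper23.TS Pool.Agent.Helper36.TS Pool.Agent.Helper44.TS
  Pool.Agent.Helper74.TS Pool.Agent.Helper90.TS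

private theorem polyA {w α : ℝ} (w0 : 0 ≤ w) (w1 : w ≤ 13 / 20) (α0 : 0 ≤ α) (ha : α ≤ 2 / 5)
    (h : α ≤ w) : w * α * (1 + w - α) - w ^ 3 / 3 + (w - α) ^ 3 / 3 ≤ hO w := by
  have key : ∀ t : ℝ, α ≤ t → t ≤ 2 / 5 → t ≤ w →
      w * α * (1 + w - α) + (w - α) ^ 3 / 3 ≤ w * t * (1 + w - t) + (w - t) ^ 3 / 3 := by
    intro t h1 h2 h3
    have e : 0 ≤ (t - α) * (w - (t ^ 2 + t * α + α ^ 2) / 3) := by
      refine mul_nonneg (by linarith) ?_
      have t0 : 0 ≤ t := by linarith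
      nlinarith [mul_nonneg t0 (by linarith : 0 ≤ t - α), mul_nonneg α0 (by linarith : 0 ≤ t - α),
        mul_nonneg t0 (by linarith : 0 ≤ 1 - t)]
    nlinarith
  unfold hO
  rcases le_total w (2 / 5) with k | k
  · have e1 := key w h k le_rfl
    have e2 : 0 ≤ w * ((2 / 5 - w) * (3 / 5 - w)) :=
      mul_nonneg w0 (mul_nonneg (by linarith) (by linarith))
    nlinarith [mul_nonneg w0 (mul_nonneg w0 w0), mul_nonneg w0 (by linarith : 0 ≤ 2 / 5 - w)]
  · have e1 := key (2 / 5) ha le_rfl k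
    have e2 : (w - 2 / 5) ^ 3 / 3 ≤ 7 / 300 * w ^ 3 := by
      have e3 : w - 2 / 5 ≤ 2 / 5 * w := by linarith
      have e4 : (w - 2 / 5) ^ 3 ≤ (2 / 5 * w) ^ 3 := pow_le_pow_left₀ (by linarith) e3 3
      have e5 : (2 / 5 * w) ^ 3 = 8 / 125 * w ^ 3 := by ring
      have e6 : 0 ≤ w ^ 3 := by positivity
      linarith
    nlinarith

/-- a cell of kind A -/
theorem vl_hO_A {w α β : ℝ} (w0 : 0 ≤ w) (w1 : w ≤ 13 / 20) (α0 : 0 ≤ α) (β0 : 0 ≤ β)
    (lo : w ≤ α + β) (hi : α + β ≤ 1 + w) (ha : α ≤ 2 / 5) : vl w α β ≤ hO w := by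
  have e1 : vl w α β ≤ vl w α (1 + w - α) := vl_mono_r w0 α0 β0 lo (by linarith)
  refine e1.trans ?_
  unfold vl
  rw [max_eq_right (by linarith : w - (1 + w - α) ≤ 0)]
  rcases le_total α w with h | h
  · rw [max_eq_left (by linarith : 0 ≤ w - α)]
    have := polyA w0 w1 α0 ha h
    linarith
  · rw [max_eq_right (by linarith : w - α ≤ 0)]
    unfold hO
    have e2 : 0 ≤ w * ((2 / 5 - α) * (3 / 5 + w - α)) :=
      mul_nonneg w0 (mul_nonneg (by linarith) (by linarith))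
    have e3 : 0 ≤ w ^ 3 := by positivity
    nlinarith

/-- a high cell -/
theorem vl_hO_B {w α β : ℝ} (w0 : 0 ≤ w) (w1 : w ≤ 13 / 20) (α0 : 0 ≤ α) (β0 : 0 ≤ β)
    (lo : w ≤ α + β) (hi : α + β ≤ 3 / 10 + w) : vl w α β ≤ hO w := by
  have e1 := vl_le w0 α0 β0 lo
  have e2 : α * β ≤ (3 / 10 + w) ^ 2 / 4 := by
    nlinarith [sq_nonneg (α - β), mul_nonneg (by linarith : 0 ≤ 3 / 10 + w - (α + β))
      (by linarith : 0 ≤ 3 / 10 + w + (α + β))]
  have e3 : w * (α * β) ≤ w * ((3 / 10 + w) ^ 2 / 4) := mul_le_mul_of_nonneg_left e2 w0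
  have e4 : 0 ≤ w * (6 / 25 + 2 / 5 * w - 31 / 100 * w ^ 2 - (3 / 10 + w) ^ 2 / 4) := by
    refine mul_nonneg w0 ?_
    nlinarith [mul_nonneg w0 (by linarith : 0 ≤ 13 / 20 - w)]
  unfold hO
  nlinarith

/-- **The own cell.** -/
theorem own_small {A : Fin 4 → Fin 4 → Option (Fin 4 → ℝ)} {P : Fin 4 → Fin 4 → ℝ}
    {a p r s : Fin 4} (h : OLB A P a) (hn : [a, p, r, s].Nodup)
    (hc : -P r s ≤ (P r r - 1) - 3 / 10) (ht : 3 / 5 ≤ -P r a - (P r r - 1)) {T : Fin 4 → ℝ}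
    (hT : A s a = some T) : fo s (A s a) ≤ hO (2 + T a) := by
  have n := nodup_ne hn
  have n1 : [s, a, r, p].Nodup := by
    clear * - hn; revert hn; revert a p r s; decide
  have n2 : a ≠ s := n.2.2.symm
  have hne : (s, a) ≠ (r, r) := by
    intro e
    rw [Prod.mk.injEq] at e
    exact n.2.1 e.2.symm
  have hcell := h.of.cell s a T hT
  have hgt := h.of.far s a T n2 hT
  have hs : Sep T (P r) := h.of.sep s a r r T (P r) hT (h.mn r n.2.1) hne
  have hcr := h.of.cell r r _ (h.mn r n.2.1)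
  have h1 := h.of.main r _ (h.mn r n.2.1) a n.2.1.symm
  have h2 := h.hw s a T n.2.2 n2 hT
  have h3 := h.hd r n.2.1
  obtain ⟨b1, b2, b3, b4, b5, b6, b7, b8, b9⟩ := far_bounds hcell n1 hgt.le
  have hf := far_formula hcell n1 hgt.le
  have hl := cell_lin hcell n1
  obtain ⟨w, hw⟩ : ∃ w, w = 2 + T a := ⟨_, rfl⟩
  obtain ⟨α, hα⟩ : ∃ α, α = 1 - (T p + (T s - 1)) := ⟨_, rfl⟩
  obtain ⟨β, hβ⟩ : ∃ β, β = 1 - (T r + (T s - 1)) := ⟨_, rfl⟩
  have hv : fo s (A s a) = vl w α β := by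
    rw [hT]
    simp only [fo]
    rw [hf, vl, hw, hα, hβ, show 2 + T a - (1 - (T p + (T s - 1))) = -T r by linarith,
      show 2 + T a - (1 - (T r + (T s - 1))) = -T p by linarith]
    ring
  rw [hv, ← hw]
  rcases wk_cap_le hcell hcr n1 hs (by linarith) with h4 | ⟨-, h4⟩
  · exact vl_hO_A (by linarith) (by linarith) (by linarith) (by linarith) (by linarith)
      (by linarith) (by linarith)
  · exact vl_hO_B (by linarith) (by linarith) (by linarith) (by linarith) (by linarith)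
      (by linarith)

end Pool.Agent.Helper92.TS
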