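import Pool.Agent.Helper47.FC.Fin
import Pool.Agent.Helper92.TS.RowC
import Pool.Agent.Helper92.TS.RowH

/-!
# Reified row functions

`bs`, `bb`, `hC`, `hO` of an expression, in the form of `Helper36.CK.R`.
-/

set_option autoImplicit false

namespace Pool.Agent.Helper92.TS

open Pool.Agent.Helper83.Cert Pool.Agent.Helper36.CK Pool.Agent.Helper74.TS Pool.Agent.Helper44.TS

section

variable {y : ℕ → ℝ} {a : Ex} {u : ℝ}

/-- `6` times `bs` -/
noncomputable def bsE (a : Ex) : Ex :=
  .sub (.add (.sub (.c 7) (.mul (.c 9) a)) (.mul (.c 3) (.mul a a))) (.mul a (.mul a a))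

theorem r_bs (h : R y a 1 u) : R y (bsE a) 6 (bs u) := by
  unfold R at *
  simp only [Nat.cast_one, one_mul] at *
  simp only [bsE, exadd, exsub, exmul, exc, h, bs]
  push_cast
  ring

/-- `12` times `bb` -/
noncomputable def bbE (a : Ex) : Ex :=
  .sub (.add (.mul (.c 3) a) (.mul (.c 6) (.mul a a))) (.mul a (.mul a a))

theorem r_bb (h : R y a 1 u) : R y (bbE a) 12 (bb u) := by
  unfold R at *
  simp only [Nat.cast_one, one_mul] at *
  simp only [bbE, exadd, exsub, exmul, exc, h, bb]
  push_cast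
  ring

/-- `500` times `hC` -/
noncomputable def hCE (a : Ex) : Ex :=
  .add (.add (.mul (.c 104) a) (.mul (.c 25) (.mul a a))) (.mul (.c 90) (.mul a (.mul a a)))

theorem r_hC (h : R y a 1 u) : R y (hCE a) 500 (hC u) := by
  unfold R at *
  simp only [Nat.cast_one, one_mul] at *
  simp only [hCE, exadd, exsub, exmul, exc, h, hC]
  push_cast
  ring

/-- `100` times `hO` -/
noncomputable def hOE (a : Ex) : Ex :=
  .sub (.add (.mul (.c 24) a) (.mul (.c 40) (.mul a a))) (.mul (.c 31) (.mul a (.mul a a)))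

theorem r_hO (h : R y a 1 u) : R y (hOE a) 100 (hO u) := by
  unfold R at *
  simp only [Nat.cast_one, one_mul] at *
  simp only [hOE, exadd, exsub, exmul, exc, h, hO]
  push_cast
  ring

end

end Pool.Agent.Helper92.TS
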