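import Pool.Agent.Helper92.TS.RpLeaf
import Pool.Agent.Helper5.TS.Gain

/-!
# `OL2Brp`: the cases
-/

set_option autoImplicit false

namespace Pool.Agent.Helper92.TS

open Pool.Agent.Helper84.TS Pool.Agent.Helper23.TS Pool.Agent.Helper36.TS Pool.Agent.Helper44.TS
  Pool.Agent.Helper74.TS Pool.Agent.Helper5.TS

section

variable {A : Fin 4 → Fin 4 → Option (Fin 4 → ℝ)} {P : Fin 4 → Fin 4 → ℝ} {a p r s : Fin 4}
  {C D : Fin 4 → ℝ}

/-- the bounds for the class `a` -/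
structure RpCl (A : Fin 4 → Fin 4 → Option (Fin 4 → ℝ)) (a p r s : Fin 4) (C D : Fin 4 → ℝ) :
    Prop where
  NB : fo a (A a p) ≤ 43 / 100 → fo a (A a s) ≤ 2 / 5 →
    VV A a ≤ 19 / 50 - 2 / 25 * (C p + (C a - 1)) + 21 / 50 * (2 - C a) +
      3 / 25 * (C s + (C a - 1)) - 77 / 500 * (D r + (D a - 1)) + 11 / 100 * (2 - D a)
  DB : 43 / 100 ≤ fo a (A a p) → fo a (A a s) ≤ 2 / 5 →
    VV A a ≤ 229 / 2000 - 3 / 100 * (C p + (C a - 1)) + 9 / 50 * (2 - C a) +
      1 / 100 * (C s + (C a - 1)) - 21 / 100 * (D r + (D a - 1)) + 53 / 100 * (2 - D a)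
  CC : ∀ E, A a s = some E → 2 / 5 ≤ fo a (A a s) → 2 + E s ≤ D s + (D a - 1) →
    2 + C r ≤ E r + (E a - 1) →
    VV A a ≤ -(27 / 250) + 29 / 100 * (2 - C a) + 29 / 100 * (C s + (C a - 1)) -
      1 / 8 * (D r + (D a - 1)) + 2 / 25 * (2 - D a) + 111 / 200 * (D s + (D a - 1))
  AA : ∀ E, A a s = some E → 2 / 5 ≤ fo a (A a s) → 2 + C r ≤ E r + (E a - 1) →
    2 + D p ≤ E p + (E a - 1) → ∀ x, 0 ≤ x → x ≤ 2 + C r →
    x ≤ 29 / 100 ∧ VV A a ≤ 2 / 3 - 3 / 4 * x + 3 / 4 * x ^ 2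
  BB : ∀ E, A a s = some E → 2 / 5 ≤ fo a (A a s) → 71 / 100 ≤ 2 + E s

theorem RpC.pos (c : RpC A P a p r s C D) : 0 ≤ 2 + C r ∧ -P p s ≤ 2 + C r := by
  have n := c.kC.hn
  have hc := c.h.of.cell a r C c.kC.hC
  have hf := c.h.of.far a r C (nodup_ne n).1 c.kC.hC
  obtain ⟨b1, b2, b3, b4, b5, b6, b7, b8, b9⟩ := far_bounds hc n hf.le
  have o := (c.kC.out c.h).1
  have k := c.kC.cap
  have hl := cell_lin hc n
  constructor <;> linarith

theorem rp_glue (c : RpC A P a p r s C D) (ho : -P r s ≤ -P p s) (k : RpCl A a p r s C D) :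
    ∑ i, VV A i ≤ 613 / 200 := by
  have hn := c.hn
  have n := nodup_ne hn
  have n1 : [a, p, s, r].Nodup := by
    clear * - hn; revert hn; revert a p r s; decide
  have n2 : [a, r, s, p].Nodup := by
    clear * - hn; revert hn; revert a p r s; decide
  have hrs : r ≠ s := by
    clear * - hn; revert hn; revert a p r s; decide
  have hps : p ≠ s := by
    clear * - hn; revert hn; revert a p r s; decide
  have p1 := c.h.pair hn
  rw [min_eq_right ho] at p1
  have p2 := c.h.pair n1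
  rw [min_eq_right (by linarith [c.hs, c.hp] : -P s a ≤ -P p a)] at p2
  have p3 := c.h.pair n2
  rw [min_eq_right (by linarith [c.hs, c.hr] : -P s a ≤ -P r a)] at p3
  obtain ⟨w0, w1⟩ := c.pos
  -- the cases of the class `a`
  have key : (fo a (A a p) ≤ 43 / 100 ∧ fo a (A a s) ≤ 2 / 5) ∨
      (43 / 100 ≤ fo a (A a p) ∧ fo a (A a s) ≤ 2 / 5) ∨
      (∃ E, A a s = some E ∧ 2 / 5 ≤ fo a (A a s) ∧ 2 + E s ≤ D s + (D a - 1) ∧
        2 + C r ≤ E r + (E a - 1)) ∨
      (∃ E, A a s = some E ∧ 2 / 5 ≤ fo a (A a s) ∧ 2 + C r ≤ E r + (E a - 1) ∧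
        2 + D p ≤ E p + (E a - 1)) ∨ 71 / 100 ≤ -P p r - (P p p - 1) := by
    rcases le_total (fo a (A a s)) (2 / 5) with h1 | h1
    · rcases le_total (fo a (A a p)) (43 / 100) with h2 | h2
      · exact Or.inl ⟨h2, h1⟩
      · exact Or.inr (Or.inl ⟨h2, h1⟩)
    rcases hE : A a s with _ | E
    · rw [hE] at h1
      simp only [fo] at h1
      norm_num at h1
    · rw [hE] at h1
      rcases support c.h.of c.kC.hC hE n.2.1 n.2.2 hrs with e | e
      · have := k.BB E hE (by rw [hE]; exact h1)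
        have := c.c3
        exact Or.inr (Or.inr (Or.inr (Or.inr (by linarith))))
      · rcases support c.h.of c.kD.hC hE n.1 n.2.2 hps with e' | e'
        · exact Or.inr (Or.inr (Or.inl ⟨E, rfl, h1, e', e⟩))
        · exact Or.inr (Or.inr (Or.inr (Or.inl ⟨E, rfl, h1, e, e'⟩)))
  rcases le_total (-P r p) (-P s p) with h3 | h3
  · rw [min_eq_left h3] at p3
    rcases le_total (-P p a) (-P r a) with h1 | h1
    · rw [min_eq_left h1] at p1
      rcases key with ⟨x1, x2⟩ | ⟨x1, x2⟩ | ⟨E, x1, x2, x3, x4⟩ | ⟨E, x1, x2, x3, x4⟩ | x1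
      · exact lf_nb0 c (k.NB x1 x2) p1 p3
      · exact lf_db0 c (k.DB x1 x2) p1 p3
      · exact lf_cc0 c (k.CC E x1 x2 x3 x4) p1 p3
      · rcases le_total (-P r a - (P r r - 1)) (3 / 5) with y | y
        · exact lf_aai c (k.AA E x1 x2 x3 x4) w1 w0 y p1 p3
        · exact lf_aaj c (k.AA E x1 x2 x3 x4) w1 w0 y p1 p3
      · rcases le_total (-P p r) (-P s r) with h2 | h2
        · rw [min_eq_left h2] at p2
          exact lf_bb0 c x1 p2
        · rw [min_eq_right h2] at p2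
          exact lf_bb1 c x1 p1 p2 p3
    · rw [min_eq_right h1] at p1
      exact lf_vv4 c p1 h1 p3 h3
  · rw [min_eq_right h3] at p3
    rcases le_total (-P p r) (-P s r) with h2 | h2
    · rw [min_eq_left h2] at p2
      rcases key with ⟨x1, x2⟩ | ⟨x1, x2⟩ | ⟨E, x1, x2, x3, x4⟩ | ⟨E, x1, x2, x3, x4⟩ | x1
      · rcases le_total (-P p a) (-P r a) with h1 | h1
        · rw [min_eq_left h1] at p1
          exact lf_nb2 c (k.NB x1 x2) p1 p2 p3
        · rw [min_eq_right h1] at p1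
          exact lf_nb6 c (k.NB x1 x2) p1 p2 p3
      · rcases le_total (-P p a) (-P r a) with h1 | h1
        · rw [min_eq_left h1] at p1
          exact lf_db2 c (k.DB x1 x2) p1 p2 p3
        · rw [min_eq_right h1] at p1
          exact lf_db6 c (k.DB x1 x2) p1 h1 p2 p3
      · exact lf_cc2 c (k.CC E x1 x2 x3 x4) p2 p3
      · rcases le_total (-P p a) (-P r a) with h1 | h1
        · rw [min_eq_left h1] at p1
          exact lf_aa2 c (k.AA E x1 x2 x3 x4) w1 w0 p1 p2 p3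
        · rw [min_eq_right h1] at p1
          exact lf_aa6 c (k.AA E x1 x2 x3 x4) w1 w0 p1 h1 p2 p3
      · exact lf_bb0 c x1 p2
    · rw [min_eq_right h2] at p2
      exact lf_vv3 c p2 h2 p3 h3

/-- **`OL2Brp` from the bounds of the class `a`** -/
theorem ol2Brp_of (H : ∀ (A : Fin 4 → Fin 4 → Option (Fin 4 → ℝ)) (P : Fin 4 → Fin 4 → ℝ)
    (a p r s : Fin 4) (C D : Fin 4 → ℝ), OLB A P a → [a, p, r, s].Nodup → KB A P a r p s C →
    KB A P a p r s D → RpCl A a p r s C D) : OL2Brp := by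
  intro A P a p r s C D h hn _ kC kD _ hs ho
  rcases rpC_of h hn kC kD hs ho with c | c
  · exact rp_glue c ho (H A P a p r s C D h hn kC kD)
  · exact c

end

end Pool.Agent.Helper92.TS
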