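import Pool.Agent.Helper32.TS.RsZ
import Pool.Agent.Helper32.TS.GainC
import Pool.Agent.Helper78.TS.Col2
import Pool.Agent.Helper92.TS.RpGlue

/-!
# `OL2Brp`: a large third cell that supports the two others
-/

set_option autoImplicit false

namespace Pool.Agent.Helper92.TS

open Pool.Agent.Helper84.TS Pool.Agent.Helper23.TS Pool.Agent.Helper36.TS Pool.Agent.Helper44.TS
  Pool.Agent.Helper74.TS Pool.Agent.Helper5.TS Pool.Agent.Helper32.TS Pool.Agent.Helper78.TS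
  Pool.Agent.Helper8.TS

theorem bb_71 {z f : ℝ} (z0 : 0 ≤ z) (h : 2 / 5 ≤ f) (hf : f ≤ z * (1 + z) ^ 2 / 4 - z ^ 3 / 3) :
    71 / 100 ≤ z := by
  by_contra hc
  have hc' : z ≤ 71 / 100 := (not_le.1 hc).le
  have e : 0 ≤ (71 / 100 - z) * (1 / 4 + (71 / 100 + z) / 2 -
      ((71 / 100) ^ 2 + 71 / 100 * z + z ^ 2) / 12) := by
    refine mul_nonneg (by linarith) ?_
    nlinarith
  nlinarith

/-- the value of the two supported cells and the third one -/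
theorem three_71 {m n f : ℝ} (n0 : 0 ≤ n) (h : n ≤ m) (m1 : m ≤ 1)
    (hf : f ≤ (1 - m) * ((1 - m) + (1 - n)) ^ 2 / 4 - (1 - m) ^ 3 / 3) (h2 : 2 / 5 ≤ f) :
    m ≤ 29 / 100 ∧ (m * (1 + m) ^ 2 / 4 - m ^ 3 / 3) + (n * (1 + n) ^ 2 / 4 - n ^ 3 / 3) + f ≤
      2 / 3 - 3 / 4 * m + 3 / 4 * m ^ 2 := by
  have m0 : 0 ≤ m := n0.trans h
  have hm : m ≤ 29 / 100 := by
    by_contra hc
    have hc' : 29 / 100 ≤ m := (not_le.1 hc).le
    have e1 : (1 - m) * ((1 - m) + (1 - n)) ^ 2 ≤ (1 - m) * (2 - m) ^ 2 := by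
      refine mul_le_mul_of_nonneg_left ?_ (by linarith)
      refine pow_le_pow_left₀ (by linarith) (by linarith) 2
    have e2 : 0 ≤ (m - 29 / 100) * (1 - (m + 29 / 100) / 4 -
        (m ^ 2 + m * (29 / 100) + (29 / 100) ^ 2) / 12) := by
      refine mul_nonneg (by linarith) ?_
      nlinarith
    nlinarith
  refine ⟨hm, ?_⟩
  have e3 : 0 ≤ n * ((1 - m) * (2 - m) / 2 - 1 / 4 - n / 2 - (1 - m) * n / 4) := by
    refine mul_nonneg n0 ?_
    nlinarith [mul_nonneg n0 m0, mul_nonneg m0 (by linarith : 0 ≤ 29 / 100 - m),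
      mul_nonneg n0 (by linarith : 0 ≤ m - n)]
  have e4 : 0 ≤ n ^ 3 := by positivity
  nlinarith

/-- with a main cell -/
theorem main_71 {u v z δ f fM : ℝ} (u0 : 0 ≤ u) (v0 : 0 ≤ v) (z1 : 71 / 100 ≤ z) (d1 : δ ≤ 1)
    (hs : u + v + z ≤ 2 * δ - 1) (hf : f ≤ z * (1 + z) ^ 2 / 4 - z ^ 3 / 3)
    (hM : fM ≤ (1 - δ) * (1 - 2 / 3 * δ)) :
    (u * (1 + u) ^ 2 / 4 - u ^ 3 / 3) + (v * (1 + v) ^ 2 / 4 - v ^ 3 / 3) + f + fM ≤
      2 / 3 - 3 / 4 * u + 3 / 4 * u ^ 2 := by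
  obtain ⟨e, he⟩ : ∃ e, e = 1 - δ := ⟨_, rfl⟩
  obtain ⟨t, ht⟩ : ∃ t, t = 1 - u - 2 * e := ⟨_, rfl⟩
  have e0 : 0 ≤ e := by linarith
  have t1 : 71 / 100 ≤ t := by linarith
  have hd : δ = 1 - e := by linarith
  have hu : u = 1 - 2 * e - t := by linarith
  -- `bb v + bb z ≤ bb t`
  have k1 : (v * (1 + v) ^ 2 / 4 - v ^ 3 / 3) + (z * (1 + z) ^ 2 / 4 - z ^ 3 / 3) ≤
      t * (1 + t) ^ 2 / 4 - t ^ 3 / 3 := by
    have a1 : 0 ≤ v * z * (1 - (v + z) / 4) :=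
      mul_nonneg (mul_nonneg v0 (by linarith)) (by linarith)
    have a2 : 0 ≤ (t - (v + z)) * (1 / 4 + (t + (v + z)) / 2 -
        (t ^ 2 + t * (v + z) + (v + z) ^ 2) / 12) := by
      refine mul_nonneg (by linarith) ?_
      have b1 : t ≤ 1 := by linarith
      have b2 : v + z ≤ 1 := by linarith
      nlinarith [mul_nonneg (by linarith : 0 ≤ t) (by linarith : 0 ≤ 1 - t),
        mul_nonneg (by linarith : 0 ≤ v + z) (by linarith : 0 ≤ 1 - (v + z)),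
        mul_nonneg (by linarith : 0 ≤ t) (by linarith : 0 ≤ 1 - (v + z))]
    nlinarith
  have k2 : 0 ≤ e * (2 * (1 / 4 + t + e - t ^ 2 / 4 - t * e / 2 - e ^ 2 / 3) - 1 / 3 -
      2 / 3 * e) := by
    refine mul_nonneg e0 ?_
    have b1 : t ≤ 1 := by linarith
    have b2 : e ≤ 3 / 20 := by linarith
    nlinarith [mul_nonneg (by linarith : 0 ≤ t) (by linarith : 0 ≤ 1 - t), mul_nonneg e0 e0,
      mul_nonneg (by linarith : 0 ≤ t) e0, mul_nonneg e0 (by linarith : 0 ≤ 3 / 20 - e)]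
  rw [hd] at hM
  rw [hu]
  nlinarith

section

variable {A : Fin 4 → Fin 4 → Option (Fin 4 → ℝ)} {P : Fin 4 → Fin 4 → ℝ} {a p r s : Fin 4}
  {C D : Fin 4 → ℝ}

/-- the numbers of a far cell of the class `a` -/
theorem cell3_of (h : OLB A P a) {z x y : Fin 4} (hn : [a, z, x, y].Nodup) {C : Fin 4 → ℝ}
    (hC : A a z = some C) :
    Cell3 (2 + C z) (1 - (C y + (C a - 1))) (1 - (C x + (C a - 1))) ∧
      fo a (A a z) = vl (2 + C z) (1 - (C y + (C a - 1))) (1 - (C x + (C a - 1))) := by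
  obtain ⟨v, c1, c2, c3, c4, c5, c6, -⟩ := cell_num h hn hC rfl rfl rfl
  exact ⟨⟨c1.le, c2, c3, c4, c5, c6⟩, v⟩

theorem rp_BB (h : OLB A P a) (hn : [a, p, r, s].Nodup) {E : Fin 4 → ℝ} (hE : A a s = some E)
    (hf : 2 / 5 ≤ fo a (A a s)) : 71 / 100 ≤ 2 + E s := by
  have ns : [a, s, p, r].Nodup := by
    clear * - hn; revert hn; revert a p r s; decide
  obtain ⟨c, e⟩ := cell3_of h ns hE
  have := vl_any c
  rw [← e] at this
  exact bb_71 c.w0 hf this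

theorem rp_AA (h : OLB A P a) (hn : [a, p, r, s].Nodup) (kC : KB A P a r p s C)
    (kD : KB A P a p r s D) {E : Fin 4 → ℝ} (hE : A a s = some E) (hf : 2 / 5 ≤ fo a (A a s))
    (s1 : 2 + C r ≤ E r + (E a - 1)) (s2 : 2 + D p ≤ E p + (E a - 1)) {x : ℝ} (x0 : 0 ≤ x)
    (hx : x ≤ 2 + C r) : x ≤ 29 / 100 ∧ VV A a ≤ 2 / 3 - 3 / 4 * x + 3 / 4 * x ^ 2 := by
  have n := nodup_ne hn
  have ns : [a, s, p, r].Nodup := by
    clear * - hn; revert hn; revert a p r s; decide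
  obtain ⟨cC, eC⟩ := cell3_of h kC.hn kC.hC
  obtain ⟨cD, eD⟩ := cell3_of h kD.hn kD.hC
  obtain ⟨cE, eE⟩ := cell3_of h ns hE
  have bC := vl_any cC
  have bD := vl_any cD
  have bE := vl_any cE
  obtain ⟨t1, t2⟩ := vl_two cE (y := 1 - (2 + C r)) (v := 1 - (2 + D p)) (by linarith)
    (by linarith)
  rw [← eC] at bC
  rw [← eD] at bD
  rw [← eE] at bE t1 t2
  have key : ∀ m : ℝ, x ≤ m → m ≤ 29 / 100 →
      2 / 3 - 3 / 4 * m + 3 / 4 * m ^ 2 ≤ 2 / 3 - 3 / 4 * x + 3 / 4 * x ^ 2 := by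
    intro m h1 h2
    have e : 0 ≤ (m - x) * (1 - (m + x)) := mul_nonneg (by linarith) (by linarith)
    nlinarith
  have low : x ≤ 29 / 100 ∧ fo a (A a r) + fo a (A a p) + fo a (A a s) ≤
      2 / 3 - 3 / 4 * x + 3 / 4 * x ^ 2 := by
    rcases le_total (2 + C r) (2 + D p) with k | k
    · have e1 := t2 (by linarith)
      obtain ⟨g1, g2⟩ := three_71 cC.w0 k cD.w1 e1 hf
      refine ⟨by linarith, ?_⟩
      have := key (2 + D p) (by linarith) g1
      linarith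
    · have e1 := t1 (by linarith)
      obtain ⟨g1, g2⟩ := three_71 cD.w0 k cC.w1 e1 hf
      refine ⟨by linarith, ?_⟩
      have := key (2 + C r) (by linarith) g1
      linarith
  refine ⟨low.1, ?_⟩
  rw [Pool.Agent.Helper44.TS.VV_eq hn]
  rcases h.low with h0 | ⟨M, hM, hdM⟩
  · have e0 : fo a (A a a) = 0 := by
      rw [h0]
      rfl
    linarith [low.2]
  · have kc := far_key h.of n.2.1 hM kC.hC
    have kd := far_key h.of n.1 hM kD.hC
    have ke := far_key h.of n.2.2 hM hE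
    have cM := h.of.cell a a M hM
    have mM := h.of.main a M hM
    have hl := cell_lin cM hn
    have eM : fo a (A a a) = fcl a M := by
      rw [hM]
      rfl
    have z1 := bb_71 cE.w0 hf bE
    have := main_71 cC.w0 cD.w0 z1 (by linarith) (by linarith [kc.2.2, kd.2.2, ke.2.2] :
      (2 + C r) + (2 + D p) + (2 + E s) ≤ 2 * (M a - 1) - 1) bE (main_d cM mM)
    have k3 := key (2 + C r) hx (by linarith [ke.2.1, kc.2.2, kd.2.2, ke.2.2, cD.w0])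
    rw [eM]
    linarith

end

end Pool.Agent.Helper92.TS
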