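import Pool.Agent.Helper92.TS.RpCCw

/-!
# `OL2Brp`: the case `CC`

The third cell is large, it is supported by the witness of `r` and supports the witness of `p`.
-/

set_option autoImplicit false

namespace Pool.Agent.Helper92.TS

open Pool.Agent.Helper84.TS Pool.Agent.Helper23.TS Pool.Agent.Helper36.TS Pool.Agent.Helper44.TS
  Pool.Agent.Helper74.TS Pool.Agent.Helper5.TS Pool.Agent.Helper32.TS Pool.Agent.Helper78.TS
  Pool.Agent.Helper8.TS

/-- a large cell and the main cell -/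
theorem fmz {S z δ f fM t : ℝ} (S0 : 0 ≤ S) (z1 : 71 / 100 ≤ z) (d1 : δ ≤ 1)
    (hs : S + z ≤ 2 * δ - 1) (hf : f ≤ z * (1 + z) ^ 2 / 4 - z ^ 3 / 3)
    (hM : fM ≤ (1 - δ) * (1 - 2 / 3 * δ)) (hz : z ≤ t) (ht : t ≤ 1 - S) :
    f + fM ≤ t * (1 + t) ^ 2 / 4 - t ^ 3 / 3 + (1 - S - t) * (2 - S - t) / 6 := by
  have e1 : (1 - δ) * (1 - 2 / 3 * δ) ≤ (1 - S - z) * (2 - S - z) / 6 := by
    have a1 : 0 ≤ (δ - (1 + S + z) / 2) * (1 + 2 / 3 - 2 / 3 * (δ + (1 + S + z) / 2)) :=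
      mul_nonneg (by linarith) (by linarith)
    nlinarith
  have e2 : 0 ≤ (t - z) * (1 / 4 + (t + z) / 2 - (t ^ 2 + t * z + z ^ 2) / 12 -
      (3 - 2 * S - t - z) / 6) := by
    refine mul_nonneg (by linarith) ?_
    have t1 : t ≤ 1 := by linarith
    nlinarith [mul_nonneg (by linarith : 0 ≤ t) (by linarith : 0 ≤ 1 - t),
      mul_nonneg (by linarith : 0 ≤ z) (by linarith : 0 ≤ 1 - z),
      mul_nonneg (by linarith : 0 ≤ t) (by linarith : 0 ≤ 1 - z)]
  nlinarith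

section

variable {A : Fin 4 → Fin 4 → Option (Fin 4 → ℝ)} {P : Fin 4 → Fin 4 → ℝ} {a p r s : Fin 4}
  {C D : Fin 4 → ℝ}

theorem rp_CC (h : OLB A P a) (hn : [a, p, r, s].Nodup) (kC : KB A P a r p s C)
    (kD : KB A P a p r s D) {E : Fin 4 → ℝ} (hE : A a s = some E) (hf : 2 / 5 ≤ fo a (A a s))
    (s1 : 2 + E s ≤ D s + (D a - 1)) (s2 : 2 + C r ≤ E r + (E a - 1)) :
    VV A a ≤ -(27 / 250) + 29 / 100 * (2 - C a) + 29 / 100 * (C s + (C a - 1)) -
      1 / 8 * (D r + (D a - 1)) + 2 / 25 * (2 - D a) + 111 / 200 * (D s + (D a - 1)) := by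
  have n := nodup_ne hn
  have ns : [a, s, p, r].Nodup := by
    clear * - hn; revert hn; revert a p r s; decide
  obtain ⟨cC, eC⟩ := cell3_of h kC.hn kC.hC
  obtain ⟨cD, eD⟩ := cell3_of h kD.hn kD.hC
  obtain ⟨cE, eE⟩ := cell3_of h ns hE
  have bE := vl_any cE
  have lC := (cell_lin (h.of.cell a r C kC.hC) kC.hn).1
  have lD := (cell_lin (h.of.cell a p D kD.hC) kD.hn).1
  have dC := kC.hd
  have dD := kD.hd
  obtain ⟨t1, t2, t3⟩ := vl_one cE (y := 1 - (2 + C r)) (u := 1 - (1 - (D s + (D a - 1))))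
    (by linarith) (by linarith [cC.w0]) (by linarith) (by linarith [cD.A0])
  rw [← eE] at bE t1 t2 t3
  have z1 := bb_71 cE.w0 hf bE
  obtain ⟨w, hw⟩ : ∃ w, w = 2 + C r := ⟨_, rfl⟩
  obtain ⟨α, hα⟩ : ∃ α, α = 1 - (C s + (C a - 1)) := ⟨_, rfl⟩
  obtain ⟨β, hβ⟩ : ∃ β, β = 1 - (C p + (C a - 1)) := ⟨_, rfl⟩
  obtain ⟨x, hx⟩ : ∃ x, x = 2 + D p := ⟨_, rfl⟩
  obtain ⟨ε, hε⟩ : ∃ ε, ε = 1 - (D s + (D a - 1)) := ⟨_, rfl⟩
  obtain ⟨φ, hφ⟩ : ∃ φ, φ = 1 - (D r + (D a - 1)) := ⟨_, rfl⟩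
  obtain ⟨f, hff⟩ : ∃ f, f = fo a (A a s) := ⟨_, rfl⟩
  rw [← hw, ← hα, ← hβ] at cC eC
  rw [← hx, ← hε, ← hφ] at cD eD
  rw [← hw, ← hε, ← hff] at t1 t2 t3
  rw [← hff] at hf bE
  have k1 : 9 / 20 ≤ α + β - w := by linarith
  have k2 : 9 / 20 ≤ ε + φ - x := by linarith
  have k3 : ε ≤ 29 / 100 := by linarith
  have goal : ∀ v : ℝ, v ≤ -(27 / 250) + 29 / 100 * (α + β - w) + 29 / 100 * (1 - α) -
      1 / 8 * (1 - φ) + 2 / 25 * (ε + φ - x) + 111 / 200 * (1 - ε) →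
      v ≤ -(27 / 250) + 29 / 100 * (2 - C a) + 29 / 100 * (C s + (C a - 1)) -
      1 / 8 * (D r + (D a - 1)) + 2 / 25 * (2 - D a) + 111 / 200 * (D s + (D a - 1)) := by
    intro v hv
    linarith
  apply goal
  rw [Pool.Agent.Helper44.TS.VV_eq hn, eC, eD, ← hff]
  rcases h.low with h0 | ⟨M, hM, hdM⟩
  · have e0 : fo a (A a a) = 0 := by
      rw [h0]
      rfl
    rw [e0]
    rcases le_total ε w with m3 | m3
    · have e1 := t1 (by linarith)
      have := ccr_i cC cD k1 k2 k3 m3 (hf.trans e1)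
      linarith
    · rcases le_total (2 * (1 - w)) (1 + (1 - ε)) with m4 | m4
      · have e1 := t2 (by linarith) m4
        have := ccr_v cC cD k1 k2 k3 m3 m4 (hf.trans e1)
        linarith
      · have e1 := t3 (by linarith)
        have := ccr_x cC cD k1 k2 k3 m3 m4 (hf.trans e1)
        linarith
  · have kc := (far_key h.of n.2.1 hM kC.hC).2.2
    have kd := (far_key h.of n.1 hM kD.hC).2.2
    have ke := far_key h.of n.2.2 hM hE
    have cM := h.of.cell a a M hM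
    have mM := h.of.main a M hM
    have hl := cell_lin cM hn
    have eM : fo a (A a a) = fcl a M := by
      rw [hM]
      rfl
    have sW : (w + x) + (2 + E s) ≤ 2 * (M a - 1) - 1 := by linarith [ke.2.2]
    have k4 : w + x ≤ 29 / 100 := by linarith
    rw [eM]
    rcases le_total (w + x) ε with m3 | m3
    · have e1 := fmz (by linarith [cC.w0, cD.w0]) z1 (by linarith) sW bE (main_d cM mM)
        (by linarith : 2 + E s ≤ 1 - ε) (by linarith)
      have := ccmr_a cC cD k1 k2 k3 k4 m3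
      have e2 : (1 - (w + x) - (1 - ε)) * (2 - (w + x) - (1 - ε)) =
          (ε - w - x) * (1 + ε - w - x) := by ring
      rw [e2] at e1
      linarith
    · have e1 := fmz (by linarith [cC.w0, cD.w0]) z1 (by linarith) sW bE (main_d cM mM)
        (by linarith : 2 + E s ≤ 1 - w - x) (by linarith)
      have := ccmr_b cC cD k1 k2 k3 k4 m3
      have e2 : (1 - (w + x) - (1 - w - x)) = 0 := by ring
      rw [e2] at e1
      linarith

end

end Pool.Agent.Helper92.TS
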