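import Pool.Agent.Helper83.Cert.Check
import Pool.Agent.Helper83.Cert.RE

/-!
# `OL2Brp`: certificates for the class `a`, the case `CC` (RpCCi)
-/

set_option autoImplicit false
set_option maxRecDepth 100000
set_option linter.unusedVariables false

namespace Pool.Agent.Helper92.TS

open Pool.Agent.Helper83.Cert

theorem cc_i0000 {w A B x E F : ℝ} (cw : 0 ≤ w) (cA : 0 ≤ A) (cB : 0 ≤ B) (cw1 : 0 ≤ 1 - w) (cT : 0 ≤ 1 + w - A - B) (cT2 : 0 ≤ -9 / 20 - w + A + B) (ck1 : 0 ≤ -w + A) (ck2 : 0 ≤ -w + B) (dw : 0 ≤ x) (dA : 0 ≤ E) (dB : 0 ≤ F) (dw1 : 0 ≤ 1 - x) (dT : 0 ≤ 1 + x - E - F) (dT2 : 0 ≤ -9 / 20 - x + E + F) (dk1 : 0 ≤ -x + E) (dk2 : 0 ≤ -x + F) (m1 : 0 ≤ E) (m2 : 0 ≤ 29 / 100 - E) (m3 : 0 ≤ w - E) (m5 : 0 ≤ 4 / 15 - E - w ^ 2 + w * E + 1 / 3 * w ^ 3) :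
    0 ≤ -41 / 750 - 29 / 100 * w + 29 / 100 * B - 2 / 25 * x + 21 / 40 * E + 41 / 200 * F + w ^ 2 - w * E - w * A * B + 1 / 3 * x ^ 3 - x * E * F := by
  have h := cert (y := yv w A B x E F 0 0 0)
    (gs := [(.v 2),
      (.v 3),
      (.v 5),
      (.add (.c (1)) (.mul (.c (-1)) (.v 2))),
      (.add (.add (.c (1)) (.v 2)) (.add (.mul (.c (-1)) (.v 3)) (.mul (.c (-1)) (.v 5)))),
      (.add (.add (.c (-9)) (.mul (.c (-20)) (.v 2))) (.add (.mul (.c (20)) (.v 3)) (.mul (.c (20)) (.v 5)))),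
      (.add (.mul (.c (-1)) (.v 2)) (.v 3)),
      (.add (.mul (.c (-1)) (.v 2)) (.v 5)),
      (.v 7),
      (.v 11),
      (.v 13),
      (.add (.c (1)) (.mul (.c (-1)) (.v 7))),
      (.add (.add (.c (1)) (.v 7)) (.add (.mul (.c (-1)) (.v 11)) (.mul (.c (-1)) (.v 13)))),
      (.add (.add (.c (-9)) (.mul (.c (-20)) (.v 7))) (.add (.mul (.c (20)) (.v 11)) (.mul (.c (20)) (.v 13)))),
      (.add (.mul (.c (-1)) (.v 7)) (.v 11)),
      (.add (.mul (.c (-1)) (.v 7)) (.v 13)),
      (.v 11),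
      (.add (.c (29)) (.mul (.c (-100)) (.v 11))),
      (.add (.v 2) (.mul (.c (-1)) (.v 11))),
      (.add (.add (.c (4)) (.mul (.c (-15)) (.mul (.v 2) (.v 2)))) (.add (.mul (.c (5)) (.mul (.mul (.v 2) (.v 2)) (.v 2))) (.add (.mul (.c (-15)) (.v 11)) (.mul (.c (15)) (.mul (.v 2) (.v 11))))))])
    (p := .mul (.c 20000000000) (.add (.add (.add (.c (-164)) (.mul (.c (-870)) (.v 2))) (.add (.mul (.c (3000)) (.mul (.v 2) (.v 2))) (.add (.mul (.c (870)) (.v 5)) (.mul (.c (-240)) (.v 7))))) (.add (.add (.mul (.c (1575)) (.v 11)) (.add (.mul (.c (615)) (.v 13)) (.mul (.c (-3000)) (.mul (.v 2) (.v 11))))) (.add (.mul (.c (-3000)) (.mul (.mul (.v 2) (.v 3)) (.v 5))) (.add (.mul (.c (1000)) (.mul (.mul (.v 7) (.v 7)) (.v 7))) (.mul (.c (-3000)) (.mul (.mul (.v 7) (.v 11)) (.v 13))))))))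
    (e := (.add (.add (.add (.add (.mul (.pp [(1, 728190000)]) (.sq [(1, -44), (2, 100), (3, -14), (5, 28), (7, -20), (11, -92), (13, 11)])) (.add (.mul (.pp [(1, 681114000)]) (.sq [(1, 58), (2, -79), (3, -33), (5, 15), (7, 17), (11, 100), (13, -49)])) (.mul (.g 4) (.add (.add (.add (.add (.mul (.pp [(1, 168546000)]) (.sq [(2, -26), (3, -5), (5, 100), (7, -6), (11, -1), (13, -34)])) (.mul (.g 10) (.add (.add (.mul (.pp [(1, 3288000)]) (.sq [(1, -16), (2, 14), (3, 100), (5, 68), (7, 8), (11, 69), (13, -74)])) (.mul (.g 1) (.add (.mul (.g 4) (.pp [(1, 930300000000)])) (.add (.mul (.g 14) (.pp [(1, 1216140000000)])) (.mul (.g 17) (.pp [(1, 15148200000)])))))) (.add (.mul (.g 5) (.add (.mul (.g 3) (.pp [(1, 12078000000)])) (.mul (.g 4) (.pp [(1, 7683000000)])))) (.add (.mul (.g 7) (.pp [(1, 2422680000000)])) (.mul (.g 10) (.mul (.g 18) (.pp [(1, 902460000000)])))))))) (.add (.mul (.g 7) (.add (.add (.pp [(1, 11580660000000)]) (.add (.mul (.pp [(1, 20802000)])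 (.sq [(1, 31), (2, 14), (3, -75), (5, 14), (7, -6), (11, -100), (13, -16)])) (.mul (.pp [(1, 6756000)]) (.sq [(1, 100), (2, 5), (3, -27), (5, 95), (7, 24), (11, 63), (13, 7)])))) (.add (.mul (.pp [(1, 55758000)]) (.sq [(1, 100), (2, 68), (3, 88), (5, -26), (7, -4), (11, 98), (13, -23)])) (.add (.mul (.pp [(1, 129792000)]) (.sq [(1, 6), (2, 100), (3, 55), (5, -95), (7, 28), (11, -23), (13, 15)])) (.mul (.pp [(1, 52314000)]) (.sq [(1, -73), (2, 12), (3, 31), (5, 100), (7, 20), (11, -7), (13, 75)])))))) (.mul (.g 0) (.add (.mul (.pp [(1, 162600000)]) (.sq [(1, 100), (2, 89), (3, -96), (7, -35), (11, -19), (13, -40)])) (.mul (.g 0) (.add (.add (.pp [(1, 32151000000000)]) (.mul (.g 0) (.pp [(1, 5225700000000)]))) (.add (.mul (.g 6) (.pp [(1, 4387140000000)])) (.mul (.g 9) (.pp [(1, 3908520000000)]))))))))) (.add (.add (.mul (.g 3) (.add (.add (.mul (.pp [(1, 38670000)]) (.sq [(1, 2), (2, 100), (3, -5), (5, 86), (7, 28), (11, 47), (13, -26)])) (.mul (.pp [(1,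 98376000)]) (.sq [(1, -39), (2, 100), (3, 70), (5, 93), (7, -84), (11, -81), (13, 49)]))) (.add (.mul (.pp [(1, 21606000)]) (.sq [(1, -87), (2, 100), (3, 100), (5, 100), (7, 100), (11, 100), (13, 100)])) (.add (.mul (.g 2) (.mul (.g 2) (.pp [(1, 974880000000)]))) (.mul (.g 8) (.mul (.g 18) (.pp [(1, 552180000000)]))))))) (.mul (.g 4) (.add (.add (.mul (.pp [(1, 16116000)]) (.sq [(1, 72), (2, -95), (3, -100), (5, -60), (7, -25), (11, 13), (13, 44)])) (.mul (.pp [(1, 41430000)]) (.sq [(1, 9), (2, -8), (3, -78), (5, -12), (7, 10), (11, -93), (13, 100)]))) (.add (.mul (.pp [(1, 113748000)]) (.sq [(1, 4), (2, 100), (3, -9), (5, 93), (7, -45), (11, -75), (13, 33)])) (.add (.mul (.pp [(1, 26904000)]) (.sq [(1, 22), (2, 59), (3, 33), (5, -100), (7, -75), (11, -39), (13, 2)])) (.mul (.pp [(1, 12558000)]) (.sq [(1, 32), (2, -5), (3, 75), (5, 100), (7, 37), (11, -10), (13, -17)]))))))) (.add (.mul (.g 5) (.add (.add (.pp [(1, 17613000000)]) (.mul (.pp [(1, 1440900)])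 (.sq [(1, 36), (2, 5), (3, -60), (5, -98), (7, 100), (11, 18), (13, -2)]))) (.add (.mul (.pp [(1, 6582300)]) (.sq [(1, 58), (2, 100), (3, -45), (5, -13), (7, -5), (11, 21), (13, -21)])) (.mul (.g 15) (.pp [(1, 46491000000)]))))) (.mul (.g 6) (.add (.add (.mul (.pp [(1, 14448000)]) (.sq [(1, -40), (2, -33), (3, 100), (5, 35), (7, 24), (11, 94), (13, 22)])) (.mul (.pp [(1, 127830000)]) (.sq [(1, 23), (2, 91), (3, 13), (5, 23), (11, -100), (13, -97)]))) (.add (.mul (.pp [(1, 81918000)]) (.sq [(1, 31), (2, -17), (3, -5), (5, -35), (7, -1), (11, 100), (13, -92)])) (.mul (.g 1) (.mul (.g 9) (.pp [(1, 3181920000000)]))))))))) (.add (.add (.add (.mul (.g 18) (.add (.add (.pp [(1, 2618580000000)]) (.mul (.pp [(1, 46926000)]) (.sq [(1, 16), (2, 100), (3, 49), (5, 35), (7, 36), (11, 59), (13, -11)]))) (.add (.mul (.pp [(1, 67572000)]) (.sq [(1, 100), (2, 99), (3, -90), (5, 57), (7, -27), (11, -38), (13, -22)])) (.mul (.pp [(1, 92052000)]) (.sq [(1, 6), (2, 13), (3,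 100), (5, 34), (7, -10), (11, -5), (13, -47)]))))) (.mul (.g 8) (.add (.pp [(1, 2557020000000)]) (.add (.mul (.pp [(1, 32460000)]) (.sq [(1, 66), (2, 92), (3, -49), (5, 89), (7, 32), (11, 22), (13, 100)])) (.mul (.g 8) (.mul (.g 8) (.pp [(1, 3955980000000)]))))))) (.add (.mul (.g 13) (.add (.pp [(1, 186807000000)]) (.add (.mul (.pp [(1, 1588200)]) (.sq [(1, -37), (2, 54), (3, -5), (5, 100), (7, -36), (11, 19), (13, 8)])) (.mul (.pp [(1, 1681800)]) (.sq [(1, 3), (2, -68), (3, 36), (5, -54), (7, -6), (11, -7), (13, 100)]))))) (.mul (.g 2) (.mul (.g 2) (.add (.pp [(1, 6369540000000)]) (.mul (.g 2) (.pp [(1, 5722080000000)]))))))) (.add (.add (.mul (.g 12) (.add (.mul (.pp [(1, 78498000)]) (.sq [(1, -49), (2, -13), (3, 26), (5, -30), (7, 8), (11, -43), (13, 100)])) (.mul (.pp [(1, 120768000)]) (.sq [(1, -16), (2, 18), (3, 18), (5, 18), (7, 25), (11, 18), (13, 18)])))) (.mul (.g 17) (.add (.mul (.pp [(1, 600660)]) (.sq [(1, 1), (2, 14), (3, 100), (5, 23), (11,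 9), (13, -51)])) (.mul (.pp [(1, 923280)]) (.sq [(1, -50), (2, 29), (3, 29), (5, 29), (7, 29), (11, 29), (13, 29)]))))) (.add (.mul (.g 14) (.mul (.pp [(1, 19956000)]) (.sq [(1, 5), (2, 27), (3, 100), (5, -11), (7, -1), (11, -81), (13, 68)]))) (.mul (.g 15) (.mul (.pp [(1, 82104000)]) (.sq [(1, 23), (2, -11), (3, -76), (5, -47), (7, 7), (11, 100), (13, 9)])))))))))) (.add (.add (.mul (.g 8) (.add (.add (.add (.mul (.g 11) (.add (.add (.mul (.pp [(1, 100200000)]) (.sq [(1, 27), (2, -10), (3, -74), (5, 74), (7, -100), (11, -5)])) (.add (.mul (.pp [(1, 774000)]) (.sq [(1, -57), (2, 51), (3, -92), (5, 91), (7, 100), (11, 22), (13, 3)])) (.mul (.g 7) (.add (.mul (.g 8) (.pp [(1, 4722780000000)])) (.add (.mul (.g 13) (.pp [(1, 19440000000)])) (.mul (.g 14) (.pp [(1, 1326180000000)]))))))) (.add (.mul (.g 3) (.add (.mul (.g 6) (.pp [(1, 609600000000)])) (.mul (.g 13) (.pp [(1, 51330000000)])))) (.add (.mul (.g 14) (.add (.pp [(1, 3503940000000)]) (.mul (.g 1) (.pp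 [(1, 337260000000)])))) (.mul (.g 6) (.mul (.g 6) (.pp [(1, 369780000000)]))))))) (.mul (.g 8) (.add (.add (.mul (.pp [(1, 46644000)]) (.sq [(1, -38), (2, 17), (3, -76), (5, 76), (7, 100), (11, 7), (13, -1)])) (.mul (.g 8) (.add (.add (.pp [(1, 10112700000000)]) (.mul (.g 1) (.pp [(1, 5448360000000)]))) (.add (.mul (.g 6) (.pp [(1, 916080000000)])) (.mul (.g 12) (.pp [(1, 239520000000)])))))) (.add (.mul (.g 2) (.add (.mul (.g 7) (.pp [(1, 689520000000)])) (.mul (.g 15) (.pp [(1, 477360000000)])))) (.mul (.g 10) (.mul (.g 10) (.pp [(1, 495360000000)]))))))) (.add (.mul (.g 14) (.add (.add (.pp [(1, 15438420000000)]) (.mul (.pp [(1, 11436000)]) (.sq [(1, -97), (2, 82), (3, -100), (5, 97), (7, 34), (11, 36), (13, 3)]))) (.add (.mul (.g 6) (.add (.pp [(1, 68100000000)]) (.mul (.g 3) (.pp [(1, 3065820000000)])))) (.add (.mul (.g 7) (.add (.mul (.g 14) (.pp [(1, 528720000000)])) (.mul (.g 15) (.pp [(1, 396060000000)])))) (.mul (.g 14) (.pp [(1, 333540000000)]))))))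 (.mul (.g 17) (.add (.add (.mul (.pp [(1, 38460)]) (.sq [(1, 100), (2, 89), (3, 89), (5, 89), (7, 100), (11, 89), (13, 89)])) (.mul (.g 9) (.mul (.g 9) (.pp [(1, 19034400000)])))) (.add (.mul (.g 10) (.pp [(1, 531811800000)])) (.mul (.g 17) (.pp [(1, 547104000)]))))))) (.add (.add (.mul (.g 13) (.add (.mul (.pp [(1, 26400)]) (.sq [(1, -100), (2, 81), (3, -100), (5, 94), (7, -14), (11, 40), (13, 3)])) (.mul (.g 1) (.add (.pp [(1, 58479000000)]) (.mul (.g 3) (.pp [(1, 11922000000)])))))) (.mul (.g 15) (.add (.mul (.pp [(1, 972000)]) (.sq [(1, 89), (2, -75), (3, 100), (5, -97), (7, -63), (11, -33), (13, -3)])) (.add (.mul (.g 10) (.mul (.g 10) (.pp [(1, 224340000000)]))) (.mul (.g 15) (.pp [(1, 1521900000000)])))))) (.add (.mul (.g 7) (.add (.mul (.pp [(1, 732666000)]) (.sq [(1, -31), (2, 14), (3, 14), (5, -13), (7, 100), (11, 6)])) (.mul (.g 0) (.mul (.g 7) (.pp [(1, 5516160000000)]))))) (.add (.mul (.g 3) (.mul (.pp [(1, 148488000)]) (.sq [(1, -2), (2, 2),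 (3, -71), (5, 70), (7, 100)]))) (.mul (.g 18) (.mul (.pp [(1, 4830000)]) (.sq [(1, 68), (2, -12), (3, -38), (5, -84), (7, 57), (11, 50), (13, 100)])))))))) (.mul (.g 13) (.add (.add (.add (.mul (.g 3) (.add (.add (.pp [(1, 271155000000)]) (.add (.mul (.pp [(1, 10212000)]) (.sq [(1, 91), (2, -100), (3, -2), (5, -41), (7, -2), (11, -28), (13, -1)])) (.mul (.pp [(1, 208200)]) (.sq [(3, -73), (5, 69), (7, -100), (11, 1), (13, 2)])))) (.add (.mul (.pp [(1, 872100)]) (.sq [(1, -3), (2, 3), (3, 70), (5, -72), (7, -100), (11, -2)])) (.add (.mul (.g 0) (.add (.mul (.g 0) (.pp [(1, 107688000000)])) (.mul (.g 3) (.pp [(1, 355821000000)])))) (.mul (.g 6) (.add (.pp [(1, 69927000000)]) (.mul (.g 3) (.pp [(1, 3024000000)])))))))) (.mul (.g 14) (.add (.add (.pp [(1, 1188807000000)]) (.mul (.pp [(1, 432000)]) (.sq [(1, 14), (2, -25), (3, -25), (5, 21), (7, -14), (11, 49), (13, 100)]))) (.add (.mul (.pp [(1, 1363200)]) (.sq [(1, 4), (2, 5), (3, -19), (5, 50), (7, -51), (11,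 100), (13, -3)])) (.add (.mul (.pp [(1, 1532400)]) (.sq [(1, 27), (2, -12), (3, 42), (5, -41), (7, -50), (11, 1), (13, 6)])) (.mul (.g 1) (.mul (.g 11) (.pp [(1, 56250000000)])))))))) (.add (.mul (.g 12) (.add (.add (.pp [(1, 219225000000)]) (.mul (.pp [(1, 66600)]) (.sq [(1, -82), (2, 85), (3, -4), (5, 100), (7, 27), (11, 39), (13, -1)]))) (.add (.mul (.pp [(1, 208500)]) (.sq [(1, 17), (2, -25), (3, 54), (5, 100), (7, 5), (11, -11), (13, -13)])) (.mul (.pp [(1, 2638500)]) (.sq [(1, -48), (2, 34), (3, 4), (5, -12), (7, -44), (11, 100), (13, 61)]))))) (.add (.mul (.g 13) (.add (.add (.mul (.pp [(1, 38625)]) (.sq [(1, -21), (2, -39), (3, 100), (5, 22), (7, 23), (11, -53), (13, -49)])) (.mul (.pp [(1, 15870)]) (.sq [(1, -44), (2, -74), (3, -13), (5, -33), (7, -44), (11, -77), (13, 100)]))) (.add (.mul (.pp [(1, 21750)]) (.sq [(1, 6), (2, -47), (3, -28), (5, 22), (7, -26), (11, 80), (13, 100)])) (.mul (.pp [(1, 15330)]) (.sq [(1, -4), (2, -18), (3, -49), (5,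 50), (7, -55), (11, 100), (13, -38)]))))) (.mul (.g 1) (.add (.mul (.g 10) (.add (.mul (.g 10) (.pp [(1, 9648000000)])) (.mul (.g 15) (.pp [(1, 3126000000)])))) (.mul (.g 1) (.mul (.g 6) (.pp [(1, 53958000000)])))))))) (.add (.add (.mul (.g 5) (.add (.mul (.pp [(1, 9810)]) (.sq [(1, 70), (2, 73), (3, 66), (5, 100), (7, 37), (11, 34), (13, 59)])) (.mul (.pp [(1, 49170)]) (.sq [(1, 39), (2, -20), (3, -57), (5, 100), (7, -25), (11, 89), (13, -3)])))) (.mul (.g 7) (.add (.pp [(1, 11496000000)]) (.mul (.pp [(1, 3903900)]) (.sq [(1, 37), (2, 14), (3, 100), (5, -20), (7, 4), (11, 16), (13, -9)]))))) (.add (.mul (.g 11) (.add (.mul (.pp [(1, 842400)]) (.sq [(1, 69), (2, -100), (3, 21), (5, -64), (7, 4), (11, -48), (13, -4)])) (.mul (.pp [(1, 2939700)]) (.sq [(1, -88), (2, 74), (3, 100), (5, -99), (7, 83), (11, 36), (13, -3)])))) (.add (.mul (.g 17) (.add (.pp [(1, 2235510000)]) (.mul (.pp [(1, 385488)]) (.sq [(1, 25), (2, 14), (3, 14), (5, 14), (7, 12), (11, 14),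 (13, 14)])))) (.mul (.g 0) (.mul (.g 10) (.mul (.g 10) (.pp [(1, 11700000000)])))))))))) (.add (.mul (.g 7) (.add (.add (.add (.mul (.g 7) (.add (.add (.pp [(1, 5673600000000)]) (.add (.mul (.pp [(1, 111438000)]) (.sq [(1, 51), (2, 39), (3, 100), (5, -30), (7, -37), (11, 8), (13, -6)])) (.mul (.pp [(1, 10998000)]) (.sq [(1, 100), (2, 41), (3, -15), (5, -99), (7, 39), (11, 19), (13, 29)])))) (.add (.add (.mul (.g 1) (.add (.add (.pp [(1, 14845440000000)]) (.mul (.g 1) (.pp [(1, 650940000000)]))) (.add (.mul (.g 2) (.pp [(1, 4730700000000)])) (.mul (.g 11) (.pp [(1, 2180580000000)]))))) (.mul (.g 2) (.add (.mul (.g 6) (.pp [(1, 2157300000000)])) (.mul (.g 7) (.pp [(1, 2286720000000)]))))) (.add (.mul (.g 6) (.mul (.g 15) (.pp [(1, 602280000000)]))) (.mul (.g 9) (.mul (.g 18) (.pp [(1, 1775460000000)]))))))) (.mul (.g 18) (.add (.mul (.pp [(1, 84342000)]) (.sq [(1, -57), (2, 68), (3, 100), (5, -39), (7, -6), (11, 48), (13, -38)])) (.add (.mul (.g 0) (.add (.mul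 (.g 0) (.pp [(1, 3743820000000)])) (.add (.mul (.g 9) (.pp [(1, 21251820000000)])) (.mul (.g 17) (.pp [(1, 108892200000)]))))) (.mul (.g 17) (.mul (.g 17) (.pp [(1, 682128000)]))))))) (.add (.mul (.g 3) (.add (.mul (.pp [(1, 205446000)]) (.sq [(1, 52), (2, -87), (3, 25), (5, -2), (7, 2), (11, 38), (13, 100)])) (.mul (.g 6) (.add (.pp [(1, 9387840000000)]) (.mul (.g 10) (.pp [(1, 3457500000000)])))))) (.mul (.g 11) (.add (.mul (.pp [(1, 128814000)]) (.sq [(1, -35), (2, 32), (3, 27), (5, -33), (7, 100), (11, 13), (13, 2)])) (.mul (.pp [(1, 179880000)]) (.sq [(1, 34), (2, -86), (3, 89), (5, -100), (7, -6), (11, 41), (13, 18)])))))) (.add (.add (.mul (.g 0) (.mul (.pp [(1, 360978000)]) (.sq [(1, -36), (2, 100), (3, -22), (5, 46), (7, 20), (11, 1), (13, -31)]))) (.mul (.g 2) (.mul (.pp [(1, 386364000)]) (.sq [(1, 9), (2, 9), (3, -42), (5, 100), (7, 13), (11, 20), (13, 6)])))) (.add (.mul (.g 6) (.mul (.pp [(1, 36090000)]) (.sq [(1, 2), (2, -5), (3, -97), (5,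 100), (7, 4), (11, 1), (13, 6)]))) (.add (.mul (.g 9) (.mul (.g 9) (.mul (.g 9) (.pp [(1, 5134080000000)])))) (.mul (.g 14) (.mul (.pp [(1, 54564000)]) (.sq [(1, -51), (2, 44), (3, 43), (5, -45), (7, 100), (11, 19), (13, 1)])))))))) (.mul (.g 17) (.add (.add (.mul (.g 9) (.add (.add (.mul (.g 10) (.add (.mul (.g 10) (.pp [(1, 7660800000)])) (.add (.mul (.g 15) (.pp [(1, 7472400000)])) (.mul (.g 17) (.pp [(1, 110250000)]))))) (.mul (.g 0) (.add (.pp [(1, 199206600000)]) (.mul (.g 0) (.pp [(1, 22462200000)]))))) (.add (.mul (.g 9) (.add (.mul (.g 5) (.pp [(1, 280410000)])) (.mul (.g 14) (.pp [(1, 3783000000)])))) (.add (.mul (.g 18) (.add (.mul (.g 3) (.pp [(1, 3480000000)])) (.mul (.g 15) (.pp [(1, 3770400000)])))) (.mul (.g 2) (.mul (.g 17) (.pp [(1, 117504000)]))))))) (.mul (.g 0) (.add (.mul (.g 0) (.mul (.g 0) (.pp [(1, 85368000000)]))) (.mul (.g 10) (.mul (.g 18) (.pp [(1, 17202000000)])))))) (.add (.mul (.g 12) (.add (.mul (.pp [(1, 260700)]) (.sq [(1,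 3), (2, 5), (3, -28), (5, 61), (7, -68), (11, 100), (13, 5)])) (.mul (.pp [(1, 833280)]) (.sq [(1, -100), (2, 57), (3, 57), (5, 57), (7, 68), (11, 57), (13, 57)])))) (.add (.mul (.g 14) (.pp [(1, 64356600000)])) (.mul (.g 15) (.mul (.pp [(1, 722100)]) (.sq [(1, 46), (2, 21), (3, -11), (5, -10), (7, 76), (11, 100), (13, -24)])))))))))) (.add (.add (.add (.mul (.g 3) (.add (.add (.mul (.g 2) (.add (.mul (.pp [(1, 271350000)]) (.sq [(1, -99), (2, 100), (3, 8), (5, 42), (7, -7), (11, -14), (13, 23)])) (.mul (.pp [(1, 26424000)]) (.sq [(1, -4), (2, 5), (7, 100), (11, 1)])))) (.add (.mul (.g 3) (.add (.mul (.pp [(1, 15564000)]) (.sq [(1, 26), (2, -37), (3, 25), (5, -10), (7, 10), (11, 100), (13, -83)])) (.mul (.g 9) (.mul (.g 9) (.pp [(1, 728700000000)]))))) (.mul (.g 0) (.mul (.pp [(1, 133986000)]) (.sq [(1, -14), (2, 100), (3, -10), (5, 13), (7, -7), (11, -12), (13, -68)]))))) (.add (.add (.mul (.g 1) (.mul (.pp [(1, 180714000)]) (.sq [(1, -72), (2, 93), (3,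 24), (5, -15), (7, -20), (11, -100), (13, 85)]))) (.mul (.g 6) (.mul (.pp [(1, 462000000)]) (.sq [(1, 3), (2, -3), (3, 3), (5, -5), (7, 100)])))) (.add (.mul (.g 12) (.mul (.pp [(1, 15204000)]) (.sq [(1, 10), (2, 88), (3, -77), (5, -20), (7, -18), (11, 39), (13, 100)]))) (.mul (.g 14) (.mul (.pp [(1, 162072000)]) (.sq [(1, -4), (2, 4), (3, 71), (5, -72), (7, -100), (11, -2)]))))))) (.mul (.g 18) (.add (.add (.mul (.g 18) (.add (.pp [(1, 381120000000)]) (.add (.mul (.pp [(1, 12438000)]) (.sq [(1, 30), (2, -100), (3, 18), (5, 68), (7, -53), (11, 85), (13, 44)])) (.mul (.g 10) (.mul (.g 10) (.pp [(1, 236400000000)])))))) (.mul (.g 12) (.add (.mul (.pp [(1, 49422000)]) (.sq [(1, -12), (2, -91), (3, 100), (5, -49), (7, 45), (11, 75), (13, -16)])) (.mul (.pp [(1, 22920000)]) (.sq [(1, -40), (2, -48), (3, -9), (5, -40), (7, 98), (11, 21), (13, 100)]))))) (.add (.mul (.g 14) (.add (.mul (.pp [(1, 40134000)]) (.sq [(1, -3), (2, -30), (3, -48), (5, 42), (7, 61), (11,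 -34), (13, 100)])) (.mul (.g 2) (.mul (.g 2) (.pp [(1, 478560000000)]))))) (.add (.mul (.g 5) (.mul (.pp [(1, 5788200)]) (.sq [(1, 11), (2, 27), (3, -70), (5, -6), (7, -2), (11, 30), (13, 100)]))) (.mul (.g 15) (.mul (.pp [(1, 38784000)]) (.sq [(1, 33), (2, 2), (3, -86), (5, 25), (7, 40), (11, 100), (13, 62)])))))))) (.add (.mul (.g 14) (.add (.add (.mul (.g 15) (.add (.mul (.g 10) (.add (.mul (.g 9) (.pp [(1, 3171660000000)])) (.mul (.g 10) (.pp [(1, 505080000000)])))) (.mul (.g 1) (.mul (.g 15) (.pp [(1, 239760000000)]))))) (.mul (.g 6) (.mul (.pp [(1, 23808000)]) (.sq [(1, 23), (2, 54), (3, -94), (5, 100), (7, 12), (11, 9), (13, 23)])))) (.add (.mul (.g 12) (.mul (.pp [(1, 29556000)]) (.sq [(1, -55), (2, 52), (3, -19), (5, -32), (7, -51), (11, 100), (13, 81)]))) (.mul (.g 14) (.mul (.pp [(1, 54000)]) (.sq [(1, 24), (2, -9), (3, 22), (5, -47), (7, 100), (11, -47), (13, 95)])))))) (.mul (.g 2) (.add (.add (.mul (.pp [(1, 117102000)]) (.sq [(1, -77), (2,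 100), (3, -39), (5, 87), (7, -18), (11, -29), (13, 50)])) (.mul (.g 5) (.mul (.pp [(1, 1750500)]) (.sq [(2, 8), (3, -40), (5, 22), (7, -5), (11, -48), (13, 100)])))) (.add (.mul (.g 6) (.mul (.pp [(1, 113094000)]) (.sq [(2, -2), (3, -98), (5, 100), (7, 1), (11, -3), (13, 4)]))) (.add (.mul (.g 10) (.mul (.pp [(1, 732000)]) (.sq [(1, -63), (2, 100), (3, 31), (5, 73), (7, -73), (11, -43), (13, -100)]))) (.mul (.g 11) (.mul (.pp [(1, 18576000)]) (.sq [(1, -3), (2, 48), (3, -56), (5, 100), (7, -21), (11, -34), (13, -69)]))))))))) (.add (.add (.mul (.g 11) (.add (.mul (.pp [(1, 155292000)]) (.sq [(1, 51), (2, -74), (3, -38), (5, 5), (7, 24), (11, 100), (13, -17)])) (.add (.mul (.g 1) (.mul (.pp [(1, 39744000)]) (.sq [(1, -12), (2, 50), (3, 81), (5, -100), (7, -2), (11, -22), (13, -42)]))) (.mul (.g 11) (.mul (.pp [(1, 5172000)]) (.sq [(1, -64), (2, 100), (3, 56), (5, 43), (7, -46), (11, -54), (13, -69)])))))) (.mul (.g 12) (.add (.mul (.g 5) (.add (.mul (.pp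 [(1, 3733800)]) (.sq [(1, -67), (2, 72), (3, 100), (5, -74), (7, -1), (11, 65), (13, -37)])) (.mul (.pp [(1, 3411300)]) (.sq [(1, -38), (2, 100), (3, -28), (5, 8), (7, -19), (11, 8), (13, 78)])))) (.mul (.g 15) (.mul (.pp [(1, 11046000)]) (.sq [(1, 67), (2, -33), (3, -88), (5, 88), (7, -100), (11, 8)])))))) (.add (.mul (.g 19) (.add (.mul (.g 0) (.pp [(1, 1637916000000)])) (.mul (.g 9) (.pp [(1, 1686424000000)])))) (.mul (.g 1) (.mul (.g 6) (.mul (.pp [(1, 1548000)]) (.sq [(1, 42), (2, -55), (3, -100), (5, 45), (7, -69), (11, 23), (13, 93)])))))))) (.pp [(1, 3882587765), (2, 533863230), (3, 562007520), (4, 569623863), (5, 579025620), (6, 542708016), (7, 573152610), (8, 547085040), (9, 679974978), (10, 641687796), (11, 658879370), (12, 699643620), (13, 587010090), (14, 521859558), (15, 886368636), (16, 559788000), (18, 619673220), (20, 1053599460), (21, 801738648), (22, 837289146), (24, 612744000), (25, 476725278), (26, 640809126), (27, 523416420), (28, 817255080),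 (30, 536365800), (33, 380670576), (35, 602702988), (36, 513138000), (39, 605337036), (40, 594144000), (42, 506474040), (44, 279842520), (45, 383920860), (49, 598919457), (50, 360407520), (52, 525296220), (54, 608382000), (55, 722197776), (56, 544494000), (60, 564174000), (63, 437413560), (65, 652448916), (66, 546132360), (70, 327280440), (75, 494765520), (77, 473747538), (78, 675221760), (81, 608256000), (84, 488994000), (88, 648598000), (90, 636648000), (91, 443098158), (98, 655770180), (99, 721013280), (100, 488430000), (104, 594858000), (105, 608004120), (110, 430582200), (117, 590218380), (121, 540736203), (125, 770983080), (126, 728658000), (130, 356001000), (132, 669102000), (135, 693318000), (140, 534186000), (143, 730573386), (147, 496652820), (150, 572772000), (154, 606402000), (156, 800982000), (165, 697575720), (169, 693619803), (175, 771312060), (182, 460191000), (189, 608544000), (195, 464398920), (196, 467868000), (198, 651738000), (210, 843252000),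 (220, 569478000), (225, 722400000), (231, 777402480), (234, 409800000), (242, 627990720), (245, 651901920), (250, 725124000), (260, 626154000), (273, 715772880), (275, 451775340), (286, 417329640), (294, 836244000), (297, 586158000), (308, 569022000), (315, 629514000), (325, 623638140), (330, 691824000), (338, 641498220), (343, 501227180), (350, 821718000), (351, 675732000), (363, 719540640), (364, 505848000), (375, 588972000), (385, 544153680), (390, 424620000), (429, 565504080), (441, 562278000), (455, 554792880), (462, 455112000), (484, 582828000), (490, 599004000), (495, 400134000), (507, 552008040), (525, 458772000), (539, 647896920), (546, 594792000), (550, 608352000), (572, 687840000), (585, 683052000), (605, 667749840), (625, 551136000), (637, 559120320), (650, 683322000), (676, 590082000), (686, 598812000), (693, 575112000), (715, 514348680), (726, 672996000), (735, 609582000), (770, 630720000), (819, 631716000), (825, 575760000), (845, 648431340),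 (847, 592907520), (858, 611844000), (875, 577440000), (910, 615048000), (975, 677172000), (1001, 797159040), (1014, 762216000), (1029, 544974000), (1078, 570930000), (1089, 550212000), (1155, 549948000), (1183, 766633020), (1210, 752430000), (1225, 607716000), (1274, 423912000), (1287, 631806000), (1331, 540146940), (1365, 653544000), (1375, 552402000), (1430, 768672000), (1521, 531774000), (1573, 561149220), (1617, 766446000), (1625, 578220000), (1690, 697428000), (1694, 531810000), (1715, 782538000), (1815, 492954000), (1859, 512238420), (1911, 682902000), (1925, 557952000), (2002, 602568000), (2145, 624288000), (2197, 492900540), (2275, 563802000), (2366, 648378000), (2401, 628758000), (2535, 490962000), (2541, 434346000), (2662, 708888000), (2695, 395010000), (3003, 364836000), (3025, 625962000), (3146, 714180000), (3185, 550386000), (3549, 551580000), (3575, 636768000), (3718, 567774000), (3773, 659880000), (3993, 655230000), (4225, 523326000), (4235,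 708924000), (4394, 515946000), (4459, 470382000), (4719, 641382000), (5005, 619224000), (5577, 606144000), (5915, 675522000), (5929, 381900000), (6591, 648516000), (6655, 531042000), (7007, 797022000), (7865, 587670000), (8281, 661836000), (9295, 573618000), (9317, 625104000), (10985, 642150000), (11011, 536004000), (13013, 565626000), (14641, 622134000), (15379, 502206000), (17303, 706686000), (20449, 681174000), (24167, 705882000), (28561, 633174000)])))
    (by decide +kernel) (yv_nonneg cw cA cB dw dA dB (le_refl 0) (le_refl 0) (le_refl 0))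
    (by
      simp only [List.forall_mem_cons, exadd, exsub, exmul, exc, exv2, exv3, exv5, exv7, exv11, exv13]
      push_cast
      refine ⟨?_, ?_, ?_, ?_, ?_, ?_, ?_, ?_, ?_, ?_, ?_, ?_, ?_, ?_, ?_, ?_, ?_, ?_, ?_, ?_, fun _ hh => absurd hh List.not_mem_nil⟩
      · linarith [cw]
      · linarith [cA]
      · linarith [cB]
      · linarith [cw1]
      · linarith [cT]
      · linarith [cT2]
      · linarith [ck1]
      · linarith [ck2]
      · linarith [dw]
      · linarith [dA]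
      · linarith [dB]
      · linarith [dw1]
      · linarith [dT]
      · linarith [dT2]
      · linarith [dk1]
      · linarith [dk2]
      · linarith [m1]
      · linarith [m2]
      · linarith [m3]
      · linarith [m5]
    )
  simp only [exadd, exsub, exmul, exc, exv2, exv3, exv5, exv7, exv11, exv13] at h
  push_cast at h
  linarith [h]

theorem cc_i0010 {w A B x E F : ℝ} (cw : 0 ≤ w) (cA : 0 ≤ A) (cB : 0 ≤ B) (cw1 : 0 ≤ 1 - w) (cT : 0 ≤ 1 + w - A - B) (cT2 : 0 ≤ -9 / 20 - w + A + B) (ck1 : 0 ≤ -w + A) (ck2 : 0 ≤ -w + B) (dw : 0 ≤ x) (dA : 0 ≤ E) (dB : 0 ≤ F) (dw1 : 0 ≤ 1 - x) (dT : 0 ≤ 1 + x - E - F) (dT2 : 0 ≤ -9 / 20 - x + E + F) (dk1 : 0 ≤ x - E) (dk2 : 0 ≤ -x + F) (m1 : 0 ≤ E) (m2 : 0 ≤ 29 / 100 - E) (m3 : 0 ≤ w - E) (m5 : 0 ≤ 4 / 15 - E - w ^ 2 + w * E + 1 / 3 * w ^ 3) :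
    0 ≤ -41 / 750 - 29 / 100 * w + 29 / 100 * B - 2 / 25 * x + 21 / 40 * E + 41 / 200 * F + w ^ 2 - w * E - w * A * B + x ^ 2 * E - x * E ^ 2 - x * E * F + 1 / 3 * E ^ 3 := by
  have h := cert (y := yv w A B x E F 0 0 0)
    (gs := [(.v 2),
      (.v 3),
      (.v 5),
      (.add (.c (1)) (.mul (.c (-1)) (.v 2))),
      (.add (.add (.c (1)) (.v 2)) (.add (.mul (.c (-1)) (.v 3)) (.mul (.c (-1)) (.v 5)))),
      (.add (.add (.c (-9)) (.mul (.c (-20)) (.v 2))) (.add (.mul (.c (20)) (.v 3)) (.mul (.c (20)) (.v 5)))),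
      (.add (.mul (.c (-1)) (.v 2)) (.v 3)),
      (.add (.mul (.c (-1)) (.v 2)) (.v 5)),
      (.v 7),
      (.v 11),
      (.v 13),
      (.add (.c (1)) (.mul (.c (-1)) (.v 7))),
      (.add (.add (.c (1)) (.v 7)) (.add (.mul (.c (-1)) (.v 11)) (.mul (.c (-1)) (.v 13)))),
      (.add (.add (.c (-9)) (.mul (.c (-20)) (.v 7))) (.add (.mul (.c (20)) (.v 11)) (.mul (.c (20)) (.v 13)))),
      (.add (.v 7) (.mul (.c (-1)) (.v 11))),
      (.add (.mul (.c (-1)) (.v 7)) (.v 13)),
      (.v 11),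
      (.add (.c (29)) (.mul (.c (-100)) (.v 11))),
      (.add (.v 2) (.mul (.c (-1)) (.v 11))),
      (.add (.add (.c (4)) (.mul (.c (-15)) (.mul (.v 2) (.v 2)))) (.add (.mul (.c (5)) (.mul (.mul (.v 2) (.v 2)) (.v 2))) (.add (.mul (.c (-15)) (.v 11)) (.mul (.c (15)) (.mul (.v 2) (.v 11))))))])
    (p := .mul (.c 2000000000) (.add (.add (.add (.c (-164)) (.add (.mul (.c (-870)) (.v 2)) (.mul (.c (3000)) (.mul (.v 2) (.v 2))))) (.add (.mul (.c (870)) (.v 5)) (.add (.mul (.c (-240)) (.v 7)) (.mul (.c (1575)) (.v 11))))) (.add (.add (.mul (.c (615)) (.v 13)) (.add (.mul (.c (-3000)) (.mul (.v 2) (.v 11))) (.mul (.c (-3000)) (.mul (.mul (.v 2) (.v 3)) (.v 5))))) (.add (.add (.mul (.c (3000)) (.mul (.mul (.v 7) (.v 7)) (.v 11))) (.mul (.c (-3000)) (.mul (.mul (.v 7) (.v 11)) (.v 11)))) (.add (.mul (.c (-3000)) (.mul (.mul (.v 7) (.v 11)) (.v 13))) (.mul (.c (1000)) (.mul (.mul (.v 11) (.v 11)) (.v 11))))))))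
    (e := (.add (.add (.add (.add (.add (.mul (.pp [(1, 11189400)]) (.sq [(1, 55), (2, -100), (3, 57), (5, -79), (7, 27), (11, 68), (13, -47)])) (.mul (.pp [(1, 66697200)]) (.sq [(1, 71), (2, -100), (3, -36), (5, 15), (7, 29), (11, 100), (13, -42)]))) (.add (.mul (.g 4) (.add (.add (.add (.mul (.g 0) (.add (.add (.mul (.pp [(1, 142800)]) (.sq [(1, 23), (2, -55), (3, -93), (5, 27), (7, 17), (11, -37), (13, 100)])) (.add (.mul (.pp [(1, 1392600)]) (.sq [(1, 60), (2, 1), (3, -52), (5, 85), (7, 100), (11, 58), (13, 3)])) (.mul (.g 0) (.add (.add (.pp [(1, 2305020000000)]) (.mul (.g 1) (.pp [(1, 151296000000)]))) (.add (.mul (.g 3) (.pp [(1, 42678000000)])) (.add (.mul (.g 9) (.pp [(1, 460668000000)])) (.mul (.g 10) (.pp [(1, 62064000000)])))))))) (.add (.add (.mul (.g 2) (.add (.mul (.g 3) (.pp [(1, 725862000000)])) (.mul (.g 18) (.pp [(1, 1307850000000)])))) (.mul (.g 8) (.add (.mul (.g 3) (.pp [(1, 64332000000)])) (.mul (.g 7) (.pp [(1, 17892000000)])))))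 (.add (.mul (.g 10) (.mul (.g 11) (.pp [(1, 102456000000)]))) (.mul (.g 18) (.pp [(1, 193584000000)])))))) (.add (.mul (.g 2) (.add (.add (.pp [(1, 189084000000)]) (.mul (.pp [(1, 1207800)]) (.sq [(1, 12), (2, 28), (3, 27), (5, 100), (7, -29), (11, 72), (13, -17)]))) (.add (.mul (.g 2) (.add (.add (.pp [(1, 496320000000)]) (.mul (.g 2) (.pp [(1, 533940000000)]))) (.add (.mul (.g 3) (.pp [(1, 68304000000)])) (.mul (.g 9) (.pp [(1, 627282000000)]))))) (.mul (.g 1) (.add (.mul (.g 3) (.pp [(1, 208740000000)])) (.mul (.g 9) (.pp [(1, 2796000000)]))))))) (.mul (.g 11) (.add (.add (.mul (.pp [(1, 661200)]) (.sq [(1, 30), (2, 100), (3, 77), (5, 80), (7, -20), (11, 50), (13, -1)])) (.mul (.pp [(1, 1231800)]) (.sq [(1, -83), (2, -90), (3, 100), (5, -51), (7, 84), (11, -22), (13, 21)]))) (.add (.mul (.pp [(1, 56400)]) (.sq [(1, -87), (2, 100), (3, 100), (5, 100), (7, 76), (11, 76), (13, 100)])) (.mul (.g 8) (.add (.mul (.g 11) (.pp [(1, 9222000000)])) (.add (.mul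 (.g 13) (.pp [(1, 484500000)])) (.mul (.g 15) (.pp [(1, 26388000000)])))))))))) (.add (.add (.mul (.g 3) (.add (.add (.mul (.pp [(1, 692400)]) (.sq [(1, -20), (2, 1), (3, -41), (5, 100), (7, 26), (11, 23), (13, -47)])) (.mul (.g 7) (.add (.mul (.g 8) (.pp [(1, 107970000000)])) (.mul (.g 15) (.pp [(1, 21912000000)]))))) (.add (.mul (.g 1) (.mul (.g 10) (.pp [(1, 5586000000)]))) (.mul (.g 18) (.mul (.g 18) (.pp [(1, 190740000000)])))))) (.mul (.g 5) (.add (.add (.pp [(1, 7167900000)]) (.mul (.pp [(1, 216270)]) (.sq [(1, 32), (2, 100), (3, -28), (5, -59), (7, 55), (11, 93), (13, 1)]))) (.add (.mul (.pp [(1, 257580)]) (.sq [(1, 69), (2, 100), (3, 9), (7, -25), (11, 26), (13, -76)])) (.mul (.pp [(1, 17310)]) (.sq [(1, -97), (2, -43), (3, 79), (5, 100), (7, 69), (11, -22), (13, -29)])))))) (.add (.mul (.g 1) (.add (.mul (.pp [(1, 1892400)]) (.sq [(1, -19), (2, 31), (3, 100), (5, -27), (7, -36), (11, -17), (13, -2)])) (.add (.mul (.g 1) (.mul (.g 1) (.pp [(1, 138000000000)])))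 (.mul (.g 10) (.mul (.g 18) (.pp [(1, 12168000000)])))))) (.mul (.g 4) (.add (.mul (.pp [(1, 1058400)]) (.sq [(1, -54), (2, -19), (3, 95), (5, -52), (7, -100), (11, -70), (13, 90)])) (.add (.mul (.pp [(1, 13366800)]) (.sq [(1, 38), (2, 60), (3, 33), (5, 100), (7, 1), (11, 6), (13, -42)])) (.mul (.pp [(1, 543600)]) (.sq [(1, -87), (2, 100), (3, 100), (5, 100), (7, 100), (11, 100), (13, 100)])))))))) (.add (.add (.add (.mul (.g 7) (.add (.pp [(1, 744258000000)]) (.add (.mul (.pp [(1, 1936200)]) (.sq [(1, 13), (2, 56), (3, 25), (5, -17), (7, 37), (11, 100), (13, -87)])) (.mul (.pp [(1, 5231400)]) (.sq [(1, 100), (2, 22), (3, -92), (5, -65), (7, -51), (11, 43), (13, 57)]))))) (.mul (.g 12) (.add (.mul (.pp [(1, 480600)]) (.sq [(1, -15), (2, -47), (3, -6), (5, -21), (7, 100), (11, 24), (13, -97)])) (.add (.mul (.pp [(1, 2400)]) (.sq [(1, 87), (2, -100), (3, -100), (5, -100), (7, -100), (11, -100), (13, -100)])) (.mul (.pp [(1, 1805400)]) (.sq [(1, 4), (2, 77),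 (3, 100), (5, 78), (7, 37), (11, 29), (13, -46)])))))) (.add (.mul (.g 10) (.add (.mul (.g 9) (.mul (.g 15) (.pp [(1, 10638000000)]))) (.mul (.g 18) (.pp [(1, 207936000000)])))) (.mul (.g 13) (.add (.pp [(1, 3465300000)]) (.mul (.pp [(1, 14580)]) (.sq [(1, 100), (2, 50), (3, -65), (5, -44), (7, -4), (11, 70), (13, 49)])))))) (.add (.add (.mul (.g 14) (.add (.pp [(1, 2688000000)]) (.mul (.pp [(1, 39600)]) (.sq [(1, -32), (2, 22), (3, 47), (5, 71), (7, -100), (11, 97), (13, -91)])))) (.mul (.g 6) (.mul (.pp [(1, 410400)]) (.sq [(1, -65), (2, -64), (3, -69), (5, 93), (7, 62), (11, -16), (13, -100)])))) (.add (.mul (.g 15) (.mul (.pp [(1, 732600)]) (.sq [(1, 71), (2, -44), (3, 100), (5, -54), (7, -44), (11, 11), (13, -33)]))) (.mul (.g 18) (.pp [(1, 191796000000)]))))))) (.mul (.g 11) (.add (.add (.mul (.g 13) (.add (.add (.add (.pp [(1, 12421800000)]) (.mul (.pp [(1, 57420)]) (.sq [(1, 6), (2, 100), (3, 56), (5, 65), (7, -32), (11, -25), (13, -95)]))) (.add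 (.mul (.g 9) (.add (.pp [(1, 166796700000)]) (.add (.mul (.g 10) (.pp [(1, 2522700000)])) (.mul (.g 11) (.pp [(1, 16164600000)]))))) (.mul (.g 0) (.add (.mul (.g 0) (.pp [(1, 3618900000)])) (.mul (.g 18) (.pp [(1, 27351300000)])))))) (.add (.add (.mul (.g 6) (.add (.mul (.g 2) (.pp [(1, 13500000)])) (.mul (.g 8) (.pp [(1, 1888800000)])))) (.mul (.g 3) (.pp [(1, 8631600000)]))) (.add (.mul (.g 7) (.mul (.g 8) (.pp [(1, 1316400000)]))) (.mul (.g 10) (.mul (.g 11) (.pp [(1, 600900000)]))))))) (.add (.mul (.g 14) (.add (.add (.mul (.g 0) (.add (.pp [(1, 18822000000)]) (.add (.mul (.g 0) (.pp [(1, 157188000000)])) (.mul (.g 11) (.pp [(1, 101310000000)]))))) (.mul (.g 18) (.add (.mul (.g 1) (.pp [(1, 20664000000)])) (.add (.mul (.g 8) (.pp [(1, 127050000000)])) (.mul (.g 12) (.pp [(1, 154314000000)])))))) (.add (.mul (.g 2) (.pp [(1, 11676000000)])) (.add (.mul (.g 8) (.mul (.g 11) (.pp [(1, 5916000000)]))) (.mul (.g 9) (.mul (.g 14) (.pp [(1, 131880000000)])))))))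 (.mul (.g 9) (.add (.mul (.g 3) (.add (.add (.mul (.g 3) (.pp [(1, 187986000000)])) (.mul (.g 6) (.pp [(1, 58320000000)]))) (.add (.mul (.g 7) (.pp [(1, 245760000000)])) (.mul (.g 9) (.pp [(1, 1007262000000)]))))) (.add (.mul (.g 9) (.add (.mul (.g 1) (.pp [(1, 822000000)])) (.mul (.g 9) (.pp [(1, 230988000000)])))) (.mul (.g 6) (.mul (.g 15) (.pp [(1, 30552000000)])))))))) (.add (.add (.mul (.g 8) (.add (.add (.mul (.pp [(1, 601800)]) (.sq [(1, -1), (2, 20), (3, -24), (5, 100), (7, -19), (11, -7), (13, -84)])) (.mul (.g 7) (.add (.mul (.g 3) (.pp [(1, 70638000000)])) (.mul (.g 10) (.pp [(1, 32424000000)]))))) (.add (.mul (.g 8) (.add (.mul (.g 6) (.pp [(1, 3642000000)])) (.mul (.g 12) (.pp [(1, 6432000000)])))) (.mul (.g 2) (.mul (.g 17) (.pp [(1, 77220000)])))))) (.mul (.g 7) (.add (.mul (.g 7) (.add (.mul (.g 0) (.pp [(1, 107982000000)])) (.mul (.g 17) (.pp [(1, 2644680000)])))) (.mul (.g 3) (.mul (.g 3) (.pp [(1, 192852000000)])))))) (.add (.mul (.g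 12) (.mul (.pp [(1, 428400)]) (.sq [(1, -2), (2, 46), (3, 72), (5, -82), (7, -100), (11, 7), (13, -69)]))) (.mul (.g 18) (.mul (.pp [(1, 685800)]) (.sq [(1, 15), (2, 5), (3, -79), (5, 100), (7, -28), (11, 46), (13, -29)]))))))))) (.add (.add (.mul (.g 7) (.add (.add (.add (.mul (.g 7) (.add (.add (.add (.pp [(1, 366978000000)]) (.mul (.pp [(1, 6883200)]) (.sq [(1, 56), (2, 24), (3, 100), (5, -37), (7, -40), (11, 48), (13, -66)]))) (.add (.mul (.pp [(1, 13675200)]) (.sq [(1, 100), (2, 73), (3, 21), (5, -37), (7, 51), (11, 16)])) (.mul (.g 1) (.add (.mul (.g 1) (.pp [(1, 344034000000)])) (.mul (.g 3) (.pp [(1, 816924000000)])))))) (.add (.add (.mul (.g 2) (.add (.mul (.g 7) (.pp [(1, 325440000000)])) (.mul (.g 9) (.pp [(1, 1170522000000)])))) (.mul (.g 0) (.mul (.g 15) (.pp [(1, 58242000000)])))) (.add (.mul (.g 3) (.mul (.g 8) (.pp [(1, 17064000000)]))) (.add (.mul (.g 6) (.mul (.g 10) (.pp [(1, 248226000000)]))) (.mul (.g 9) (.mul (.g 17) (.pp [(1, 2523600000)]))))))))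 (.mul (.g 2) (.add (.add (.mul (.pp [(1, 5266800)]) (.sq [(1, 29), (2, 4), (3, -19), (5, 100), (7, -13), (11, -6), (13, -20)])) (.mul (.g 10) (.add (.mul (.g 17) (.pp [(1, 1093500000)])) (.mul (.g 18) (.pp [(1, 102918000000)]))))) (.add (.mul (.g 0) (.mul (.g 0) (.pp [(1, 584292000000)]))) (.add (.mul (.g 2) (.mul (.g 18) (.pp [(1, 569118000000)]))) (.mul (.g 12) (.mul (.g 17) (.pp [(1, 2636040000)])))))))) (.add (.mul (.g 3) (.add (.mul (.g 9) (.add (.mul (.g 3) (.pp [(1, 147294000000)])) (.add (.mul (.g 6) (.pp [(1, 516222000000)])) (.mul (.g 9) (.pp [(1, 699720000000)]))))) (.mul (.g 6) (.pp [(1, 1440336000000)])))) (.mul (.g 12) (.add (.mul (.pp [(1, 1465800)]) (.sq [(1, 100), (2, 15), (3, -73), (5, 58), (7, 93), (11, -39), (13, -22)])) (.add (.mul (.g 1) (.mul (.g 6) (.pp [(1, 50580000000)]))) (.mul (.g 8) (.mul (.g 10) (.pp [(1, 20508000000)])))))))) (.add (.add (.mul (.g 17) (.add (.mul (.g 0) (.mul (.g 17) (.pp [(1, 56639400)]))) (.mul (.g 13) (.pp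 [(1, 177861000)])))) (.mul (.g 1) (.mul (.pp [(1, 961800)]) (.sq [(1, 23), (2, -26), (3, -67), (5, 100), (7, 19), (11, 31), (13, -13)])))) (.add (.mul (.g 6) (.mul (.pp [(1, 807000)]) (.sq [(1, 36), (2, -75), (3, -62), (5, 31), (11, -31), (13, 100)]))) (.mul (.g 10) (.mul (.pp [(1, 8752800)]) (.sq [(1, -39), (2, 57), (3, -34), (5, 100), (7, -45), (11, -28), (13, 4)]))))))) (.mul (.g 17) (.add (.add (.mul (.g 9) (.add (.add (.mul (.g 10) (.add (.add (.mul (.g 6) (.pp [(1, 182700000)])) (.mul (.g 10) (.pp [(1, 1291320000)]))) (.add (.mul (.g 15) (.pp [(1, 891540000)])) (.mul (.g 17) (.pp [(1, 1521600)]))))) (.add (.mul (.g 0) (.add (.mul (.g 1) (.pp [(1, 2665440000)])) (.mul (.g 2) (.pp [(1, 3344820000)])))) (.mul (.g 18) (.add (.pp [(1, 13779780000)]) (.mul (.g 2) (.pp [(1, 94560000)])))))) (.add (.add (.mul (.g 9) (.mul (.g 15) (.pp [(1, 2294940000)]))) (.mul (.g 13) (.pp [(1, 777624000)]))) (.add (.mul (.g 14) (.pp [(1, 4496460000)])) (.mul (.g 17) (.mul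 (.g 17) (.pp [(1, 840)]))))))) (.add (.mul (.g 0) (.add (.mul (.g 0) (.add (.mul (.g 0) (.pp [(1, 8063640000)])) (.add (.mul (.g 8) (.pp [(1, 13669860000)])) (.mul (.g 13) (.pp [(1, 321684000)]))))) (.add (.mul (.g 13) (.add (.mul (.g 2) (.pp [(1, 1524000)])) (.mul (.g 18) (.pp [(1, 147126000)])))) (.mul (.g 3) (.mul (.g 6) (.pp [(1, 1451640000)])))))) (.mul (.g 1) (.add (.mul (.g 1) (.mul (.g 14) (.pp [(1, 207600000)]))) (.mul (.g 2) (.mul (.g 17) (.pp [(1, 3256200)]))))))) (.add (.mul (.g 6) (.add (.mul (.g 2) (.mul (.g 8) (.pp [(1, 125340000)]))) (.mul (.g 17) (.mul (.g 18) (.pp [(1, 572400)]))))) (.add (.mul (.g 8) (.mul (.g 13) (.pp [(1, 548658000)]))) (.mul (.g 10) (.mul (.g 10) (.mul (.g 12) (.pp [(1, 477360000)]))))))))) (.add (.mul (.g 12) (.add (.add (.add (.mul (.pp [(1, 54600)]) (.sq [(2, 72), (3, -100), (5, 87), (7, -93), (11, 61), (13, 25)])) (.mul (.g 8) (.add (.mul (.g 8) (.add (.mul (.g 0) (.pp [(1, 220422000000)])) (.mul (.g 9) (.pp [(1,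 159774000000)])))) (.add (.mul (.g 3) (.mul (.g 9) (.pp [(1, 96828000000)]))) (.mul (.g 13) (.pp [(1, 1676400000)])))))) (.add (.mul (.g 10) (.add (.mul (.g 6) (.mul (.g 14) (.pp [(1, 2544000000)]))) (.add (.mul (.g 12) (.mul (.g 18) (.pp [(1, 45042000000)]))) (.mul (.g 15) (.mul (.g 15) (.pp [(1, 14208000000)])))))) (.add (.mul (.g 13) (.add (.pp [(1, 7344600000)]) (.add (.mul (.pp [(1, 27150)]) (.sq [(1, 75), (2, -64), (3, 66), (5, -100), (7, 28), (11, 48), (13, 36)])) (.mul (.g 0) (.mul (.g 18) (.pp [(1, 23848500000)])))))) (.mul (.g 1) (.add (.mul (.pp [(1, 949200)]) (.sq [(1, 35), (2, 28), (3, 26), (5, -27), (7, 61), (11, 100), (13, -96)])) (.mul (.pp [(1, 266400)]) (.sq [(1, -94), (2, 100), (3, 76), (5, 17), (7, 86), (11, 5), (13, -64)]))))))) (.add (.add (.mul (.g 2) (.add (.mul (.pp [(1, 265200)]) (.sq [(1, -47), (2, 94), (3, -47), (5, 100), (7, -4), (11, 9), (13, -11)])) (.mul (.pp [(1, 8966400)]) (.sq [(1, 22), (2, -17), (3, -37), (5, 50), (7,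 -27), (11, -30), (13, 8)])))) (.mul (.g 9) (.add (.mul (.pp [(1, 1290600)]) (.sq [(1, 44), (2, 21), (3, -100), (5, 70), (7, 87), (11, 77), (13, 26)])) (.mul (.g 14) (.pp [(1, 682668000000)]))))) (.add (.mul (.g 3) (.mul (.pp [(1, 6087000)]) (.sq [(1, -55), (2, 64), (3, -24), (5, 22), (7, -21), (11, -25), (13, 100)]))) (.add (.mul (.g 6) (.mul (.pp [(1, 187800)]) (.sq [(1, 13), (2, -22), (3, -67), (5, 15), (7, 58), (11, 66), (13, 100)]))) (.mul (.g 12) (.mul (.pp [(1, 934200)]) (.sq [(1, 15), (2, -27), (3, 6), (5, 49), (7, 48), (11, 100), (13, -52)])))))))) (.mul (.g 18) (.add (.mul (.g 18) (.add (.mul (.g 3) (.add (.add (.mul (.g 0) (.pp [(1, 73380000000)])) (.mul (.g 8) (.pp [(1, 238374000000)]))) (.add (.mul (.g 9) (.pp [(1, 778668000000)])) (.mul (.g 10) (.pp [(1, 742794000000)]))))) (.add (.mul (.g 8) (.add (.pp [(1, 212274000000)]) (.mul (.g 1) (.pp [(1, 12036000000)])))) (.mul (.g 10) (.mul (.g 13) (.pp [(1, 13298400000)])))))) (.add (.mul (.g 0) (.mul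 (.g 0) (.add (.mul (.g 13) (.pp [(1, 2088600000)])) (.mul (.g 14) (.pp [(1, 349404000000)]))))) (.mul (.g 15) (.mul (.pp [(1, 300600)]) (.sq [(1, 17), (2, 82), (3, -34), (5, 100), (7, 44), (11, 42), (13, -82)]))))))))) (.add (.add (.add (.mul (.g 1) (.add (.add (.mul (.pp [(1, 2809200)]) (.sq [(1, -64), (2, 23), (3, 100), (5, -51), (7, 40), (11, 28), (13, -17)])) (.add (.mul (.pp [(1, 529200)]) (.sq [(1, 66), (2, -100), (3, -51), (5, 38), (7, -4), (11, 84), (13, -18)])) (.mul (.g 2) (.add (.mul (.pp [(1, 36585600)]) (.sq [(1, -15), (2, 25), (3, 73), (5, -100), (7, -16), (11, -34), (13, 21)])) (.mul (.pp [(1, 1018200)]) (.sq [(1, 41), (2, -94), (3, 65), (5, -100), (7, 19), (11, -10), (13, -21)])))))) (.add (.add (.mul (.g 1) (.mul (.pp [(1, 420000)]) (.sq [(1, 17), (2, -25), (3, 100), (5, -82), (7, 85), (11, 97), (13, -76)]))) (.mul (.g 3) (.mul (.pp [(1, 729600)]) (.sq [(1, 60), (2, -100), (3, -32), (5, 28), (7, 5), (11, 96), (13, -26)])))) (.add (.mul (.g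 10) (.mul (.pp [(1, 393000)]) (.sq [(1, -3), (2, -26), (3, 100), (5, -97), (7, 85), (11, -18), (13, -66)]))) (.mul (.g 14) (.mul (.pp [(1, 84600)]) (.sq [(1, 23), (2, 100), (3, 86), (5, 27), (7, -68), (11, 22), (13, -49)]))))))) (.mul (.g 19) (.add (.add (.mul (.g 0) (.pp [(1, 67652800000)])) (.add (.mul (.g 2) (.pp [(1, 46503600000)])) (.mul (.g 5) (.pp [(1, 112300000)])))) (.add (.mul (.g 8) (.pp [(1, 186666000000)])) (.add (.mul (.g 9) (.pp [(1, 162596000000)])) (.mul (.g 13) (.pp [(1, 10898520000)]))))))) (.add (.mul (.g 3) (.add (.mul (.g 10) (.add (.mul (.pp [(1, 16405800)]) (.sq [(1, -63), (2, 100), (3, 16), (5, -12), (7, -13), (11, -27), (13, 22)])) (.mul (.pp [(1, 3276000)]) (.sq [(1, 57), (2, -82), (3, -100), (7, -42), (11, 38), (13, 48)])))) (.add (.mul (.g 0) (.mul (.pp [(1, 8148000)]) (.sq [(1, 33), (2, -83), (3, 89), (5, -100), (7, 20), (11, 22), (13, -50)]))) (.mul (.g 3) (.mul (.g 3) (.mul (.g 9) (.pp [(1, 161682000000)]))))))) (.mul (.g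 2) (.add (.mul (.pp [(1, 14694000)]) (.sq [(1, 30), (2, -73), (3, 68), (5, -100), (7, 25), (11, -5), (13, -28)])) (.add (.mul (.g 2) (.mul (.pp [(1, 3892200)]) (.sq [(1, 18), (2, 17), (3, -46), (5, 100), (7, -9), (11, -13), (13, -9)]))) (.mul (.g 6) (.mul (.pp [(1, 8433000)]) (.sq [(1, 55), (2, -100), (3, 68), (5, -89), (7, 23), (11, 12), (13, -37)])))))))) (.add (.add (.mul (.g 6) (.add (.mul (.g 6) (.mul (.pp [(1, 13104600)]) (.sq [(1, -50), (2, 21), (3, 100), (5, -63), (7, -18), (11, -16)]))) (.mul (.g 14) (.mul (.pp [(1, 886200)]) (.sq [(1, -3), (2, 29), (3, -98), (5, 100), (7, 29), (11, 46), (13, 3)]))))) (.mul (.g 10) (.add (.mul (.pp [(1, 41463000)]) (.sq [(1, 63), (2, -100), (3, -3), (5, -9), (7, 9), (11, 86), (13, -32)])) (.mul (.g 10) (.mul (.pp [(1, 18690600)]) (.sq [(1, -14), (2, 100), (3, -7), (5, 1), (7, 27), (11, -27), (13, -24)])))))) (.add (.mul (.g 13) (.add (.mul (.g 13) (.mul (.pp [(1, 999)]) (.sq [(1, 100), (2, -18), (3, -18), (5, -18),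 (7, -65), (11, 29), (13, -18)]))) (.mul (.g 15) (.mul (.pp [(1, 15900)]) (.sq [(1, 20), (2, 88), (3, 7), (5, 100), (7, -34), (11, 75), (13, -67)]))))) (.add (.mul (.g 14) (.mul (.pp [(1, 585000)]) (.sq [(1, 15), (2, 100), (3, 56), (5, 13), (7, -60), (11, -7), (13, -25)]))) (.mul (.g 16) (.mul (.pp [(1, 15782400)]) (.sq [(1, 83), (2, -71), (3, 67), (5, -100), (7, 31), (11, 71), (13, -70)])))))))) (.pp [(1, 10926366080), (2, 75476830), (3, 62020450), (4, 89424534), (5, 50682670), (6, 16006188), (7, 66124410), (8, 71095710), (9, 56948214), (10, 46809828), (11, 61569730), (12, 35305230), (13, 55673550), (14, 26519340), (15, 52490748), (16, 61014800), (18, 83261490), (20, 13587090), (21, 46511580), (22, 74361756), (24, 49715600), (25, 64185174), (26, 72319848), (27, 67469970), (28, 65067180), (30, 97835580), (33, 52551876), (35, 52942020), (36, 71689200), (39, 49194168), (40, 57364400), (42, 92451120), (44, 29316840), (45, 65046450), (49, 71544825), (50, 86977350),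 (52, 26346420), (54, 58980000), (55, 57301776), (56, 61564200), (60, 79479000), (63, 78995280), (65, 52450608), (66, 45237120), (70, 100937880), (75, 71421330), (77, 56887890), (78, 62706240), (81, 56436600), (84, 79630200), (88, 57958400), (90, 37651800), (91, 39818220), (98, 65416560), (99, 62587080), (100, 71133600), (104, 54390600), (105, 79966560), (110, 36568020), (117, 60973080), (121, 56025771), (125, 47872650), (126, 44821800), (130, 27547080), (132, 70473000), (135, 60882000), (140, 68442600), (143, 50924016), (147, 72372960), (150, 39578400), (154, 40322220), (156, 56583600), (165, 91148460), (169, 70834704), (175, 74743200), (182, 65017560), (189, 51436200), (195, 93478320), (196, 72635400), (198, 66366000), (210, 35210400), (220, 66414600), (225, 63273000), (231, 82923900), (234, 67104000), (242, 53194590), (245, 70161840), (250, 56631000), (260, 67923000), (273, 78963600), (275, 63039180), (286, 54983940), (294, 61872600), (297, 60483000),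 (308, 53941200), (315, 42216600), (325, 73396140), (330, 83179200), (338, 43091280), (343, 59572680), (350, 53351400), (351, 52918200), (363, 72350490), (364, 44217600), (375, 63732000), (385, 73268700), (390, 81826800), (429, 61204980), (441, 53623200), (455, 75400800), (462, 75124800), (484, 48298200), (490, 71270400), (495, 47939400), (507, 63485160), (525, 43302000), (539, 66451800), (546, 70800000), (550, 70408800), (572, 47295000), (585, 50241000), (605, 51850890), (625, 58581000), (637, 42686400), (650, 70249200), (676, 66843600), (686, 54261600), (693, 44189400), (715, 53104380), (726, 71662200), (735, 36526800), (770, 56131200), (819, 44296800), (825, 50057400), (845, 60050760), (847, 55299360), (858, 66153600), (875, 52048800), (910, 54010800), (975, 32109000), (1001, 53199360), (1014, 62012400), (1029, 69154800), (1078, 70298400), (1089, 62685000), (1155, 47088000), (1183, 77319840), (1210, 76420200), (1225, 53662200), (1274, 52465200), (1287,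 69028800), (1331, 52507040), (1365, 49810800), (1375, 60492600), (1430, 87813600), (1521, 70224600), (1573, 52176780), (1617, 54561600), (1625, 60835800), (1690, 75210600), (1694, 61603200), (1715, 54656400), (1815, 50871000), (1859, 60214200), (1911, 54213600), (1925, 47132400), (2002, 69751200), (2145, 56238000), (2197, 47619060), (2275, 35462400), (2366, 65625000), (2401, 58685400), (2535, 58869600), (2541, 59378400), (2662, 57281400), (2695, 53115600), (3003, 43627200), (3025, 57470400), (3146, 55349400), (3185, 72831600), (3549, 59508600), (3575, 69394800), (3718, 58362000), (3773, 61813800), (3993, 55289400), (4225, 67545600), (4235, 60991800), (4394, 56350800), (4459, 60103200), (4719, 64418400), (5005, 58042800), (5577, 62784600), (5915, 63675000), (5929, 54577200), (6591, 59413200), (6655, 63690000), (7007, 58931400), (7865, 77811000), (8281, 61899000), (9295, 55889400), (9317, 55327800), (10985, 57573600), (11011, 66433200), (13013, 70882200),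 (14641, 64975800), (15379, 56700000), (17303, 68525400), (20449, 57307800), (24167, 58892400), (28561, 62893200)])))
    (by decide +kernel) (yv_nonneg cw cA cB dw dA dB (le_refl 0) (le_refl 0) (le_refl 0))
    (by
      simp only [List.forall_mem_cons, exadd, exsub, exmul, exc, exv2, exv3, exv5, exv7, exv11, exv13]
      push_cast
      refine ⟨?_, ?_, ?_, ?_, ?_, ?_, ?_, ?_, ?_, ?_, ?_, ?_, ?_, ?_, ?_, ?_, ?_, ?_, ?_, ?_, fun _ hh => absurd hh List.not_mem_nil⟩
      · linarith [cw]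
      · linarith [cA]
      · linarith [cB]
      · linarith [cw1]
      · linarith [cT]
      · linarith [cT2]
      · linarith [ck1]
      · linarith [ck2]
      · linarith [dw]
      · linarith [dA]
      · linarith [dB]
      · linarith [dw1]
      · linarith [dT]
      · linarith [dT2]
      · linarith [dk1]
      · linarith [dk2]
      · linarith [m1]
      · linarith [m2]
      · linarith [m3]
      · linarith [m5]
    )
  simp only [exadd, exsub, exmul, exc, exv2, exv3, exv5, exv7, exv11, exv13] at h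
  push_cast at h
  linarith [h]

theorem cc_i0100 {w A B x E F : ℝ} (cw : 0 ≤ w) (cA : 0 ≤ A) (cB : 0 ≤ B) (cw1 : 0 ≤ 1 - w) (cT : 0 ≤ 1 + w - A - B) (cT2 : 0 ≤ -9 / 20 - w + A + B) (ck1 : 0 ≤ -w + A) (ck2 : 0 ≤ w - B) (dw : 0 ≤ x) (dA : 0 ≤ E) (dB : 0 ≤ F) (dw1 : 0 ≤ 1 - x) (dT : 0 ≤ 1 + x - E - F) (dT2 : 0 ≤ -9 / 20 - x + E + F) (dk1 : 0 ≤ -x + E) (dk2 : 0 ≤ -x + F) (m1 : 0 ≤ E) (m2 : 0 ≤ 29 / 100 - E) (m3 : 0 ≤ w - E) (m5 : 0 ≤ 4 / 15 - E - w ^ 2 + w * E + 1 / 3 * w ^ 3) :
    0 ≤ -41 / 750 - 29 / 100 * w + 29 / 100 * B - 2 / 25 * x + 21 / 40 * E + 41 / 200 * F + w ^ 2 - w * E - 1 / 3 * w ^ 3 + w ^ 2 * B - w * A * B - w * B ^ 2 + 1 / 3 * B ^ 3 + 1 / 3 * x ^ 3 - x * E * F := by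
  have h := cert (y := yv w A B x E F 0 0 0)
    (gs := [(.v 2),
      (.v 3),
      (.v 5),
      (.add (.c (1)) (.mul (.c (-1)) (.v 2))),
      (.add (.add (.c (1)) (.v 2)) (.add (.mul (.c (-1)) (.v 3)) (.mul (.c (-1)) (.v 5)))),
      (.add (.add (.c (-9)) (.mul (.c (-20)) (.v 2))) (.add (.mul (.c (20)) (.v 3)) (.mul (.c (20)) (.v 5)))),
      (.add (.mul (.c (-1)) (.v 2)) (.v 3)),
      (.add (.v 2) (.mul (.c (-1)) (.v 5))),
      (.v 7),
      (.v 11),
      (.v 13),
      (.add (.c (1)) (.mul (.c (-1)) (.v 7))),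
      (.add (.add (.c (1)) (.v 7)) (.add (.mul (.c (-1)) (.v 11)) (.mul (.c (-1)) (.v 13)))),
      (.add (.add (.c (-9)) (.mul (.c (-20)) (.v 7))) (.add (.mul (.c (20)) (.v 11)) (.mul (.c (20)) (.v 13)))),
      (.add (.mul (.c (-1)) (.v 7)) (.v 11)),
      (.add (.mul (.c (-1)) (.v 7)) (.v 13)),
      (.v 11),
      (.add (.c (29)) (.mul (.c (-100)) (.v 11))),
      (.add (.v 2) (.mul (.c (-1)) (.v 11))),
      (.add (.add (.c (4)) (.mul (.c (-15)) (.mul (.v 2) (.v 2)))) (.add (.mul (.c (5)) (.mul (.mul (.v 2) (.v 2)) (.v 2))) (.add (.mul (.c (-15)) (.v 11)) (.mul (.c (15)) (.mul (.v 2) (.v 11))))))])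
    (p := .mul (.c 10000000000) (.add (.add (.add (.c (-164)) (.add (.mul (.c (-870)) (.v 2)) (.mul (.c (3000)) (.mul (.v 2) (.v 2))))) (.add (.add (.mul (.c (870)) (.v 5)) (.mul (.c (-240)) (.v 7))) (.add (.mul (.c (-1000)) (.mul (.mul (.v 2) (.v 2)) (.v 2))) (.mul (.c (1575)) (.v 11))))) (.add (.add (.add (.mul (.c (615)) (.v 13)) (.mul (.c (3000)) (.mul (.mul (.v 2) (.v 2)) (.v 5)))) (.add (.mul (.c (-3000)) (.mul (.v 2) (.v 11))) (.mul (.c (-3000)) (.mul (.mul (.v 2) (.v 3)) (.v 5))))) (.add (.add (.mul (.c (-3000)) (.mul (.mul (.v 2) (.v 5)) (.v 5))) (.mul (.c (1000)) (.mul (.mul (.v 5) (.v 5)) (.v 5)))) (.add (.mul (.c (1000)) (.mul (.mul (.v 7) (.v 7)) (.v 7))) (.mul (.c (-3000)) (.mul (.mul (.v 7) (.v 11)) (.v 13))))))))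
    (e := (.add (.add (.add (.add (.add (.mul (.pp [(1, 268983000)]) (.sq [(1, -48), (2, 100), (3, 23), (5, -48), (7, -19), (11, -91), (13, 28)])) (.mul (.g 2) (.add (.add (.add (.mul (.pp [(1, 357468000)]) (.sq [(1, 10), (2, 25), (3, -69), (5, 100), (7, -25), (11, 19), (13, 20)])) (.mul (.g 2) (.add (.add (.mul (.pp [(1, 59379000)]) (.sq [(1, 22), (2, 43), (3, -60), (5, 100), (7, 50), (11, 47), (13, -58)])) (.add (.mul (.g 4) (.add (.add (.mul (.g 2) (.pp [(1, 942510000000)])) (.mul (.g 3) (.pp [(1, 3238260000000)]))) (.add (.mul (.g 4) (.pp [(1, 187140000000)])) (.mul (.g 10) (.pp [(1, 397890000000)]))))) (.mul (.g 17) (.add (.mul (.g 0) (.pp [(1, 5253300000)])) (.add (.mul (.g 2) (.pp [(1, 18454800000)])) (.mul (.g 6) (.pp [(1, 2587200000)]))))))) (.add (.mul (.g 8) (.add (.mul (.g 2) (.pp [(1, 280800000000)])) (.mul (.g 11) (.pp [(1, 281280000000)])))) (.add (.mul (.g 10) (.mul (.g 13) (.pp [(1, 15258000000)]))) (.mul (.g 14) (.mul (.g 18) (.pp [(1,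 447780000000)])))))))) (.add (.mul (.g 7) (.add (.add (.mul (.pp [(1, 7515000)]) (.sq [(1, -5), (2, 6), (3, 100), (5, -94), (7, -1), (11, -2), (13, -11)])) (.add (.mul (.g 3) (.add (.mul (.g 0) (.pp [(1, 802050000000)])) (.add (.mul (.g 7) (.pp [(1, 2458920000000)])) (.mul (.g 18) (.pp [(1, 1342140000000)]))))) (.mul (.g 1) (.add (.mul (.g 4) (.pp [(1, 23520000000)])) (.mul (.g 7) (.pp [(1, 963030000000)])))))) (.add (.add (.mul (.g 0) (.mul (.g 14) (.pp [(1, 1367850000000)]))) (.mul (.g 4) (.pp [(1, 5285700000000)]))) (.add (.mul (.g 10) (.mul (.g 15) (.pp [(1, 350220000000)]))) (.mul (.g 11) (.mul (.g 17) (.pp [(1, 3078600000)]))))))) (.add (.mul (.g 13) (.add (.add (.mul (.pp [(1, 301350)]) (.sq [(1, 52), (2, 51), (3, -9), (5, 100), (7, 42), (11, 44), (13, 98)])) (.add (.mul (.pp [(1, 2212200)]) (.sq [(1, -82), (2, 54), (3, -58), (5, 100), (7, 5), (11, 3), (13, -26)])) (.mul (.pp [(1, 510450)]) (.sq [(1, 4), (2, 38), (3, -16), (5, 100), (7, 3), (11, 15),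 (13, -7)])))) (.add (.add (.mul (.g 3) (.add (.pp [(1, 80575500000)]) (.mul (.g 18) (.pp [(1, 35533500000)])))) (.mul (.g 6) (.pp [(1, 36072000000)]))) (.add (.mul (.g 10) (.mul (.g 11) (.pp [(1, 37087500000)]))) (.mul (.g 14) (.pp [(1, 17481000000)])))))) (.mul (.g 17) (.add (.mul (.g 9) (.add (.mul (.g 0) (.pp [(1, 6580200000)])) (.add (.mul (.g 3) (.pp [(1, 8988000000)])) (.mul (.g 11) (.pp [(1, 28997100000)]))))) (.add (.mul (.g 0) (.mul (.g 0) (.pp [(1, 49608300000)]))) (.mul (.g 11) (.mul (.g 14) (.pp [(1, 10527300000)]))))))))) (.add (.add (.mul (.g 4) (.add (.mul (.g 0) (.add (.pp [(1, 13479060000000)]) (.mul (.g 0) (.pp [(1, 2496090000000)])))) (.add (.mul (.g 3) (.mul (.g 14) (.pp [(1, 288360000000)]))) (.mul (.g 10) (.mul (.g 10) (.pp [(1, 332160000000)])))))) (.add (.mul (.g 1) (.add (.mul (.pp [(1, 18807000)]) (.sq [(1, -14), (2, -11), (3, 77), (5, -100), (7, 6), (11, 1), (13, -8)])) (.mul (.g 8) (.mul (.g 8) (.pp [(1, 202710000000)]))))) (.mul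 (.g 3) (.add (.mul (.pp [(1, 64662000)]) (.sq [(1, -54), (2, 63), (3, -26), (5, 93), (7, 100), (11, -52), (13, -4)])) (.mul (.pp [(1, 310830000)]) (.sq [(1, -61), (2, 100), (3, 7), (5, 46), (7, -28), (11, -24), (13, -37)])))))) (.add (.mul (.g 14) (.add (.mul (.pp [(1, 21270000)]) (.sq [(1, -53), (2, 68), (3, -20), (5, 100), (7, -18), (11, -6), (13, -44)])) (.mul (.g 9) (.mul (.g 18) (.pp [(1, 219930000000)]))))) (.add (.mul (.g 8) (.mul (.g 10) (.mul (.g 10) (.pp [(1, 661710000000)])))) (.mul (.g 19) (.pp [(1, 999538000000)])))))))) (.add (.mul (.g 8) (.add (.add (.add (.mul (.g 17) (.add (.add (.mul (.g 10) (.add (.add (.pp [(1, 226739100000)]) (.mul (.g 3) (.pp [(1, 1540800000)]))) (.add (.mul (.g 6) (.pp [(1, 18724800000)])) (.add (.mul (.g 10) (.pp [(1, 9341100000)])) (.mul (.g 11) (.pp [(1, 11625300000)])))))) (.add (.mul (.g 9) (.add (.mul (.g 0) (.pp [(1, 23569500000)])) (.add (.mul (.g 1) (.pp [(1, 6835200000)])) (.mul (.g 14) (.pp [(1, 29429400000)])))))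 (.mul (.g 18) (.add (.pp [(1, 33027600000)]) (.mul (.g 13) (.pp [(1, 280035000)])))))) (.add (.mul (.g 1) (.mul (.g 15) (.pp [(1, 7074000000)]))) (.add (.mul (.g 7) (.mul (.g 14) (.pp [(1, 50956200000)]))) (.mul (.g 8) (.mul (.g 8) (.pp [(1, 12203400000)]))))))) (.mul (.g 3) (.add (.add (.mul (.pp [(1, 11799000)]) (.sq [(1, -41), (2, 43), (3, -32), (5, 100), (7, 3), (11, 6), (13, -36)])) (.mul (.g 3) (.add (.mul (.g 4) (.pp [(1, 974640000000)])) (.mul (.g 6) (.pp [(1, 438960000000)]))))) (.add (.mul (.g 8) (.add (.mul (.g 8) (.pp [(1, 113940000000)])) (.mul (.g 12) (.pp [(1, 54900000000)])))) (.add (.mul (.g 0) (.mul (.g 4) (.pp [(1, 2621250000000)]))) (.mul (.g 11) (.mul (.g 13) (.pp [(1, 9484500000)])))))))) (.add (.mul (.g 8) (.mul (.g 8) (.add (.add (.pp [(1, 5430120000000)]) (.mul (.g 1) (.pp [(1, 606780000000)]))) (.add (.mul (.g 4) (.pp [(1, 438240000000)])) (.add (.mul (.g 11) (.pp [(1, 22830000000)])) (.mul (.g 12) (.pp [(1, 3870000000)])))))))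 (.add (.mul (.g 10) (.add (.mul (.g 15) (.add (.mul (.g 4) (.pp [(1, 127950000000)])) (.add (.mul (.g 7) (.pp [(1, 671400000000)])) (.mul (.g 15) (.pp [(1, 82470000000)]))))) (.mul (.g 5) (.add (.mul (.g 1) (.pp [(1, 1974000000)])) (.mul (.g 10) (.pp [(1, 14137500000)])))))) (.mul (.g 9) (.add (.mul (.g 9) (.add (.pp [(1, 274290000000)]) (.mul (.g 11) (.pp [(1, 607290000000)])))) (.mul (.g 6) (.mul (.g 6) (.pp [(1, 291930000000)])))))))) (.add (.add (.mul (.g 13) (.add (.mul (.pp [(1, 2159400)]) (.sq [(1, -37), (2, -53), (3, -56), (5, 36), (7, -2), (11, 100), (13, 32)])) (.add (.mul (.pp [(1, 6606150)]) (.sq [(1, -67), (2, 24), (3, 23), (5, -67), (7, -28), (11, 100), (13, 6)])) (.mul (.g 11) (.mul (.g 11) (.pp [(1, 19725000000)])))))) (.mul (.g 14) (.add (.pp [(1, 6150120000000)]) (.mul (.g 11) (.pp [(1, 3287520000000)]))))) (.add (.mul (.g 1) (.mul (.g 6) (.mul (.g 6) (.pp [(1, 141240000000)])))) (.add (.mul (.g 4) (.pp [(1, 495540000000)])) (.mul (.g 12)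 (.mul (.pp [(1, 60666000)]) (.sq [(1, -1), (2, -25), (3, -43), (5, 93), (7, 80), (11, 100), (13, -16)])))))))) (.mul (.g 13) (.add (.add (.add (.mul (.g 17) (.add (.add (.pp [(1, 339315000)]) (.mul (.pp [(1, 6972)]) (.sq [(1, 12), (3, 74), (5, -11), (7, 37), (11, 100), (13, -51)]))) (.add (.mul (.g 0) (.pp [(1, 3247425000)])) (.add (.mul (.g 6) (.mul (.g 6) (.pp [(1, 16845000)]))) (.mul (.g 9) (.mul (.g 9) (.pp [(1, 750285000)]))))))) (.add (.mul (.g 3) (.add (.add (.pp [(1, 158221500000)]) (.mul (.pp [(1, 88950)]) (.sq [(1, -13), (2, 16), (3, -100), (5, -73), (7, -59), (11, 86), (13, 40)]))) (.add (.mul (.pp [(1, 388950)]) (.sq [(1, 12), (2, -12), (3, 31), (5, -30), (7, -82), (11, 100), (13, 14)])) (.mul (.g 3) (.mul (.g 3) (.pp [(1, 96987000000)])))))) (.mul (.g 12) (.add (.add (.pp [(1, 110719500000)]) (.mul (.pp [(1, 210450)]) (.sq [(1, -25), (2, -91), (3, 100), (5, 7), (7, -32), (11, 5), (13, 71)]))) (.add (.mul (.pp [(1, 298200)]) (.sq [(1, 100), (2,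 -38), (3, -38), (5, 75), (7, 11), (11, 49), (13, 25)])) (.mul (.g 10) (.mul (.g 10) (.pp [(1, 7756500000)])))))))) (.add (.add (.mul (.g 0) (.add (.mul (.g 18) (.add (.mul (.g 6) (.pp [(1, 2568000000)])) (.mul (.g 18) (.pp [(1, 21045000000)])))) (.mul (.g 1) (.mul (.g 9) (.pp [(1, 14431500000)]))))) (.mul (.g 14) (.add (.pp [(1, 578842500000)]) (.add (.mul (.pp [(1, 265200)]) (.sq [(1, 98), (2, -33), (3, -72), (5, -67), (7, -31), (11, 74), (13, 100)])) (.mul (.pp [(1, 145050)]) (.sq [(1, 3), (2, -27), (3, 86), (5, -53), (7, 76), (11, -58), (13, 100)])))))) (.add (.mul (.g 4) (.add (.pp [(1, 29949000000)]) (.mul (.pp [(1, 411000)]) (.sq [(1, -28), (2, -62), (3, -100), (5, 4), (7, -79), (11, 79), (13, 7)])))) (.mul (.g 1) (.mul (.g 10) (.mul (.g 10) (.pp [(1, 7531500000)]))))))) (.add (.add (.mul (.g 6) (.mul (.pp [(1, 1185450)]) (.sq [(1, -16), (2, 34), (3, -73), (5, 100), (7, 30), (11, -13), (13, 21)]))) (.add (.mul (.g 7) (.mul (.pp [(1, 974550)]) (.sq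 [(1, 34), (2, 2), (3, 32), (5, -2), (7, -43), (11, -22), (13, 100)]))) (.mul (.g 9) (.mul (.g 9) (.mul (.g 18) (.pp [(1, 1867500000)])))))) (.add (.add (.mul (.g 11) (.mul (.pp [(1, 1794900)]) (.sq [(1, 100), (2, -57), (3, -37), (5, 64), (7, -12), (11, 28), (13, -49)]))) (.mul (.g 13) (.mul (.pp [(1, 17415)]) (.sq [(1, 69), (2, 49), (3, 97), (5, -40), (7, -86), (11, 100), (13, -46)])))) (.add (.mul (.g 15) (.mul (.pp [(1, 741900)]) (.sq [(1, 87), (2, -29), (3, -57), (5, -93), (7, -38), (11, 100), (13, 32)]))) (.mul (.g 16) (.mul (.pp [(1, 328050)]) (.sq [(1, 100), (2, -6), (3, -19), (5, 86), (7, 75), (11, -75), (13, -10)])))))))))) (.add (.add (.mul (.g 4) (.add (.add (.add (.mul (.g 0) (.add (.mul (.g 0) (.add (.mul (.g 0) (.pp [(1, 4145130000000)])) (.add (.mul (.g 3) (.pp [(1, 2402670000000)])) (.mul (.g 18) (.pp [(1, 2213580000000)]))))) (.add (.mul (.g 3) (.mul (.g 18) (.pp [(1, 3321300000000)]))) (.mul (.g 5) (.pp [(1, 22797000000)]))))) (.add (.mul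 (.g 1) (.add (.mul (.pp [(1, 19164000)]) (.sq [(1, 53), (2, -46), (3, -100), (5, -41), (7, -74), (11, -34), (13, 54)])) (.add (.mul (.pp [(1, 16443000)]) (.sq [(1, -96), (2, 2), (3, 66), (5, 15), (7, 59), (11, -88), (13, 100)])) (.mul (.g 9) (.mul (.g 14) (.pp [(1, 251040000000)])))))) (.mul (.g 4) (.add (.mul (.pp [(1, 11292000)]) (.sq [(1, 9), (2, -77), (3, -15), (5, -52), (7, 49), (11, 100), (13, -53)])) (.add (.mul (.pp [(1, 20682000)]) (.sq [(1, -7), (2, 64), (3, 5), (5, 71), (7, 1), (11, -6), (13, -100)])) (.mul (.pp [(1, 4830000)]) (.sq [(1, -19), (2, -78), (3, 5), (5, 66), (7, -8), (11, -52), (13, 100)]))))))) (.add (.add (.mul (.g 18) (.add (.pp [(1, 988830000000)]) (.add (.mul (.pp [(1, 39927000)]) (.sq [(1, 33), (2, -7), (3, 65), (5, 100), (7, -34), (11, -7), (13, -29)])) (.mul (.pp [(1, 6915000)]) (.sq [(1, -42), (2, -78), (3, 35), (5, 16), (7, -10), (11, 100), (13, -34)]))))) (.mul (.g 3) (.add (.mul (.pp [(1, 294417000)]) (.sq [(1, -18), (2,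 100), (3, 24), (5, 1), (7, -32), (11, 4), (13, -35)])) (.mul (.pp [(1, 2385000)]) (.sq [(1, -99), (2, 53), (3, 100), (5, 100), (7, 100), (11, 100), (13, 100)]))))) (.add (.mul (.g 6) (.add (.mul (.pp [(1, 14733000)]) (.sq [(1, -15), (2, 99), (3, 58), (5, -3), (7, -100), (11, -37), (13, -44)])) (.mul (.pp [(1, 13275000)]) (.sq [(1, -56), (2, -72), (3, 55), (5, -60), (7, -49), (11, -46), (13, 100)])))) (.mul (.g 5) (.mul (.pp [(1, 358500)]) (.sq [(1, 100), (2, -36), (3, -78), (5, -28), (7, -21), (11, 52), (13, -60)])))))) (.add (.add (.mul (.g 7) (.mul (.pp [(1, 38763000)]) (.sq [(1, -35), (2, 35), (3, 100), (5, -45), (7, 37), (11, -43), (13, -10)]))) (.add (.mul (.g 9) (.mul (.pp [(1, 8337000)]) (.sq [(1, -35), (2, -21), (3, -44), (5, 57), (7, 50), (11, 100), (13, -68)]))) (.mul (.g 10) (.mul (.g 14) (.mul (.g 14) (.pp [(1, 598050000000)])))))) (.add (.add (.mul (.g 11) (.mul (.pp [(1, 5469000)]) (.sq [(1, -87), (2, 100), (3, 100), (5, 100), (7, 77), (11,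 100), (13, 100)]))) (.mul (.g 12) (.mul (.pp [(1, 17634000)]) (.sq [(1, 71), (2, -67), (3, -81), (5, -63), (7, -93), (11, 20), (13, 100)])))) (.add (.mul (.g 15) (.mul (.pp [(1, 49644000)]) (.sq [(1, 33), (2, -14), (3, -30), (5, -47), (7, -32), (11, 50), (13, 36)]))) (.mul (.g 17) (.mul (.pp [(1, 700440)]) (.sq [(1, -50), (2, 29), (3, 29), (5, 29), (7, 29), (11, 29), (13, 29)])))))))) (.mul (.g 7) (.add (.add (.add (.mul (.g 9) (.add (.mul (.g 11) (.add (.mul (.g 17) (.pp [(1, 11917200000)])) (.mul (.g 18) (.pp [(1, 742890000000)])))) (.add (.mul (.g 15) (.add (.mul (.g 7) (.pp [(1, 175440000000)])) (.mul (.g 17) (.pp [(1, 3504000000)])))) (.mul (.g 14) (.mul (.g 14) (.pp [(1, 3821370000000)])))))) (.mul (.g 3) (.add (.add (.mul (.pp [(1, 13542000)]) (.sq [(1, 16), (2, -50), (3, -78), (5, 31), (7, -25), (11, -55), (13, 100)])) (.mul (.pp [(1, 45900000)]) (.sq [(1, 1), (2, 100), (3, 6), (5, 3), (7, -33), (11, -5), (13, -17)]))) (.add (.mul (.g 0) (.mul (.g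 18) (.pp [(1, 1071900000000)]))) (.mul (.g 3) (.mul (.g 7) (.pp [(1, 931470000000)]))))))) (.add (.mul (.g 14) (.add (.pp [(1, 149040000000)]) (.mul (.g 17) (.add (.mul (.g 11) (.pp [(1, 48522000000)])) (.mul (.g 14) (.pp [(1, 39765000000)])))))) (.mul (.g 0) (.add (.mul (.g 0) (.mul (.g 15) (.pp [(1, 586590000000)]))) (.mul (.g 6) (.mul (.g 18) (.pp [(1, 862230000000)]))))))) (.add (.add (.mul (.g 5) (.add (.mul (.pp [(1, 228900)]) (.sq [(1, 27), (2, -95), (3, -7), (5, -15), (7, 100), (11, 38), (13, 45)])) (.mul (.g 7) (.mul (.g 10) (.pp [(1, 36411000000)]))))) (.mul (.g 1) (.mul (.g 17) (.mul (.g 18) (.pp [(1, 5495700000)]))))) (.add (.mul (.g 6) (.mul (.g 7) (.pp [(1, 2887860000000)]))) (.mul (.g 12) (.mul (.pp [(1, 27333000)]) (.sq [(1, 99), (2, -12), (3, -100), (5, 13), (7, -6), (11, -47), (13, -27)])))))))) (.add (.mul (.g 3) (.add (.add (.add (.mul (.pp [(1, 636615000)]) (.sq [(1, 48), (2, -92), (3, -14), (5, 45), (7, 22), (11, 100), (13, -45)]))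 (.mul (.g 1) (.mul (.pp [(1, 33555000)]) (.sq [(1, -55), (2, 100), (3, 65), (5, -44), (7, 34), (11, 7), (13, -74)])))) (.add (.mul (.g 3) (.mul (.pp [(1, 240603000)]) (.sq [(1, -27), (2, 100), (3, -15), (5, 2), (7, 1), (11, 7), (13, 1)]))) (.mul (.g 5) (.mul (.pp [(1, 2142300)]) (.sq [(1, 100), (2, -97), (3, -57), (5, -14), (7, 75), (11, 65), (13, 50)]))))) (.add (.add (.mul (.g 6) (.mul (.pp [(1, 29313000)]) (.sq [(1, 53), (2, -99), (3, -37), (5, 77), (7, 90), (11, 100), (13, 19)]))) (.mul (.g 9) (.mul (.g 14) (.mul (.g 14) (.pp [(1, 298920000000)]))))) (.add (.mul (.g 11) (.mul (.pp [(1, 56730000)]) (.sq [(1, -15), (2, 100), (3, -16), (5, -11), (7, 12), (11, -5), (13, -5)]))) (.add (.mul (.g 15) (.mul (.pp [(1, 1833000)]) (.sq [(1, -29), (2, 100), (3, -2), (5, 55), (7, -12), (11, -10), (13, -36)]))) (.mul (.g 16) (.mul (.pp [(1, 16371000)]) (.sq [(1, 100), (2, -95), (3, -37), (5, 14), (7, 16), (11, 69), (13, -20)])))))))) (.mul (.g 5) (.add (.add (.mul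 (.pp [(1, 2332650)]) (.sq [(1, 100), (2, -69), (3, -64), (5, 2), (7, 4), (11, 39), (13, -3)])) (.add (.mul (.g 9) (.add (.mul (.g 1) (.mul (.g 17) (.pp [(1, 386775000)]))) (.mul (.g 9) (.mul (.g 15) (.pp [(1, 5664000000)]))))) (.mul (.g 12) (.add (.mul (.pp [(1, 2223000000)]) (.sq [(2, 1), (5, -1)])) (.mul (.pp [(1, 158850)]) (.sq [(1, -55), (2, 18), (3, 24), (5, 14), (7, 3), (11, -11), (13, 100)])))))) (.add (.mul (.g 6) (.mul (.pp [(1, 6688950)]) (.sq [(1, -100), (2, 83), (3, 44), (5, -11), (7, 11), (11, -77), (13, 24)]))) (.add (.mul (.g 11) (.mul (.pp [(1, 724500)]) (.sq [(1, 100), (2, -48), (3, -72), (5, 19), (7, -5), (11, 43), (13, -26)]))) (.mul (.g 14) (.mul (.pp [(1, 137400)]) (.sq [(1, 100), (2, 70), (3, -86), (5, -29), (7, 21), (11, 15), (13, 1)])))))))))) (.add (.add (.add (.mul (.g 11) (.add (.add (.mul (.g 18) (.add (.mul (.pp [(1, 1911000)]) (.sq [(1, -29), (2, 71), (3, -12), (5, 100), (7, 33), (11, -29), (13, -39)])) (.mul (.pp [(1, 13089000)])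 (.sq [(1, 61), (2, -15), (3, -31), (5, 100), (7, -67), (11, -90), (13, -23)])))) (.add (.mul (.g 1) (.mul (.pp [(1, 8862000)]) (.sq [(1, -48), (2, -70), (3, 100), (5, -59), (7, 31), (11, 39), (13, -47)]))) (.mul (.g 6) (.mul (.pp [(1, 2091000)]) (.sq [(1, -43), (2, -22), (3, 67), (5, -75), (7, 100), (11, 13), (13, 33)]))))) (.add (.mul (.g 10) (.mul (.pp [(1, 2301000)]) (.sq [(1, -24), (2, 96), (3, -45), (5, 20), (7, -48), (11, -90), (13, 100)]))) (.add (.mul (.g 11) (.mul (.pp [(1, 23826000)]) (.sq [(1, -4), (2, 100), (3, -17), (5, -13), (7, -16), (11, -24), (13, -18)]))) (.mul (.g 12) (.mul (.pp [(1, 26607000)]) (.sq [(1, -37), (2, 100), (3, 18), (5, -59), (7, -32), (11, -86), (13, 24)]))))))) (.mul (.g 14) (.add (.add (.mul (.g 0) (.add (.mul (.pp [(1, 39204000)]) (.sq [(1, -35), (2, 53), (3, -26), (5, 100), (7, -12), (11, 13), (13, -63)])) (.mul (.g 0) (.add (.mul (.g 10) (.pp [(1, 50280000000)])) (.mul (.g 18) (.pp [(1, 594090000000)])))))) (.mul (.g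 1) (.mul (.pp [(1, 1329000)]) (.sq [(1, 29), (2, 64), (3, -87), (5, 100), (7, -31), (11, -30), (13, -54)])))) (.add (.mul (.g 9) (.mul (.g 10) (.mul (.g 14) (.pp [(1, 826230000000)])))) (.mul (.g 19) (.pp [(1, 196616000000)])))))) (.add (.mul (.g 6) (.add (.add (.mul (.pp [(1, 65646000)]) (.sq [(1, 62), (2, -100), (3, -35), (5, 30), (7, 49), (11, 69), (13, 1)])) (.mul (.g 18) (.add (.mul (.pp [(1, 1524000)]) (.sq [(1, 20), (2, 45), (3, -94), (5, 43), (7, 35), (11, 12), (13, 100)])) (.mul (.pp [(1, 29334000)]) (.sq [(1, 17), (2, -100), (3, 62), (5, -52), (7, 95), (11, 47), (13, -82)]))))) (.add (.mul (.g 1) (.mul (.pp [(1, 45627000)]) (.sq [(1, -13), (2, 100), (3, -16), (5, -9), (7, -52), (11, -36), (13, -6)]))) (.mul (.g 6) (.mul (.pp [(1, 17505000)]) (.sq [(1, 29), (2, -68), (3, -40), (5, -27), (7, -27), (11, 5), (13, 100)])))))) (.mul (.g 17) (.add (.mul (.g 0) (.mul (.g 0) (.add (.mul (.g 0) (.pp [(1, 55956000000)])) (.mul (.g 18) (.pp [(1, 316500000)])))))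 (.add (.mul (.g 9) (.add (.mul (.g 9) (.mul (.g 17) (.pp [(1, 139047000)]))) (.mul (.g 10) (.mul (.g 10) (.pp [(1, 6777600000)]))))) (.mul (.g 12) (.mul (.pp [(1, 255870)]) (.sq [(1, -100), (2, 57), (3, 57), (5, 57), (7, 68), (11, 57), (13, 57)])))))))) (.add (.add (.mul (.g 1) (.add (.mul (.g 1) (.mul (.pp [(1, 9444000)]) (.sq [(1, 46), (2, 26), (3, -100), (5, 81), (7, -46), (11, -78), (13, 63)]))) (.mul (.g 16) (.mul (.pp [(1, 21957000)]) (.sq [(1, -45), (2, -9), (3, 100), (5, -68), (7, -5), (11, 2), (13, -8)]))))) (.mul (.g 12) (.mul (.g 12) (.add (.mul (.pp [(1, 6450000)]) (.sq [(1, 6), (2, -95), (3, 3), (5, 29), (7, 44), (11, 100), (13, 48)])) (.mul (.pp [(1, 9534000)]) (.sq [(1, -29), (2, -42), (3, -12), (5, 35), (7, 35), (11, -29), (13, 100)])))))) (.add (.mul (.g 9) (.mul (.g 19) (.pp [(1, 1055874000000)]))) (.mul (.g 15) (.mul (.g 15) (.mul (.pp [(1, 3963000)]) (.sq [(1, 22), (2, 68), (3, -70), (5, 14), (7, -88), (11, -69), (13, 100)])))))))) (.pp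 [(1, 5214303283), (2, 350123820), (3, 277165602), (4, 317780655), (5, 245393012), (6, 184408350), (7, 278427056), (8, 249521090), (9, 329298177), (10, 239887740), (11, 256381510), (12, 328691790), (13, 258093672), (14, 371529240), (15, 459226164), (16, 322272000), (18, 350942760), (20, 393291990), (21, 318014232), (22, 263875740), (24, 307530000), (25, 322861002), (26, 216204660), (27, 291685410), (28, 341078910), (30, 323011320), (33, 401955180), (35, 330115992), (36, 267075000), (39, 423346824), (40, 278170000), (42, 118114560), (44, 304822050), (45, 214591530), (49, 315964608), (50, 240258360), (52, 428917800), (54, 296988000), (55, 399430680), (56, 292453000), (60, 265938000), (63, 308810160), (65, 471819804), (66, 368947140), (70, 337431060), (75, 238101630), (77, 316732440), (78, 357451440), (81, 303519000), (84, 204654000), (88, 243359000), (90, 302979000), (91, 267101112), (98, 262441530), (99, 233219580), (100, 257472000), (104, 349614000), (105,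 270233220), (110, 307204440), (117, 220539030), (121, 360643920), (125, 300083860), (126, 425046000), (130, 277002840), (132, 413043000), (135, 293802000), (140, 358065000), (143, 403627680), (147, 276899610), (150, 360609000), (154, 284672700), (156, 241596000), (165, 183119760), (169, 339583062), (175, 302835360), (182, 239257800), (189, 289425000), (195, 81295860), (196, 305067000), (198, 283329000), (210, 197970000), (220, 415653000), (225, 360801000), (231, 236025780), (234, 285294000), (242, 354516180), (245, 306074160), (250, 300705000), (260, 197361000), (273, 387471900), (275, 321701430), (286, 306307860), (294, 292044000), (297, 304602000), (308, 244215000), (315, 377295000), (325, 257170680), (330, 262398000), (338, 393724530), (343, 275005270), (350, 299298000), (351, 313473000), (363, 250227000), (364, 292509000), (375, 300612000), (385, 226176180), (390, 403944000), (429, 233640780), (441, 290163000), (455, 284871300), (462, 428496000), (484,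 332475000), (490, 258225000), (495, 267453000), (507, 227334630), (525, 295491000), (539, 345964620), (546, 407130000), (550, 293523000), (572, 283518000), (585, 317367000), (605, 201305850), (625, 307785000), (637, 277204830), (650, 334953000), (676, 290511000), (686, 319509000), (693, 295824000), (715, 124373580), (726, 153549000), (735, 375606000), (770, 245418000), (819, 237126000), (825, 274893000), (845, 246137430), (847, 252307290), (858, 198804000), (875, 314007000), (910, 303546000), (975, 303198000), (1001, 286707420), (1014, 289767000), (1029, 294897000), (1078, 223725000), (1089, 340113000), (1155, 395262000), (1183, 307766040), (1210, 238749000), (1225, 353904000), (1274, 302067000), (1287, 338376000), (1331, 283140420), (1365, 261756000), (1375, 255408000), (1430, 321312000), (1521, 299340000), (1573, 278345610), (1617, 315153000), (1625, 265665000), (1690, 268893000), (1694, 359553000), (1715, 335796000), (1815, 397680000), (1859, 235805700),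 (1911, 288435000), (1925, 322389000), (2002, 329088000), (2145, 381972000), (2197, 291670260), (2275, 294255000), (2366, 264393000), (2401, 307494000), (2535, 321570000), (2541, 306291000), (2662, 295569000), (2695, 348135000), (3003, 357468000), (3025, 290073000), (3146, 269697000), (3185, 283041000), (3549, 318606000), (3575, 293604000), (3718, 261033000), (3773, 368745000), (3993, 318447000), (4225, 311802000), (4235, 217593000), (4394, 281232000), (4459, 281844000), (4719, 321222000), (5005, 292740000), (5577, 321732000), (5915, 311964000), (5929, 181329000), (6591, 321543000), (6655, 352884000), (7007, 218877000), (7865, 363111000), (8281, 333261000), (9295, 325107000), (9317, 370269000), (10985, 301596000), (11011, 364002000), (13013, 324639000), (14641, 295239000), (15379, 276348000), (17303, 284298000), (20449, 306900000), (24167, 295185000), (28561, 310101000)])))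
    (by decide +kernel) (yv_nonneg cw cA cB dw dA dB (le_refl 0) (le_refl 0) (le_refl 0))
    (by
      simp only [List.forall_mem_cons, exadd, exsub, exmul, exc, exv2, exv3, exv5, exv7, exv11, exv13]
      push_cast
      refine ⟨?_, ?_, ?_, ?_, ?_, ?_, ?_, ?_, ?_, ?_, ?_, ?_, ?_, ?_, ?_, ?_, ?_, ?_, ?_, ?_, fun _ hh => absurd hh List.not_mem_nil⟩
      · linarith [cw]
      · linarith [cA]
      · linarith [cB]
      · linarith [cw1]
      · linarith [cT]
      · linarith [cT2]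
      · linarith [ck1]
      · linarith [ck2]
      · linarith [dw]
      · linarith [dA]
      · linarith [dB]
      · linarith [dw1]
      · linarith [dT]
      · linarith [dT2]
      · linarith [dk1]
      · linarith [dk2]
      · linarith [m1]
      · linarith [m2]
      · linarith [m3]
      · linarith [m5]
    )
  simp only [exadd, exsub, exmul, exc, exv2, exv3, exv5, exv7, exv11, exv13] at h
  push_cast at h
  linarith [h]

theorem cc_i0110 {w A B x E F : ℝ} (cw : 0 ≤ w) (cA : 0 ≤ A) (cB : 0 ≤ B) (cw1 : 0 ≤ 1 - w) (cT : 0 ≤ 1 + w - A - B) (cT2 : 0 ≤ -9 / 20 - w + A + B) (ck1 : 0 ≤ -w + A) (ck2 : 0 ≤ w - B) (dw : 0 ≤ x) (dA : 0 ≤ E) (dB : 0 ≤ F) (dw1 : 0 ≤ 1 - x) (dT : 0 ≤ 1 + x - E - F) (dT2 : 0 ≤ -9 / 20 - x + E + F) (dk1 : 0 ≤ x - E) (dk2 : 0 ≤ -x + F) (m1 : 0 ≤ E) (m2 : 0 ≤ 29 / 100 - E) (m3 : 0 ≤ w - E) (m5 : 0 ≤ 4 / 15 - E - w ^ 2 + w * E + 1 / 3 * w ^ 3) :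
    0 ≤ -41 / 750 - 29 / 100 * w + 29 / 100 * B - 2 / 25 * x + 21 / 40 * E + 41 / 200 * F + w ^ 2 - w * E - 1 / 3 * w ^ 3 + w ^ 2 * B - w * A * B - w * B ^ 2 + 1 / 3 * B ^ 3 + x ^ 2 * E - x * E ^ 2 - x * E * F + 1 / 3 * E ^ 3 := by
  have h := cert (y := yv w A B x E F 0 0 0)
    (gs := [(.v 2),
      (.v 3),
      (.v 5),
      (.add (.c (1)) (.mul (.c (-1)) (.v 2))),
      (.add (.add (.c (1)) (.v 2)) (.add (.mul (.c (-1)) (.v 3)) (.mul (.c (-1)) (.v 5)))),
      (.add (.add (.c (-9)) (.mul (.c (-20)) (.v 2))) (.add (.mul (.c (20)) (.v 3)) (.mul (.c (20)) (.v 5)))),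
      (.add (.mul (.c (-1)) (.v 2)) (.v 3)),
      (.add (.v 2) (.mul (.c (-1)) (.v 5))),
      (.v 7),
      (.v 11),
      (.v 13),
      (.add (.c (1)) (.mul (.c (-1)) (.v 7))),
      (.add (.add (.c (1)) (.v 7)) (.add (.mul (.c (-1)) (.v 11)) (.mul (.c (-1)) (.v 13)))),
      (.add (.add (.c (-9)) (.mul (.c (-20)) (.v 7))) (.add (.mul (.c (20)) (.v 11)) (.mul (.c (20)) (.v 13)))),
      (.add (.v 7) (.mul (.c (-1)) (.v 11))),
      (.add (.mul (.c (-1)) (.v 7)) (.v 13)),
      (.v 11),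
      (.add (.c (29)) (.mul (.c (-100)) (.v 11))),
      (.add (.v 2) (.mul (.c (-1)) (.v 11))),
      (.add (.add (.c (4)) (.mul (.c (-15)) (.mul (.v 2) (.v 2)))) (.add (.mul (.c (5)) (.mul (.mul (.v 2) (.v 2)) (.v 2))) (.add (.mul (.c (-15)) (.v 11)) (.mul (.c (15)) (.mul (.v 2) (.v 11))))))])
    (p := .mul (.c 4000000000) (.add (.add (.add (.add (.c (-164)) (.mul (.c (-870)) (.v 2))) (.add (.mul (.c (3000)) (.mul (.v 2) (.v 2))) (.mul (.c (870)) (.v 5)))) (.add (.add (.mul (.c (-240)) (.v 7)) (.mul (.c (-1000)) (.mul (.mul (.v 2) (.v 2)) (.v 2)))) (.add (.mul (.c (1575)) (.v 11)) (.mul (.c (615)) (.v 13))))) (.add (.add (.add (.mul (.c (3000)) (.mul (.mul (.v 2) (.v 2)) (.v 5))) (.mul (.c (-3000)) (.mul (.v 2) (.v 11)))) (.add (.mul (.c (-3000)) (.mul (.mul (.v 2) (.v 3)) (.v 5))) (.mul (.c (-3000)) (.mul (.mul (.v 2) (.v 5)) (.v 5))))) (.add (.add (.mul (.c (1000)) (.mul (.mul (.v 5) (.v 5)) (.v 5))) (.mul (.c (3000)) (.mul (.mul (.v 7) (.v 7)) (.v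 11)))) (.add (.mul (.c (-3000)) (.mul (.mul (.v 7) (.v 11)) (.v 11))) (.add (.mul (.c (-3000)) (.mul (.mul (.v 7) (.v 11)) (.v 13))) (.mul (.c (1000)) (.mul (.mul (.v 11) (.v 11)) (.v 11)))))))))
    (e := (.add (.add (.add (.add (.mul (.pp [(1, 226916400)]) (.sq [(1, 49), (2, -100), (3, -10), (5, 38), (7, 45), (11, 79), (13, -43)])) (.add (.mul (.pp [(1, 52184400)]) (.sq [(1, 17), (2, -100), (3, 15), (5, -3), (7, -20), (11, 62), (13, 3)])) (.mul (.g 2) (.add (.add (.add (.mul (.g 17) (.add (.add (.mul (.g 8) (.add (.add (.pp [(1, 6766560000)]) (.mul (.g 1) (.pp [(1, 5052240000)]))) (.add (.mul (.g 2) (.pp [(1, 1199040000)])) (.add (.mul (.g 3) (.pp [(1, 755640000)])) (.mul (.g 10) (.pp [(1, 129240000)])))))) (.add (.mul (.g 2) (.add (.pp [(1, 4471080000)]) (.add (.mul (.g 2) (.pp [(1, 1949760000)])) (.mul (.g 4) (.pp [(1, 647640000)]))))) (.mul (.g 10) (.add (.mul (.g 6) (.pp [(1, 784200000)])) (.add (.mul (.g 7) (.pp [(1, 4324440000)])) (.mul (.g 13) (.pp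 [(1, 217962000)]))))))) (.add (.add (.mul (.g 9) (.add (.mul (.g 1) (.pp [(1, 969360000)])) (.mul (.g 14) (.pp [(1, 5087640000)])))) (.mul (.g 13) (.add (.pp [(1, 730056000)]) (.mul (.g 12) (.pp [(1, 291246000)]))))) (.add (.mul (.g 0) (.mul (.g 0) (.pp [(1, 7935480000)]))) (.mul (.g 18) (.mul (.g 18) (.pp [(1, 6277320000)]))))))) (.mul (.g 4) (.add (.add (.mul (.g 0) (.add (.add (.pp [(1, 8675604000000)]) (.mul (.g 9) (.pp [(1, 418920000000)]))) (.add (.mul (.g 13) (.pp [(1, 550200000)])) (.mul (.g 18) (.pp [(1, 305268000000)]))))) (.mul (.g 1) (.add (.mul (.g 1) (.pp [(1, 16140000000)])) (.add (.mul (.g 9) (.pp [(1, 8868000000)])) (.mul (.g 11) (.pp [(1, 46116000000)])))))) (.add (.mul (.g 2) (.add (.mul (.g 2) (.pp [(1, 791040000000)])) (.mul (.g 4) (.pp [(1, 177528000000)])))) (.add (.mul (.g 7) (.add (.pp [(1, 1198704000000)]) (.mul (.g 6) (.pp [(1, 57876000000)])))) (.mul (.g 15) (.mul (.g 15) (.pp [(1, 19728000000)])))))))) (.add (.mul (.g 3) (.add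 (.add (.mul (.pp [(1, 65440800)]) (.sq [(1, -60), (2, 100), (3, -50), (5, 94), (7, 18), (11, -3), (13, 23)])) (.mul (.g 7) (.add (.mul (.g 7) (.pp [(1, 1516944000000)])) (.mul (.g 10) (.pp [(1, 326520000000)]))))) (.add (.mul (.g 1) (.mul (.g 14) (.pp [(1, 5496000000)]))) (.add (.mul (.g 8) (.mul (.g 18) (.pp [(1, 53904000000)]))) (.mul (.g 11) (.mul (.g 13) (.pp [(1, 28530600000)]))))))) (.add (.mul (.g 2) (.add (.add (.mul (.pp [(1, 25782000)]) (.sq [(1, -23), (2, -4), (3, 64), (5, -100), (7, -33), (11, -36), (13, 3)])) (.mul (.g 2) (.add (.mul (.g 2) (.pp [(1, 917556000000)])) (.mul (.g 8) (.pp [(1, 6408000000)]))))) (.add (.mul (.g 8) (.mul (.g 11) (.pp [(1, 660000000)]))) (.mul (.g 13) (.mul (.g 15) (.pp [(1, 7661400000)])))))) (.mul (.g 14) (.add (.add (.mul (.g 0) (.add (.mul (.g 11) (.pp [(1, 216504000000)])) (.mul (.g 12) (.pp [(1, 736140000000)])))) (.mul (.g 1) (.mul (.g 11) (.pp [(1, 196476000000)])))) (.add (.mul (.g 7) (.mul (.g 12) (.pp [(1,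 82404000000)]))) (.mul (.g 8) (.mul (.g 18) (.pp [(1, 145464000000)]))))))))) (.add (.add (.mul (.g 1) (.add (.mul (.pp [(1, 25994400)]) (.sq [(1, 17), (2, 11), (3, -56), (5, 100), (7, -49), (11, 14), (13, 32)])) (.mul (.g 7) (.mul (.g 7) (.pp [(1, 443844000000)]))))) (.add (.mul (.g 13) (.add (.mul (.pp [(1, 70140)]) (.sq [(1, 11), (2, 15), (3, 100), (5, -48), (7, 2), (11, 14), (13, -85)])) (.mul (.g 12) (.pp [(1, 14269200000)])))) (.mul (.g 7) (.mul (.g 7) (.mul (.g 7) (.pp [(1, 638292000000)])))))) (.add (.mul (.g 10) (.mul (.pp [(1, 8683200)]) (.sq [(1, -24), (2, 100), (3, -60), (5, 93), (7, 50), (11, -15), (13, -13)]))) (.add (.mul (.g 11) (.mul (.pp [(1, 14757600)]) (.sq [(1, 67), (2, 23), (3, -100), (5, 95), (7, 16), (11, 42), (13, -16)]))) (.mul (.g 19) (.pp [(1, 382868000000)]))))))))) (.add (.add (.mul (.g 11) (.add (.add (.add (.mul (.g 4) (.add (.add (.mul (.pp [(1, 18075600)]) (.sq [(1, -13), (2, 100), (3, 26), (5, 17), (7, 5), (11, 2), (13,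 -13)])) (.add (.mul (.pp [(1, 254400)]) (.sq [(1, -71), (2, -47), (3, 64), (5, -3), (7, 75), (11, -32), (13, 100)])) (.mul (.g 18) (.add (.mul (.g 0) (.pp [(1, 435156000000)])) (.add (.mul (.g 10) (.pp [(1, 244728000000)])) (.mul (.g 11) (.pp [(1, 121392000000)]))))))) (.add (.add (.mul (.g 9) (.add (.mul (.g 8) (.pp [(1, 393048000000)])) (.mul (.g 13) (.pp [(1, 5654400000)])))) (.mul (.g 0) (.mul (.g 0) (.pp [(1, 479424000000)])))) (.add (.mul (.g 6) (.mul (.g 14) (.pp [(1, 4092000000)]))) (.mul (.g 13) (.pp [(1, 1452600000)])))))) (.mul (.g 14) (.add (.add (.mul (.g 11) (.add (.mul (.g 6) (.pp [(1, 41928000000)])) (.add (.mul (.g 14) (.pp [(1, 15432000000)])) (.mul (.g 17) (.pp [(1, 718440000)]))))) (.add (.mul (.g 0) (.add (.mul (.g 7) (.pp [(1, 163644000000)])) (.mul (.g 8) (.pp [(1, 22692000000)])))) (.mul (.g 1) (.mul (.g 17) (.pp [(1, 1633920000)]))))) (.add (.mul (.g 7) (.mul (.g 14) (.pp [(1, 16404000000)]))) (.add (.mul (.g 8) (.mul (.g 18) (.pp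 [(1, 47784000000)]))) (.mul (.g 10) (.mul (.g 10) (.pp [(1, 24840000000)])))))))) (.add (.mul (.g 3) (.add (.add (.mul (.pp [(1, 9255600)]) (.sq [(1, -12), (2, 100), (3, -28), (5, 23), (7, -1), (11, -66), (13, 2)])) (.mul (.g 9) (.add (.mul (.g 3) (.pp [(1, 378528000000)])) (.add (.mul (.g 9) (.pp [(1, 303504000000)])) (.mul (.g 13) (.pp [(1, 35015400000)])))))) (.add (.mul (.g 8) (.add (.mul (.g 6) (.pp [(1, 7104000000)])) (.mul (.g 13) (.pp [(1, 1605000000)])))) (.mul (.g 3) (.mul (.g 13) (.pp [(1, 24898800000)])))))) (.add (.mul (.g 8) (.add (.mul (.pp [(1, 7146000)]) (.sq [(1, -36), (2, -9), (3, 62), (5, -100), (7, 67), (11, 44), (13, -47)])) (.add (.mul (.g 17) (.add (.mul (.g 5) (.pp [(1, 27498000)])) (.mul (.g 8) (.pp [(1, 89280000)])))) (.mul (.g 11) (.mul (.g 13) (.pp [(1, 2746800000)])))))) (.mul (.g 7) (.mul (.g 7) (.add (.mul (.g 0) (.pp [(1, 453444000000)])) (.add (.mul (.g 7) (.pp [(1, 78192000000)])) (.mul (.g 10) (.pp [(1, 104604000000)])))))))))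 (.add (.add (.mul (.g 9) (.mul (.g 13) (.add (.pp [(1, 447574200000)]) (.mul (.g 11) (.pp [(1, 28392000000)]))))) (.add (.mul (.g 1) (.mul (.pp [(1, 4610400)]) (.sq [(1, 18), (2, 100), (3, -68), (5, 61), (7, -42), (11, -16), (13, 15)]))) (.mul (.g 5) (.mul (.pp [(1, 34260)]) (.sq [(1, -100), (2, 96), (3, 49), (5, -1), (7, -1), (13, 6)]))))) (.add (.mul (.g 6) (.mul (.pp [(1, 1680000)]) (.sq [(1, 8), (2, 100), (3, -53), (5, 47), (7, -36), (11, -16), (13, -1)]))) (.add (.mul (.g 12) (.mul (.pp [(1, 193200)]) (.sq [(1, 59), (2, -8), (3, -100), (5, 96), (7, -59), (11, 72), (13, 73)]))) (.mul (.g 16) (.mul (.pp [(1, 7746000)]) (.sq [(1, -86), (2, 58), (3, 78), (5, -71), (7, 100), (11, -33), (13, -68)])))))))) (.mul (.g 12) (.add (.add (.add (.mul (.pp [(1, 6924000)]) (.sq [(1, 28), (2, 24), (3, 1), (5, -16), (7, 30), (11, 100), (13, -74)])) (.mul (.g 7) (.add (.add (.mul (.g 8) (.add (.pp [(1, 165648000000)]) (.add (.mul (.g 1) (.pp [(1, 93768000000)])) (.mul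 (.g 8) (.pp [(1, 103716000000)]))))) (.mul (.g 7) (.add (.mul (.g 0) (.pp [(1, 292920000000)])) (.mul (.g 10) (.pp [(1, 169644000000)]))))) (.add (.mul (.g 9) (.add (.pp [(1, 691968000000)]) (.mul (.g 14) (.pp [(1, 13764000000)])))) (.mul (.g 10) (.mul (.g 12) (.pp [(1, 68892000000)]))))))) (.add (.mul (.g 13) (.add (.add (.pp [(1, 19293600000)]) (.add (.mul (.pp [(1, 8400)]) (.sq [(1, 100), (2, 17), (3, 73), (7, -99), (11, 18), (13, -82)])) (.mul (.pp [(1, 38160)]) (.sq [(1, -41), (2, 22), (3, 3), (5, -35), (7, 14), (11, -34), (13, 100)])))) (.add (.mul (.pp [(1, 217380)]) (.sq [(1, 100), (2, -50), (3, 23), (7, 71), (11, 46), (13, -55)])) (.add (.mul (.g 3) (.add (.pp [(1, 21584400000)]) (.add (.mul (.g 6) (.pp [(1, 676200000)])) (.mul (.g 10) (.pp [(1, 5544600000)]))))) (.mul (.g 1) (.mul (.g 12) (.pp [(1, 423600000)]))))))) (.add (.mul (.g 5) (.add (.add (.mul (.pp [(1, 5110800000)]) (.sq [(2, 1), (5, -1)])) (.mul (.pp [(1, 70860)]) (.sq [(1, -45), (2,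 -39), (3, 13), (5, 50), (7, -18), (11, -10), (13, 100)]))) (.add (.mul (.pp [(1, 9120)]) (.sq [(2, -58), (3, -31), (5, -4), (7, 60), (11, 47), (13, 100)])) (.add (.mul (.pp [(1, 103080)]) (.sq [(1, 4), (2, 100), (3, -58), (5, 30), (7, -37), (11, -26), (13, 2)])) (.mul (.g 5) (.mul (.g 10) (.pp [(1, 76950000)]))))))) (.mul (.g 4) (.add (.mul (.pp [(1, 478800)]) (.sq [(1, 8), (2, -7), (3, -23), (5, -3), (7, 100), (13, 1)])) (.add (.mul (.pp [(1, 2767200)]) (.sq [(1, 81), (2, 50), (3, -100), (5, -54), (7, 44), (11, -4), (13, -4)])) (.mul (.g 0) (.mul (.g 9) (.pp [(1, 29208000000)]))))))))) (.add (.add (.mul (.g 8) (.add (.mul (.g 8) (.add (.mul (.g 8) (.pp [(1, 5784000000)])) (.mul (.g 12) (.pp [(1, 86604000000)])))) (.mul (.g 1) (.mul (.g 12) (.pp [(1, 55056000000)]))))) (.mul (.g 9) (.add (.mul (.pp [(1, 596400)]) (.sq [(1, -27), (2, -100), (3, 4), (5, 88), (7, -76), (11, 98), (13, 44)])) (.mul (.g 9) (.mul (.g 9) (.pp [(1, 241044000000)])))))) (.add (.mul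 (.g 1) (.mul (.pp [(1, 9408000)]) (.sq [(1, 17), (2, 24), (3, 6), (5, -23), (7, 10), (11, 37), (13, -50)]))) (.add (.mul (.g 10) (.mul (.pp [(1, 748800)]) (.sq [(1, 8), (2, 100), (3, 7), (5, 16), (7, 49), (11, 91), (13, -99)]))) (.mul (.g 12) (.mul (.pp [(1, 346800)]) (.sq [(1, 12), (2, 16), (3, -62), (5, -90), (7, 100), (11, 6), (13, 75)]))))))))) (.add (.mul (.g 18) (.add (.add (.mul (.g 3) (.add (.add (.mul (.pp [(1, 16732800)]) (.sq [(1, -26), (2, 76), (5, 100), (7, 96), (11, -26), (13, -41)])) (.mul (.g 7) (.add (.pp [(1, 1038312000000)]) (.add (.mul (.g 9) (.pp [(1, 1794096000000)])) (.mul (.g 10) (.pp [(1, 1173312000000)])))))) (.add (.mul (.g 4) (.add (.mul (.g 1) (.pp [(1, 161508000000)])) (.mul (.g 8) (.pp [(1, 414780000000)])))) (.add (.mul (.g 0) (.mul (.g 0) (.pp [(1, 149844000000)]))) (.mul (.g 8) (.mul (.g 18) (.pp [(1, 1659516000000)]))))))) (.add (.mul (.g 4) (.add (.add (.pp [(1, 288012000000)]) (.mul (.pp [(1, 106800)]) (.sq [(1, 2), (2,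 -100), (3, -27), (5, 3), (7, 77), (11, 18), (13, 53)]))) (.add (.mul (.pp [(1, 4473600)]) (.sq [(1, 32), (2, 100), (3, 25), (5, -4), (7, 33), (13, 5)])) (.mul (.g 8) (.add (.mul (.g 0) (.pp [(1, 1821612000000)])) (.mul (.g 1) (.pp [(1, 266472000000)]))))))) (.mul (.g 17) (.add (.mul (.g 9) (.add (.pp [(1, 24352920000)]) (.add (.mul (.g 9) (.pp [(1, 132840000)])) (.mul (.g 10) (.pp [(1, 891000000)]))))) (.add (.mul (.g 0) (.mul (.g 8) (.pp [(1, 21935760000)]))) (.mul (.g 7) (.mul (.g 15) (.pp [(1, 1641720000)])))))))) (.add (.add (.mul (.g 18) (.add (.add (.mul (.pp [(1, 997200)]) (.sq [(1, -93), (2, -99), (3, 2), (5, 60), (7, 100), (11, 24), (13, 97)])) (.mul (.pp [(1, 562800)]) (.sq [(1, -30), (2, 89), (3, 39), (5, 91), (7, -56), (11, -3), (13, -100)]))) (.add (.mul (.g 13) (.add (.pp [(1, 134211000000)]) (.mul (.g 10) (.pp [(1, 7834800000)])))) (.mul (.g 6) (.mul (.g 8) (.pp [(1, 406176000000)])))))) (.mul (.g 7) (.add (.mul (.g 1) (.mul (.g 10) (.pp [(1,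 116424000000)]))) (.add (.mul (.g 6) (.pp [(1, 580008000000)])) (.mul (.g 7) (.mul (.g 13) (.pp [(1, 4906200000)]))))))) (.add (.mul (.g 0) (.mul (.g 0) (.mul (.g 14) (.pp [(1, 1464348000000)])))) (.mul (.g 13) (.mul (.pp [(1, 76620)]) (.sq [(1, -100), (2, 11), (3, 87), (5, -69), (7, -21), (11, 4), (13, 41)]))))))) (.mul (.g 17) (.add (.add (.mul (.g 9) (.add (.add (.mul (.g 10) (.add (.mul (.g 0) (.pp [(1, 3929040000)])) (.add (.mul (.g 7) (.pp [(1, 2996160000)])) (.mul (.g 15) (.pp [(1, 1964640000)]))))) (.add (.mul (.g 14) (.add (.pp [(1, 11020080000)]) (.add (.mul (.g 6) (.pp [(1, 4566720000)])) (.mul (.g 9) (.pp [(1, 2472000000)]))))) (.mul (.g 0) (.mul (.g 0) (.pp [(1, 28697520000)]))))) (.add (.add (.mul (.g 5) (.mul (.g 9) (.pp [(1, 204882000)]))) (.mul (.g 7) (.mul (.g 8) (.pp [(1, 4767720000)])))) (.add (.mul (.g 13) (.pp [(1, 1266780000)])) (.mul (.g 17) (.mul (.g 17) (.pp [(1, 4260)]))))))) (.mul (.g 8) (.add (.mul (.g 8) (.add (.mul (.g 5) (.pp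 [(1, 176520000)])) (.add (.mul (.g 13) (.pp [(1, 375060000)])) (.mul (.g 15) (.pp [(1, 869640000)]))))) (.add (.mul (.g 1) (.mul (.g 5) (.pp [(1, 84492000)]))) (.mul (.g 13) (.pp [(1, 531546000)])))))) (.add (.mul (.g 14) (.add (.mul (.g 1) (.mul (.g 1) (.pp [(1, 185160000)]))) (.mul (.g 7) (.mul (.g 15) (.pp [(1, 7510920000)]))))) (.mul (.g 0) (.mul (.g 13) (.pp [(1, 419226000)]))))))))) (.add (.add (.add (.mul (.g 4) (.add (.add (.add (.mul (.pp [(1, 228000)]) (.sq [(1, -35), (2, 52), (3, 100), (5, -20), (7, 45), (11, 27), (13, -66)])) (.mul (.g 7) (.add (.add (.mul (.pp [(1, 3534000000)]) (.sq [(1, 2), (2, -1), (5, 1)])) (.mul (.pp [(1, 4608000)]) (.sq [(1, 34), (2, 89), (3, 32), (5, -33), (7, 34), (11, 100), (13, -47)]))) (.add (.mul (.g 0) (.mul (.g 8) (.pp [(1, 39228000000)]))) (.mul (.g 1) (.mul (.g 10) (.pp [(1, 3684000000)]))))))) (.add (.mul (.g 5) (.add (.mul (.pp [(1, 31620)]) (.sq [(1, 31), (2, 27), (3, 100), (5, 73), (7, -29), (11, -8), (13,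 -25)])) (.mul (.pp [(1, 41400)]) (.sq [(1, 55), (2, 81), (3, -97), (5, -22), (7, -47), (11, -100), (13, -73)])))) (.add (.mul (.g 13) (.add (.mul (.pp [(1, 83640)]) (.sq [(1, 75), (2, 37), (3, 100), (5, -63), (7, -25), (11, 14), (13, -72)])) (.mul (.pp [(1, 101820)]) (.sq [(1, -9), (2, 2), (3, -33), (5, 22), (7, -44), (11, 100), (13, 30)])))) (.mul (.g 1) (.mul (.pp [(1, 704400)]) (.sq [(1, 19), (2, 52), (3, 91), (5, 24), (7, 46), (11, 44), (13, -100)])))))) (.add (.add (.mul (.g 3) (.mul (.pp [(1, 17196000)]) (.sq [(1, -40), (2, 52), (3, 100), (5, 13), (7, 28), (11, 19), (13, -54)]))) (.mul (.g 4) (.mul (.pp [(1, 603600)]) (.sq [(1, 37), (2, 24), (3, -100), (5, 9), (7, 50), (11, 82), (13, -19)])))) (.add (.mul (.g 6) (.mul (.pp [(1, 696000)]) (.sq [(1, 42), (2, 75), (3, -71), (5, 55), (7, 100), (11, 56), (13, -81)]))) (.add (.mul (.g 8) (.mul (.pp [(1, 1154400)]) (.sq [(1, 80), (2, 9), (3, 100), (5, 38), (7, -43), (11, 83), (13, -65)]))) (.mul (.g 16) (.mul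 (.pp [(1, 876000)]) (.sq [(1, -13), (2, 42), (3, 82), (5, -15), (7, 40), (11, 100), (13, -57)])))))))) (.mul (.g 3) (.add (.add (.mul (.pp [(1, 146877600)]) (.sq [(1, 52), (2, -100), (3, -8), (5, 44), (7, 44), (11, 81), (13, -42)])) (.mul (.pp [(1, 137307600)]) (.sq [(1, -26), (2, 100), (3, 24), (5, -50), (7, 30), (11, -5), (13, -33)]))) (.add (.mul (.g 5) (.mul (.pp [(1, 3088920)]) (.sq [(1, -100), (2, 68), (3, 58), (5, -11), (7, 2), (11, -1), (13, -1)]))) (.add (.mul (.g 13) (.mul (.pp [(1, 5178240)]) (.sq [(1, -46), (2, 100), (3, -1), (5, 41), (7, -13), (11, 15), (13, 10)]))) (.mul (.g 14) (.mul (.pp [(1, 3393600)]) (.sq [(1, -27), (2, 100), (3, 58), (5, 50), (7, 34), (11, -12), (13, -68)])))))))) (.add (.mul (.g 5) (.add (.mul (.pp [(1, 104940)]) (.sq [(1, -18), (2, 100), (3, -35), (5, 15), (7, 1), (11, -10), (13, 10)])) (.add (.mul (.pp [(1, 291540)]) (.sq [(1, -100), (2, 76), (3, 65), (5, -26), (7, -26), (11, -20), (13, 11)])) (.mul (.g 5) (.add (.mul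 (.pp [(1, 23466)]) (.sq [(1, -67), (2, 100), (3, -18), (5, 63), (7, -1), (11, 6), (13, 18)])) (.mul (.pp [(1, 66225)]) (.sq [(1, 100), (2, -65), (3, -18), (5, 29), (7, -18), (11, -18), (13, -18)]))))))) (.mul (.g 7) (.mul (.g 7) (.add (.mul (.pp [(1, 9741600)]) (.sq [(1, 99), (2, 71), (3, 60), (5, -35), (7, 32), (11, 100), (13, -54)])) (.add (.mul (.g 0) (.add (.mul (.g 1) (.pp [(1, 52356000000)])) (.mul (.g 6) (.pp [(1, 338292000000)])))) (.mul (.g 7) (.mul (.g 14) (.pp [(1, 169704000000)]))))))))) (.add (.add (.mul (.g 19) (.add (.mul (.g 8) (.pp [(1, 336199200000)])) (.add (.mul (.g 9) (.pp [(1, 378541600000)])) (.mul (.g 13) (.pp [(1, 21147800000)]))))) (.mul (.g 1) (.add (.mul (.g 1) (.mul (.pp [(1, 1345200)]) (.sq [(1, -2), (2, 11), (3, 65), (5, -43), (7, 89), (11, 66), (13, -100)]))) (.mul (.g 10) (.mul (.pp [(1, 16137600)]) (.sq [(1, -25), (2, 100), (3, 20), (5, -53), (7, 19), (11, 3), (13, -23)])))))) (.add (.mul (.g 10) (.mul (.g 10) (.mul (.pp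 [(1, 32322000)]) (.sq [(1, -14), (2, 100), (3, -12), (5, -43), (7, 48), (11, -5), (13, -29)])))) (.mul (.g 13) (.mul (.pp [(1, 312240)]) (.sq [(1, 100), (2, -83), (3, 15), (5, -5), (7, -58), (11, 10), (13, -16)]))))))) (.pp [(1, 1959492226), (2, 121216440), (3, 142348248), (4, 147657975), (5, 130100752), (6, 112065540), (7, 118632376), (8, 100298840), (9, 94131396), (10, 93053370), (11, 115545064), (12, 156049740), (13, 121374212), (14, 142453140), (15, 127234668), (16, 119049600), (18, 100865280), (20, 206991840), (21, 84189864), (22, 41966340), (24, 126482400), (25, 127688121), (26, 133611780), (27, 137726220), (28, 119829900), (30, 77357520), (33, 159354576), (35, 120898176), (36, 97902000), (39, 107756808), (40, 112354400), (42, 102775560), (44, 98421720), (45, 138835500), (49, 86466834), (50, 85600800), (52, 140882340), (54, 131275200), (55, 114215244), (56, 112401200), (60, 98071200), (63, 134810460), (65, 94970532), (66, 130473600), (70, 130677240),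 (75, 103477740), (77, 172225392), (78, 77652360), (81, 112900800), (84, 107580000), (88, 111028400), (90, 145758000), (91, 123663696), (98, 102186000), (99, 113932260), (100, 91333200), (104, 131429200), (105, 149041440), (110, 130715160), (117, 137290560), (121, 146034444), (125, 121879900), (126, 123776400), (130, 89815200), (132, 105892800), (135, 112105200), (140, 115273200), (143, 121466904), (147, 148601820), (150, 143665200), (154, 128329080), (156, 79790400), (165, 106648920), (169, 129695136), (175, 124805460), (182, 96110640), (189, 121015200), (195, 121533240), (196, 118198800), (198, 144378000), (210, 137328000), (220, 160599600), (225, 117456000), (231, 104227440), (234, 151099200), (242, 102760680), (245, 120189060), (250, 129214800), (260, 100724400), (273, 159089880), (275, 126508740), (286, 151621800), (294, 145549200), (297, 102194400), (308, 128295600), (315, 118200000), (325, 133167480), (330, 148627200), (338, 91582800), (343, 109743960),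 (350, 120692400), (351, 114253200), (363, 112940640), (364, 141223200), (375, 111194400), (385, 71586600), (390, 171655200), (429, 111814080), (441, 102565200), (455, 124227720), (462, 122623200), (484, 116995200), (490, 108651600), (495, 96890400), (507, 122297340), (525, 121856400), (539, 133401960), (546, 127533600), (550, 112467600), (572, 111217200), (585, 99678000), (605, 174347280), (625, 131636400), (637, 167717820), (650, 123333600), (676, 99408000), (686, 121564800), (693, 116202000), (715, 185883240), (726, 132537600), (735, 90664800), (770, 134570400), (819, 107556000), (825, 100550400), (845, 152523600), (847, 93481200), (858, 123391200), (875, 126102000), (910, 129448800), (975, 112455600), (1001, 96336000), (1014, 130849200), (1029, 112838400), (1078, 103269600), (1089, 124074000), (1155, 142312800), (1183, 95924700), (1210, 136759200), (1225, 126866400), (1274, 131866800), (1287, 141531600), (1331, 108100720), (1365, 113916000), (1375, 116049600),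 (1430, 110486400), (1521, 120723600), (1573, 109697040), (1617, 142196400), (1625, 112654800), (1690, 136388400), (1694, 108508800), (1715, 116517600), (1815, 97185600), (1859, 100309920), (1911, 125011200), (1925, 107304000), (2002, 100185600), (2145, 111852000), (2197, 116167020), (2275, 103430400), (2366, 95017200), (2401, 111330000), (2535, 118368000), (2541, 104546400), (2662, 133305600), (2695, 147836400), (3003, 93314400), (3025, 107236800), (3146, 111796800), (3185, 128234400), (3549, 118231200), (3575, 124858800), (3718, 142926000), (3773, 134496000), (3993, 124269600), (4225, 120081600), (4235, 122733600), (4394, 143004000), (4459, 134907600), (4719, 119894400), (5005, 128661600), (5577, 110750400), (5915, 118818000), (5929, 117148800), (6591, 113744400), (6655, 107460000), (7007, 101643600), (7865, 99338400), (8281, 99214800), (9295, 82364400), (9317, 130011600), (10985, 109490400), (11011, 144441600), (13013, 119640000), (14641, 116619600), (15379,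 134146800), (17303, 117278400), (20449, 127561200), (24167, 132397200), (28561, 118558800)])))
    (by decide +kernel) (yv_nonneg cw cA cB dw dA dB (le_refl 0) (le_refl 0) (le_refl 0))
    (by
      simp only [List.forall_mem_cons, exadd, exsub, exmul, exc, exv2, exv3, exv5, exv7, exv11, exv13]
      push_cast
      refine ⟨?_, ?_, ?_, ?_, ?_, ?_, ?_, ?_, ?_, ?_, ?_, ?_, ?_, ?_, ?_, ?_, ?_, ?_, ?_, ?_, fun _ hh => absurd hh List.not_mem_nil⟩
      · linarith [cw]
      · linarith [cA]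
      · linarith [cB]
      · linarith [cw1]
      · linarith [cT]
      · linarith [cT2]
      · linarith [ck1]
      · linarith [ck2]
      · linarith [dw]
      · linarith [dA]
      · linarith [dB]
      · linarith [dw1]
      · linarith [dT]
      · linarith [dT2]
      · linarith [dk1]
      · linarith [dk2]
      · linarith [m1]
      · linarith [m2]
      · linarith [m3]
      · linarith [m5]
    )
  simp only [exadd, exsub, exmul, exc, exv2, exv3, exv5, exv7, exv11, exv13] at h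
  push_cast at h
  linarith [h]

theorem cc_i1000 {w A B x E F : ℝ} (cw : 0 ≤ w) (cA : 0 ≤ A) (cB : 0 ≤ B) (cw1 : 0 ≤ 1 - w) (cT : 0 ≤ 1 + w - A - B) (cT2 : 0 ≤ -9 / 20 - w + A + B) (ck1 : 0 ≤ w - A) (ck2 : 0 ≤ -w + B) (dw : 0 ≤ x) (dA : 0 ≤ E) (dB : 0 ≤ F) (dw1 : 0 ≤ 1 - x) (dT : 0 ≤ 1 + x - E - F) (dT2 : 0 ≤ -9 / 20 - x + E + F) (dk1 : 0 ≤ -x + E) (dk2 : 0 ≤ -x + F) (m1 : 0 ≤ E) (m2 : 0 ≤ 29 / 100 - E) (m3 : 0 ≤ w - E) (m5 : 0 ≤ 4 / 15 - E - w ^ 2 + w * E + 1 / 3 * w ^ 3) :
    0 ≤ -41 / 750 - 29 / 100 * w + 29 / 100 * B - 2 / 25 * x + 21 / 40 * E + 41 / 200 * F + w ^ 2 - w * E - 1 / 3 * w ^ 3 + w ^ 2 * A - w * A ^ 2 - w * A * B + 1 / 3 * A ^ 3 + 1 / 3 * x ^ 3 - x * E * F := by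
  exact finE (yv_nonneg cw cA cB dw dA dB (le_refl 0) (le_refl 0) (le_refl 0)) .z (.S (.A (.A (.S (.S (.A (.S (.S (.A (.A (.A (.S (.A (.S (.D (.N (.n 39)) 748) (.M (.D (.n 27) 98) .v0)) (.M (.D (.n 27) 98) .v2)) (.M (.D (.n 0) 23) .v3)) (.M (.D (.n 19) 38) .v4)) (.M (.D (.n 39) 198) .v5)) (.P .v0)) (.M .v0 .v4)) (.M (.D .o 1) (.Q .v0))) (.M (.P .v0) .v1)) (.M .v0 (.P .v1))) (.M (.M .v0 .v1) .v2)) (.M (.D .o 1) (.Q .v1))) (.M (.D .o 1) (.Q .v3))) (.M (.M .v3 .v4) .v5))
    [.v0, .v1, .v2, (.S .o .v0), (.S (.S (.A .o .v0) .v1) .v2), (.A (.A (.S (.D (.N (.n 7)) 18) .v0) .v1) .v2), (.S .v0 .v1), (.A (.N .v0) .v2), .v3, .v4, .v5, (.S .o .v3), (.S (.S (.A .o .v3) .v4) .v5), (.A (.A (.S (.D (.N (.n 7)) 18) .v3) .v4) .v5), (.A (.N .v3) .v4), (.A (.N .v3) .v5), .v4, (.S (.D (.n 27) 98) .v4), (.S .v0 .v4), (.A (.A (.S (.S (.D (.n 2) 13) .v4) (.P .v0)) (.M .v0 .v4)) (.M (.D .o 1) (.Q .v0)))]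
    ⟨cw, cA, cB, cw1, cT, cT2, ck1, ck2, dw, dA, dB, dw1, dT, dT2, dk1, dk2, dA, m2, m3, m5, trivial⟩
    199999999 72 0x50000000000000000f49c6450010520000000000000000f1d1078048208000000000000000003e8dac120420000000000000000025e5a9014108000000000000014c9c7a4100010f000000000000000024f165c03cb3c0000000000000000ce6c3d00b2cf00000000000000001b1bb2800cb3c00000000000000000b03d30002cf0000000000000001d386e3c040820000000000000000132fcde00f208000000000000000049fe42c004820000000000000000ba59d750002080000000000000018eff18d0049218000000000000000000000f182106000000000000000268885620004180000000000000000e597064031460000000000000000005e4ca0045180000000000000000ba9fe1000146000000000000000140325e100123800000000000000000a565e5003ce0000000000000000eed5347000d38000000000000000010719840030e0000000000000001092ecf70008380000000000000000091cc380010e00000000000000001f2fdb30382380000000000000000001a5e00108e0000000000000000175d991048b28000000000000000002124600a20a000000000000000022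cc14c0005280000000000000000f09cae00e0ca0000000000000000002a1d404cf2800000000000000001cc0d70003ca0000000000000001bb3e7580484280000000000000000005d6240510a000000000000000021de0b4010428000000000000017eeca8ea00010a0000000000000004f666c7402d2240000000000000005930dce400489000000000000000000cce5204102400000000000000005a8d2700240900000000000000000842de402892400000000000000003311bb009249000000000000002e72ce05403cf2400000000000000000e04de0033c90000000000000000035370c000f24000000000000009ca0aa180102090000000000000000264d4c403c8240000000000000000c01e2100920900000000000000003d39d400008240000000000000000f50bef00030700000000000000011dda19c000a1c0000000000000000247a6101324700000000000000000a95f6000071c000000000000010103f2350101870000000000000000011a70b00051c0000000000000006bfea3100d2c700000000000000000453c9c01cb1c0000000000000003d3c1df0002c7000000000000000050dc12c02881c00000000000000001c52fa008207000000000000000025cd1fc00c81c0000000000000000aca9a90100470000000000000000d65cb5801011c00000000000000e7b704f2000047000000000000001d37adf9402c21c0000000000000006db86100090870000000000000000a78c74c01c21c00000000000000b9540eb600508700000000000000007a8f1f401021c000000000000017487e89200000700000000000000091a3b4e80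 12 0x8080801c809ccf3480804c000000000000000000020d020202016e02ff90d94a00d0000000000000000000034808080808b887b82c7e43f10000000000000000000c495f2020200f12525ab939191200000000000000000000004e80808045c978c193e46314000000000000000000031fb2020200e145457793918450000000000000000000273e4808080d8aaba1cce6e790800000000000000000005b1d20202037dfaccb1ec7200800000000000000000000fca8808080e19f638a1c67802000000000000000000000f3c20202035e0f9319e5689860000000000000000000002eb8080809e1c80cb7e7e8038000000000000000000000aca020201fe01ec721b8a009000000000000000000050730 (by decide +kernel)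

theorem cc_i1010 {w A B x E F : ℝ} (cw : 0 ≤ w) (cA : 0 ≤ A) (cB : 0 ≤ B) (cw1 : 0 ≤ 1 - w) (cT : 0 ≤ 1 + w - A - B) (cT2 : 0 ≤ -9 / 20 - w + A + B) (ck1 : 0 ≤ w - A) (ck2 : 0 ≤ -w + B) (dw : 0 ≤ x) (dA : 0 ≤ E) (dB : 0 ≤ F) (dw1 : 0 ≤ 1 - x) (dT : 0 ≤ 1 + x - E - F) (dT2 : 0 ≤ -9 / 20 - x + E + F) (dk1 : 0 ≤ x - E) (dk2 : 0 ≤ -x + F) (m1 : 0 ≤ E) (m2 : 0 ≤ 29 / 100 - E) (m3 : 0 ≤ w - E) (m5 : 0 ≤ 4 / 15 - E - w ^ 2 + w * E + 1 / 3 * w ^ 3) :
    0 ≤ -41 / 750 - 29 / 100 * w + 29 / 100 * B - 2 / 25 * x + 21 / 40 * E + 41 / 200 * F + w ^ 2 - w * E - 1 / 3 * w ^ 3 + w ^ 2 * A - w * A ^ 2 - w * A * B + 1 / 3 * A ^ 3 + x ^ 2 * E - x * E ^ 2 - x * E * F + 1 / 3 * E ^ 3 := by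
  exact finE (yv_nonneg cw cA cB dw dA dB (le_refl 0) (le_refl 0) (le_refl 0)) .z (.A (.S (.S (.A (.A (.S (.S (.A (.S (.S (.A (.A (.A (.S (.A (.S (.D (.N (.n 39)) 748) (.M (.D (.n 27) 98) .v0)) (.M (.D (.n 27) 98) .v2)) (.M (.D (.n 0) 23) .v3)) (.M (.D (.n 19) 38) .v4)) (.M (.D (.n 39) 198) .v5)) (.P .v0)) (.M .v0 .v4)) (.M (.D .o 1) (.Q .v0))) (.M (.P .v0) .v1)) (.M .v0 (.P .v1))) (.M (.M .v0 .v1) .v2)) (.M (.D .o 1) (.Q .v1))) (.M (.P .v3) .v4)) (.M .v3 (.P .v4))) (.M (.M .v3 .v4) .v5)) (.M (.D .o 1) (.Q .v4)))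
    [.v0, .v1, .v2, (.S .o .v0), (.S (.S (.A .o .v0) .v1) .v2), (.A (.A (.S (.D (.N (.n 7)) 18) .v0) .v1) .v2), (.S .v0 .v1), (.A (.N .v0) .v2), .v3, .v4, .v5, (.S .o .v3), (.S (.S (.A .o .v3) .v4) .v5), (.A (.A (.S (.D (.N (.n 7)) 18) .v3) .v4) .v5), (.S .v3 .v4), (.A (.N .v3) .v5), .v4, (.S (.D (.n 27) 98) .v4), (.S .v0 .v4), (.A (.A (.S (.S (.D (.n 2) 13) .v4) (.P .v0)) (.M .v0 .v4)) (.M (.D .o 1) (.Q .v0)))]
    ⟨cw, cA, cB, cw1, cT, cT2, ck1, ck2, dw, dA, dB, dw1, dT, dT2, dk1, dk2, dA, m2, m3, m5, trivial⟩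
    999999999 65 0x140000000000000017f0004f8040620000000000000000041722680e048000000000000000056d74af02882000000000000006b7500fe200920800000000000000101282358018210000000000000001fe64a1180a2040000000000000087b4afb900248100000000000000003c64f7d00a104000000000000008ccfa330c0184100000000000000006a7186e80f28d0000000000000070f5ca1a004ce340000000000000002ba0dc840f38d00000000000000019382f3400ce340000000000000001ed622700d24d00000000000000109a3a78c0289340000000000000093fa16f100424d00000000000000233c44d7c04cf140000000000000048210ac8000285000000000000002a7abf8c002c6140000000000000000b3074c8001850000000000000006c86f6f70181140000000000000000ce10af8020450000000000000017f1bdde00041140000000000000471f815e500a10c0000000000000118e3576b4034f300000000000000008948ce50003cc000000000000000e148802803c93000000000000000065d5a4200824c0000000000000003b914098014930000000000000004895a0f900d38c0000000000000000f94fb33028e30000000000000000581ce08c0538c0000000000000000fdca65e004e3000000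00000000003c6ab0a80038c0000000000000006130be3703cc480000000000000003842f6340e092000000000000000004f27ea8206480000000000000000aec2b5600192000000000000000010f6fcb04ca48000000000000000726f80700f29200000000000000010731c6f02ca48000000000000000186c9810132520000000000000000ec4c8dc038948000000000000000135975f0062520000000000000000000305700894800000000000000026ffd360012520000000000000000db9e88c048f1c0000000000000000d793fd0044c70000000000000127f84abd400131c00000000000002684c8a8201038700000000000000008a46dd6028e1c00000000000000002bb3be8061470000000000000001a93155b00051c00000000000000c2cd0f7e00d0c70000000000000032daba30802831c0000000000000252a04d63012047000000000000000487d481002011c00000000000003b1dc881301030700000000000000051dcfe3c02cc1c0000000000000032c9eb36000307000000000000002683cce3003421c00000000000000c0236bfb00708700000000000000f5124ca3801421c0000000000000096f5fb9500408700000000000000e63748dc80 19 0x20202027870ab54c7813cb000000000000000000318b34808080b22d2de4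8888380c000000000000000000934ef202020070d351b9d766cc2000000000000000000729b10808080be4655ab1cbe45180000000000000000001f9c0a0202013b674a926e54706000000000000000000038883808080ad8080e48080392000000000000000000005f37202020222164dc71b915840000000000000000009953f4808080537872919ae480100000000000000000040bf9620202028a6792cc99d1c8d00000000000000000004ce788080803154545fe4e46f34000000000000000000194e220202015a619d0f7b9234500000000000000000096c28880808092347493e4a94514000000000000000008ef431202020221c99e228b9174c000000000000000000b73018808080a4c4351ee4d2804800000000000000000019bce60202025aaf29f4718e3520000000000000000000180f3808080b27faab684e44b4800000000000000000002c38a02020168737da71f123520000000000000000000a4a9f808080e4d2cf469b62801c0000000000000000010a6fd2020201ed696dfdab91c000000000000000000001d21d0 (by decide +kernel)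

theorem cc_i1100 {w A B x E F : ℝ} (cw : 0 ≤ w) (cA : 0 ≤ A) (cB : 0 ≤ B) (cw1 : 0 ≤ 1 - w) (cT : 0 ≤ 1 + w - A - B) (cT2 : 0 ≤ -9 / 20 - w + A + B) (ck1 : 0 ≤ w - A) (ck2 : 0 ≤ w - B) (dw : 0 ≤ x) (dA : 0 ≤ E) (dB : 0 ≤ F) (dw1 : 0 ≤ 1 - x) (dT : 0 ≤ 1 + x - E - F) (dT2 : 0 ≤ -9 / 20 - x + E + F) (dk1 : 0 ≤ -x + E) (dk2 : 0 ≤ -x + F) (m1 : 0 ≤ E) (m2 : 0 ≤ 29 / 100 - E) (m3 : 0 ≤ w - E) (m5 : 0 ≤ 4 / 15 - E - w ^ 2 + w * E + 1 / 3 * w ^ 3) :
    0 ≤ -41 / 750 - 29 / 100 * w + 29 / 100 * B - 2 / 25 * x + 21 / 40 * E + 41 / 200 * F + w ^ 2 - w * E - 2 / 3 * w ^ 3 + w ^ 2 * A + w ^ 2 * B - w * A ^ 2 - w * A * B - w * B ^ 2 + 1 / 3 * A ^ 3 + 1 / 3 * B ^ 3 + 1 / 3 * x ^ 3 - x * E * F := by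
  exact finE (yv_nonneg cw cA cB dw dA dB (le_refl 0) (le_refl 0) (le_refl 0)) .z (.S (.A (.A (.A (.S (.S (.S (.A (.A (.S (.S (.A (.A (.A (.S (.A (.S (.D (.N (.n 39)) 748) (.M (.D (.n 27) 98) .v0)) (.M (.D (.n 27) 98) .v2)) (.M (.D (.n 0) 23) .v3)) (.M (.D (.n 19) 38) .v4)) (.M (.D (.n 39) 198) .v5)) (.P .v0)) (.M .v0 .v4)) (.M (.D (.n 0) 1) (.Q .v0))) (.M (.P .v0) .v1)) (.M (.P .v0) .v2)) (.M .v0 (.P .v1))) (.M (.M .v0 .v1) .v2)) (.M .v0 (.P .v2))) (.M (.D .o 1) (.Q .v1))) (.M (.D .o 1) (.Q .v2))) (.M (.D .o 1) (.Q .v3))) (.M (.M .v3 .v4) .v5))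
    [.v0, .v1, .v2, (.S .o .v0), (.S (.S (.A .o .v0) .v1) .v2), (.A (.A (.S (.D (.N (.n 7)) 18) .v0) .v1) .v2), (.S .v0 .v1), (.S .v0 .v2), .v3, .v4, .v5, (.S .o .v3), (.S (.S (.A .o .v3) .v4) .v5), (.A (.A (.S (.D (.N (.n 7)) 18) .v3) .v4) .v5), (.A (.N .v3) .v4), (.A (.N .v3) .v5), .v4, (.S (.D (.n 27) 98) .v4), (.S .v0 .v4), (.A (.A (.S (.S (.D (.n 2) 13) .v4) (.P .v0)) (.M .v0 .v4)) (.M (.D .o 1) (.Q .v0)))]
    ⟨cw, cA, cB, cw1, cT, cT2, ck1, ck2, dw, dA, dB, dw1, dT, dT2, dk1, dk2, dA, m2, m3, m5, trivial⟩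
    999999999 75 0x140000000000000015724779804ca48000000000000000001a34fc020520000000000000000087a41f001320000000000000089776e801000208000000000000000304d57580002200000000000000012eaff2100048600000000000000002231b920008180000000000000015c056628001460000000000000003bbbe1ae040218000000000000000000c042c003ce00000000000000003c59862000d3800000000000000010fc2ec40030e000000000000000532602c0000838000000000000000038ca9301308e00000000000000001a3ff8800823800000000000000000f29d60003c40000000000000005b84eabc000a10000000000000070bc361c8008044000000000000010c5a868280086100000000000000042c2e48e000184000000000000000269eb1a7000f2400000000000001c552f5690003490000000000000008da1be6c02082400000000000000014be0f001048900000000000000000012c4b0052240000000000000000111db6c00489000000000000000005182b303492400000000000000000a037a00924900000000000000e8cfc1d78004924000000000000000456cacb0103c3000000000000000004a62f801840c00000000000000440827c44090c300000000000000000280de804080c00000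00000000000af3cd70052030000000000000074689806c02520c0000000000000000058014c024830000000000000000002848800120c000000000000000b162454c1338300000000000000000536619048e0c00000000000000000014b0e0d3830000000000000000003938700ce0c00000000000000001a248141324b0000000000000009f7acc2802862c000000000000000010cefa8033cb000000000000000001f78a4000f2c0000000000000185eff3a400a20b0000000000000000d4c9e0801882c000000000000000011861580020b0000000000000000149048402922c0000000000000000007704c0948b0000000000000006e285bfe01522c00000000000000000b7cac80048b0000000000000000e6238ed04c22c0000000000000010a4c74700f08b000000000000000007b062403822c00000000000000010e4b8e80608b0000000000000000041cdb400121c000000000000000a5ce05a4002c7000000000000000211d360403c71c00000000000000015476340000c7000000000000021b9d4642801011c000000000000046e4fd0d600d2870000000000000001a2f607402ca1c0000000000000009e794e30050870000000000000074689806c00021c00000000000001a77428d800d4c700000000000000003a4b18800d31c0000000000000004d840e20004c7000000000000000eae21e8c04d01c0000000000000008b4bca40104070000000000000005497152c02901c00000000000000064a0a6900940700000000000000054779c8800901c00000000000000028dbe660004070000000000000000066ff300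 8 0x808080869ab28d8368804c00000000000000000002a302020203927e335d15fa00f000000000000000000000bb8808080e4a9bf2a7c7e823400000000000000000000258202020072c64e12190a00d0000000000000000000002588080808271819b9ee4804800000000000000000001dbd6020202020201fe06020060000000000000005d21e7d50808080577067c1c5e44a10000000000000000001313ca2020202e9be5307938600400000000000000000040fd1c (by decide +kernel)

theorem cc_i1110 {w A B x E F : ℝ} (cw : 0 ≤ w) (cA : 0 ≤ A) (cB : 0 ≤ B) (cw1 : 0 ≤ 1 - w) (cT : 0 ≤ 1 + w - A - B) (cT2 : 0 ≤ -9 / 20 - w + A + B) (ck1 : 0 ≤ w - A) (ck2 : 0 ≤ w - B) (dw : 0 ≤ x) (dA : 0 ≤ E) (dB : 0 ≤ F) (dw1 : 0 ≤ 1 - x) (dT : 0 ≤ 1 + x - E - F) (dT2 : 0 ≤ -9 / 20 - x + E + F) (dk1 : 0 ≤ x - E) (dk2 : 0 ≤ -x + F) (m1 : 0 ≤ E) (m2 : 0 ≤ 29 / 100 - E) (m3 : 0 ≤ w - E) (m5 : 0 ≤ 4 / 15 - E - w ^ 2 + w * E + 1 / 3 * w ^ 3) :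
    0 ≤ -41 / 750 - 29 / 100 * w + 29 / 100 * B - 2 / 25 * x + 21 / 40 * E + 41 / 200 * F + w ^ 2 - w * E - 2 / 3 * w ^ 3 + w ^ 2 * A + w ^ 2 * B - w * A ^ 2 - w * A * B - w * B ^ 2 + 1 / 3 * A ^ 3 + 1 / 3 * B ^ 3 + x ^ 2 * E - x * E ^ 2 - x * E * F + 1 / 3 * E ^ 3 := by
  exact finE (yv_nonneg cw cA cB dw dA dB (le_refl 0) (le_refl 0) (le_refl 0)) .z (.A (.S (.S (.A (.A (.A (.S (.S (.S (.A (.A (.S (.S (.A (.A (.A (.S (.A (.S (.D (.N (.n 39)) 748) (.M (.D (.n 27) 98) .v0)) (.M (.D (.n 27) 98) .v2)) (.M (.D (.n 0) 23) .v3)) (.M (.D (.n 19) 38) .v4)) (.M (.D (.n 39) 198) .v5)) (.P .v0)) (.M .v0 .v4)) (.M (.D (.n 0) 1) (.Q .v0))) (.M (.P .v0) .v1)) (.M (.P .v0) .v2)) (.M .v0 (.P .v1))) (.M (.M .v0 .v1) .v2)) (.M .v0 (.P .v2))) (.M (.D .o 1) (.Q .v1))) (.M (.D .o 1) (.Q .v2))) (.M (.P .v3) .v4)) (.M .v3 (.P .v4))) (.M (.M .v3 .v4) .v5)) (.M (.D .o 1) (.Q .v4)))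
    [.v0, .v1, .v2, (.S .o .v0), (.S (.S (.A .o .v0) .v1) .v2), (.A (.A (.S (.D (.N (.n 7)) 18) .v0) .v1) .v2), (.S .v0 .v1), (.S .v0 .v2), .v3, .v4, .v5, (.S .o .v3), (.S (.S (.A .o .v3) .v4) .v5), (.A (.A (.S (.D (.N (.n 7)) 18) .v3) .v4) .v5), (.S .v3 .v4), (.A (.N .v3) .v5), .v4, (.S (.D (.n 27) 98) .v4), (.S .v0 .v4), (.A (.A (.S (.S (.D (.n 2) 13) .v4) (.P .v0)) (.M .v0 .v4)) (.M (.D .o 1) (.Q .v0)))]
    ⟨cw, cA, cB, cw1, cT, cT2, ck1, ck2, dw, dA, dB, dw1, dT, dT2, dk1, dk2, dA, m2, m3, m5, trivial⟩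
    9999999 66 0x500000000000000000fcecc78102860000000000000000000005dc00e1000000000000000000007530002840000000000000000e7b579700041000000000000000017cd681c0608400000000000000001dce18b004110000000000000000e41244c4130c4000000000000000000057e401831000000000000000007739f130a24800000000000000000005f370006200000000000000000edaf521104c800000000000000000003a98001320000000000000000d91c854806208000000000000000000000bb810820000000000000000000107ac03208000000000000000254004b4000820000000000000000940ed5000f3cc00000000000000000002bf2000e3000000000000000004941efd0024c00000000000000000028488000830000000000000000000f1b300018c0000000000000000000470b838a30000000000000000000041eb0028c00000000000000014457ebe001348000000000000000006e95470021200000000000000000dddc3d80064800000000000000000482955cb152000000000000000000000f3c0c348000000000000000000002a3020920000000000000000000005dc001480000000000000000031486813292000000000000000000000a8c3ca48000000000000000017d72001025200000000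0000000005f5b09038948000000000000000001553bc8025200000000000000000502ba2000e34000000000000000000031ce0f28d00000000000000000002bf200063400000000000000000002ee0000cd000000000000000000007530082340000000000000000000afc81004d00000000000000000003a98038934000000000000000000004650a24d00000000000000020d8a93004083400000000000000000003a980f20d00000000000000000000ea600883400000000000000000007530004c7000000000000000375b6b4d00121c000000000000000036c5f131034700000000000000000000753000c1c000000000000000000f90600a24700000000000000000000ea600061c000000000000000004fb5460f04700000000000000000000ea602041c00000000000000094fcde80071070000000000000000000509102831c0000000000000000000927c000c700000000000000023eee76f034b1c000000000000000000075300a2c7000000000000000000015f901cb1c00000000000000000003a98032c70000000000000000000249f03c21c0000000000000000000cd140908700000000000000000002bf201c21c0000000000000009500a54c0008700000000000000023b4481c0 15 0x20202008e03930a209a011000000000000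0000000000278080805be4e45b5b5b802800000000000000000000000e02020209c792fcb6020050000000000000000000000038080805b5b5be45be4800c00000000000000000000003202020141414307079200100000000000000000000000f8080808080807f818080180000000000000000000101d20202008ef24872db4e008000000000000000000000003808080d1cf8697551c803000000000000000000000000e020202ca4a058dbaae00c00000000000000000000002480808054e48037a969803000000000000000000000001a02020393272793939200c00000000000000000000001b8080808181818181818034000000000000000000057e4202020071868960fb3200d00000000000000000000001280808085cbae1c7c7b803400000000000000000000000e020201ea0a1e01af9200d000000000000000000000015 (by decide +kernel)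

end Pool.Agent.Helper92.TS
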