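import Pool.Agent.Helper92.TS.RpCCi
import Pool.Agent.Helper92.TS.RpCCv
import Pool.Agent.Helper92.TS.RpCCm
import Pool.Agent.Helper92.TS.RpAA

/-!
# `OL2Brp`: the case `CC`, in real variables
-/

set_option autoImplicit false

namespace Pool.Agent.Helper92.TS

open Pool.Agent.Helper74.TS Pool.Agent.Helper32.TS

section

variable {w A B x E F : ℝ}

theorem ccr_i (c : Cell3 w A B) (d : Cell3 x E F) (t1 : 9 / 20 ≤ A + B - w)
    (t2 : 9 / 20 ≤ E + F - x) (m2 : E ≤ 29 / 100) (m3 : E ≤ w)
    (hf : 2 / 5 ≤ (1 - E) * (1 - w) - (1 - w) ^ 3 / 3) :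
    vl w A B + vl x E F + ((1 - E) * (1 - w) - (1 - w) ^ 3 / 3) ≤
      -(27 / 250) + 29 / 100 * (A + B - w) + 29 / 100 * (1 - A) -
        1 / 8 * (1 - F) + 2 / 25 * (E + F - x) + 111 / 200 * (1 - E) := by
  obtain ⟨c1, c2, c3, c4, c5, c6⟩ := c
  obtain ⟨e1, e2, e3, e4, e5, e6⟩ := d
  unfold vl
  have cw : 0 ≤ w := by linarith
  have cA : 0 ≤ A := by linarith
  have cB : 0 ≤ B := by linarith
  have cw1 : 0 ≤ 1 - w := by linarith
  have cT : 0 ≤ 1 + w - A - B := by linarith
  have cT2 : 0 ≤ -9 / 20 - w + A + B := by linarith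
  have dw : 0 ≤ x := by linarith
  have dA : 0 ≤ E := by linarith
  have dB : 0 ≤ F := by linarith
  have dw1 : 0 ≤ 1 - x := by linarith
  have dT : 0 ≤ 1 + x - E - F := by linarith
  have dT2 : 0 ≤ -9 / 20 - x + E + F := by linarith
  have m1 : 0 ≤ E := by linarith
  have m2 : 0 ≤ 29 / 100 - E := by linarith
  have m3 : 0 ≤ w - E := by linarith
  have m5 : 0 ≤ 4 / 15 - E - w ^ 2 + w * E + 1 / 3 * w ^ 3 := by linarith
  rcases le_total w A with k1 | k1 <;> rcases le_total w B with k2 | k2 <;>
    rcases le_total x E with k3 | k3 <;> rcases le_total x F with k4 | k4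
  · rw [max_eq_right (by linarith only [k1] : w - A ≤ 0), max_eq_right (by linarith only [k2] : w - B ≤ 0),
      max_eq_right (by linarith only [k3] : x - E ≤ 0), max_eq_right (by linarith only [k4] : x - F ≤ 0)]
    have := cc_i0000 (w := w) (A := A) (B := B) (x := x) (E := E) (F := F)
      cw cA cB cw1 cT cT2 (by linarith only [k1]) (by linarith only [k2]) dw dA dB dw1 dT dT2 (by linarith only [k3]) (by linarith only [k4]) m1 m2 m3 m5
    linarith only [this]
  · exfalso
    linarith only [cw, cA, cB, cw1, cT, cT2, dw, dA, dB, dw1, dT, dT2, m1, m2, m3, k1, k2, k3, k4]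
  · rw [max_eq_right (by linarith only [k1] : w - A ≤ 0), max_eq_right (by linarith only [k2] : w - B ≤ 0),
      max_eq_left (by linarith only [k3] : 0 ≤ x - E), max_eq_right (by linarith only [k4] : x - F ≤ 0)]
    have := cc_i0010 (w := w) (A := A) (B := B) (x := x) (E := E) (F := F)
      cw cA cB cw1 cT cT2 (by linarith only [k1]) (by linarith only [k2]) dw dA dB dw1 dT dT2 (by linarith only [k3]) (by linarith only [k4]) m1 m2 m3 m5
    linarith only [this]
  · exfalso
    linarith only [cw, cA, cB, cw1, cT, cT2, dw, dA, dB, dw1, dT, dT2, m1, m2, m3, k1, k2, k3, k4]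
  · rw [max_eq_right (by linarith only [k1] : w - A ≤ 0), max_eq_left (by linarith only [k2] : 0 ≤ w - B),
      max_eq_right (by linarith only [k3] : x - E ≤ 0), max_eq_right (by linarith only [k4] : x - F ≤ 0)]
    have := cc_i0100 (w := w) (A := A) (B := B) (x := x) (E := E) (F := F)
      cw cA cB cw1 cT cT2 (by linarith only [k1]) (by linarith only [k2]) dw dA dB dw1 dT dT2 (by linarith only [k3]) (by linarith only [k4]) m1 m2 m3 m5
    linarith only [this]
  · exfalso
    linarith only [cw, cA, cB, cw1, cT, cT2, dw, dA, dB, dw1, dT, dT2, m1, m2, m3, k1, k2, k3, k4]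
  · rw [max_eq_right (by linarith only [k1] : w - A ≤ 0), max_eq_left (by linarith only [k2] : 0 ≤ w - B),
      max_eq_left (by linarith only [k3] : 0 ≤ x - E), max_eq_right (by linarith only [k4] : x - F ≤ 0)]
    have := cc_i0110 (w := w) (A := A) (B := B) (x := x) (E := E) (F := F)
      cw cA cB cw1 cT cT2 (by linarith only [k1]) (by linarith only [k2]) dw dA dB dw1 dT dT2 (by linarith only [k3]) (by linarith only [k4]) m1 m2 m3 m5
    linarith only [this]
  · exfalso
    linarith only [cw, cA, cB, cw1, cT, cT2, dw, dA, dB, dw1, dT, dT2, m1, m2, m3, k1, k2, k3, k4]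
  · rw [max_eq_left (by linarith only [k1] : 0 ≤ w - A), max_eq_right (by linarith only [k2] : w - B ≤ 0),
      max_eq_right (by linarith only [k3] : x - E ≤ 0), max_eq_right (by linarith only [k4] : x - F ≤ 0)]
    have := cc_i1000 (w := w) (A := A) (B := B) (x := x) (E := E) (F := F)
      cw cA cB cw1 cT cT2 (by linarith only [k1]) (by linarith only [k2]) dw dA dB dw1 dT dT2 (by linarith only [k3]) (by linarith only [k4]) m1 m2 m3 m5
    linarith only [this]
  · exfalso
    linarith only [cw, cA, cB, cw1, cT, cT2, dw, dA, dB, dw1, dT, dT2, m1, m2, m3, k1, k2, k3, k4]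
  · rw [max_eq_left (by linarith only [k1] : 0 ≤ w - A), max_eq_right (by linarith only [k2] : w - B ≤ 0),
      max_eq_left (by linarith only [k3] : 0 ≤ x - E), max_eq_right (by linarith only [k4] : x - F ≤ 0)]
    have := cc_i1010 (w := w) (A := A) (B := B) (x := x) (E := E) (F := F)
      cw cA cB cw1 cT cT2 (by linarith only [k1]) (by linarith only [k2]) dw dA dB dw1 dT dT2 (by linarith only [k3]) (by linarith only [k4]) m1 m2 m3 m5
    linarith only [this]
  · exfalso
    linarith only [cw, cA, cB, cw1, cT, cT2, dw, dA, dB, dw1, dT, dT2, m1, m2, m3, k1, k2, k3, k4]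
  · rw [max_eq_left (by linarith only [k1] : 0 ≤ w - A), max_eq_left (by linarith only [k2] : 0 ≤ w - B),
      max_eq_right (by linarith only [k3] : x - E ≤ 0), max_eq_right (by linarith only [k4] : x - F ≤ 0)]
    have := cc_i1100 (w := w) (A := A) (B := B) (x := x) (E := E) (F := F)
      cw cA cB cw1 cT cT2 (by linarith only [k1]) (by linarith only [k2]) dw dA dB dw1 dT dT2 (by linarith only [k3]) (by linarith only [k4]) m1 m2 m3 m5
    linarith only [this]
  · exfalso
    linarith only [cw, cA, cB, cw1, cT, cT2, dw, dA, dB, dw1, dT, dT2, m1, m2, m3, k1, k2, k3, k4]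
  · rw [max_eq_left (by linarith only [k1] : 0 ≤ w - A), max_eq_left (by linarith only [k2] : 0 ≤ w - B),
      max_eq_left (by linarith only [k3] : 0 ≤ x - E), max_eq_right (by linarith only [k4] : x - F ≤ 0)]
    have := cc_i1110 (w := w) (A := A) (B := B) (x := x) (E := E) (F := F)
      cw cA cB cw1 cT cT2 (by linarith only [k1]) (by linarith only [k2]) dw dA dB dw1 dT dT2 (by linarith only [k3]) (by linarith only [k4]) m1 m2 m3 m5
    linarith only [this]
  · exfalso
    linarith only [cw, cA, cB, cw1, cT, cT2, dw, dA, dB, dw1, dT, dT2, m1, m2, m3, k1, k2, k3, k4]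

theorem ccr_v (c : Cell3 w A B) (d : Cell3 x E F) (t1 : 9 / 20 ≤ A + B - w)
    (t2 : 9 / 20 ≤ E + F - x) (m2 : E ≤ 29 / 100) (m3 : w ≤ E) (m4 : 2 * (1 - w) ≤ 1 + (1 - E))
    (hf : 2 / 5 ≤ (1 - E) * (1 - w) * (1 + (1 - E) - (1 - w)) - (1 - E) ^ 3 / 3) :
    vl w A B + vl x E F + ((1 - E) * (1 - w) * (1 + (1 - E) - (1 - w)) - (1 - E) ^ 3 / 3) ≤
      -(27 / 250) + 29 / 100 * (A + B - w) + 29 / 100 * (1 - A) -
        1 / 8 * (1 - F) + 2 / 25 * (E + F - x) + 111 / 200 * (1 - E) := by
  obtain ⟨c1, c2, c3, c4, c5, c6⟩ := c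
  obtain ⟨e1, e2, e3, e4, e5, e6⟩ := d
  unfold vl
  have cw : 0 ≤ w := by linarith
  have cA : 0 ≤ A := by linarith
  have cB : 0 ≤ B := by linarith
  have cw1 : 0 ≤ 1 - w := by linarith
  have cT : 0 ≤ 1 + w - A - B := by linarith
  have cT2 : 0 ≤ -9 / 20 - w + A + B := by linarith
  have dw : 0 ≤ x := by linarith
  have dA : 0 ≤ E := by linarith
  have dB : 0 ≤ F := by linarith
  have dw1 : 0 ≤ 1 - x := by linarith
  have dT : 0 ≤ 1 + x - E - F := by linarith
  have dT2 : 0 ≤ -9 / 20 - x + E + F := by linarith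
  have m1 : 0 ≤ E := by linarith
  have m2 : 0 ≤ 29 / 100 - E := by linarith
  have m3 : 0 ≤ -w + E := by linarith
  have m4 : 0 ≤ 2 * w - E := by linarith
  have m5 : 0 ≤ 4 / 15 - E - w ^ 2 + w * E + w ^ 2 * E - w * E ^ 2 + 1 / 3 * E ^ 3 := by linarith
  rcases le_total w A with k1 | k1 <;> rcases le_total w B with k2 | k2 <;>
    rcases le_total x E with k3 | k3 <;> rcases le_total x F with k4 | k4
  · rw [max_eq_right (by linarith only [k1] : w - A ≤ 0), max_eq_right (by linarith only [k2] : w - B ≤ 0),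
      max_eq_right (by linarith only [k3] : x - E ≤ 0), max_eq_right (by linarith only [k4] : x - F ≤ 0)]
    have := cc_v0000 (w := w) (A := A) (B := B) (x := x) (E := E) (F := F)
      cw cA cB cw1 cT cT2 (by linarith only [k1]) (by linarith only [k2]) dw dA dB dw1 dT dT2 (by linarith only [k3]) (by linarith only [k4]) m1 m2 m3 m4 m5
    linarith only [this]
  · exfalso
    linarith only [cw, cA, cB, cw1, cT, cT2, dw, dA, dB, dw1, dT, dT2, m1, m2, m3, k1, k2, k3, k4]
  · rw [max_eq_right (by linarith only [k1] : w - A ≤ 0), max_eq_right (by linarith only [k2] : w - B ≤ 0),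
      max_eq_left (by linarith only [k3] : 0 ≤ x - E), max_eq_right (by linarith only [k4] : x - F ≤ 0)]
    have := cc_v0010 (w := w) (A := A) (B := B) (x := x) (E := E) (F := F)
      cw cA cB cw1 cT cT2 (by linarith only [k1]) (by linarith only [k2]) dw dA dB dw1 dT dT2 (by linarith only [k3]) (by linarith only [k4]) m1 m2 m3 m4 m5
    linarith only [this]
  · exfalso
    linarith only [cw, cA, cB, cw1, cT, cT2, dw, dA, dB, dw1, dT, dT2, m1, m2, m3, k1, k2, k3, k4]
  · rw [max_eq_right (by linarith only [k1] : w - A ≤ 0), max_eq_left (by linarith only [k2] : 0 ≤ w - B),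
      max_eq_right (by linarith only [k3] : x - E ≤ 0), max_eq_right (by linarith only [k4] : x - F ≤ 0)]
    have := cc_v0100 (w := w) (A := A) (B := B) (x := x) (E := E) (F := F)
      cw cA cB cw1 cT cT2 (by linarith only [k1]) (by linarith only [k2]) dw dA dB dw1 dT dT2 (by linarith only [k3]) (by linarith only [k4]) m1 m2 m3 m4 m5
    linarith only [this]
  · exfalso
    linarith only [cw, cA, cB, cw1, cT, cT2, dw, dA, dB, dw1, dT, dT2, m1, m2, m3, k1, k2, k3, k4]
  · rw [max_eq_right (by linarith only [k1] : w - A ≤ 0), max_eq_left (by linarith only [k2] : 0 ≤ w - B),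
      max_eq_left (by linarith only [k3] : 0 ≤ x - E), max_eq_right (by linarith only [k4] : x - F ≤ 0)]
    have := cc_v0110 (w := w) (A := A) (B := B) (x := x) (E := E) (F := F)
      cw cA cB cw1 cT cT2 (by linarith only [k1]) (by linarith only [k2]) dw dA dB dw1 dT dT2 (by linarith only [k3]) (by linarith only [k4]) m1 m2 m3 m4 m5
    linarith only [this]
  · exfalso
    linarith only [cw, cA, cB, cw1, cT, cT2, dw, dA, dB, dw1, dT, dT2, m1, m2, m3, k1, k2, k3, k4]
  · rw [max_eq_left (by linarith only [k1] : 0 ≤ w - A), max_eq_right (by linarith only [k2] : w - B ≤ 0),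
      max_eq_right (by linarith only [k3] : x - E ≤ 0), max_eq_right (by linarith only [k4] : x - F ≤ 0)]
    have := cc_v1000 (w := w) (A := A) (B := B) (x := x) (E := E) (F := F)
      cw cA cB cw1 cT cT2 (by linarith only [k1]) (by linarith only [k2]) dw dA dB dw1 dT dT2 (by linarith only [k3]) (by linarith only [k4]) m1 m2 m3 m4 m5
    linarith only [this]
  · exfalso
    linarith only [cw, cA, cB, cw1, cT, cT2, dw, dA, dB, dw1, dT, dT2, m1, m2, m3, k1, k2, k3, k4]
  · rw [max_eq_left (by linarith only [k1] : 0 ≤ w - A), max_eq_right (by linarith only [k2] : w - B ≤ 0),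
      max_eq_left (by linarith only [k3] : 0 ≤ x - E), max_eq_right (by linarith only [k4] : x - F ≤ 0)]
    have := cc_v1010 (w := w) (A := A) (B := B) (x := x) (E := E) (F := F)
      cw cA cB cw1 cT cT2 (by linarith only [k1]) (by linarith only [k2]) dw dA dB dw1 dT dT2 (by linarith only [k3]) (by linarith only [k4]) m1 m2 m3 m4 m5
    linarith only [this]
  · exfalso
    linarith only [cw, cA, cB, cw1, cT, cT2, dw, dA, dB, dw1, dT, dT2, m1, m2, m3, k1, k2, k3, k4]
  · exfalso
    linarith only [cw, cA, cB, cw1, cT, cT2, dw, dA, dB, dw1, dT, dT2, m1, m2, m3, k1, k2, k3, k4]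
  · exfalso
    linarith only [cw, cA, cB, cw1, cT, cT2, dw, dA, dB, dw1, dT, dT2, m1, m2, m3, k1, k2, k3, k4]
  · exfalso
    linarith only [cw, cA, cB, cw1, cT, cT2, dw, dA, dB, dw1, dT, dT2, m1, m2, m3, k1, k2, k3, k4]
  · exfalso
    linarith only [cw, cA, cB, cw1, cT, cT2, dw, dA, dB, dw1, dT, dT2, m1, m2, m3, k1, k2, k3, k4]

theorem ccr_x (c : Cell3 w A B) (d : Cell3 x E F) (t1 : 9 / 20 ≤ A + B - w)
    (t2 : 9 / 20 ≤ E + F - x) (m2 : E ≤ 29 / 100) (m3 : w ≤ E) (m4 : 1 + (1 - E) ≤ 2 * (1 - w))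
    (hf : 2 / 5 ≤ (1 - E) * (1 + (1 - E)) ^ 2 / 4 - (1 - E) ^ 3 / 3) :
    vl w A B + vl x E F + ((1 - E) * (1 + (1 - E)) ^ 2 / 4 - (1 - E) ^ 3 / 3) ≤
      -(27 / 250) + 29 / 100 * (A + B - w) + 29 / 100 * (1 - A) -
        1 / 8 * (1 - F) + 2 / 25 * (E + F - x) + 111 / 200 * (1 - E) := by
  obtain ⟨c1, c2, c3, c4, c5, c6⟩ := c
  obtain ⟨e1, e2, e3, e4, e5, e6⟩ := d
  unfold vl
  have cw : 0 ≤ w := by linarith
  have cA : 0 ≤ A := by linarith
  have cB : 0 ≤ B := by linarith
  have cw1 : 0 ≤ 1 - w := by linarith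
  have cT : 0 ≤ 1 + w - A - B := by linarith
  have cT2 : 0 ≤ -9 / 20 - w + A + B := by linarith
  have dw : 0 ≤ x := by linarith
  have dA : 0 ≤ E := by linarith
  have dB : 0 ≤ F := by linarith
  have dw1 : 0 ≤ 1 - x := by linarith
  have dT : 0 ≤ 1 + x - E - F := by linarith
  have dT2 : 0 ≤ -9 / 20 - x + E + F := by linarith
  have m1 : 0 ≤ E := by linarith
  have m2 : 0 ≤ 29 / 100 - E := by linarith
  have m3 : 0 ≤ -w + E := by linarith
  have m4 : 0 ≤ -2 * w + E := by linarith
  have m5 : 0 ≤ 4 / 15 - E + 1 / 4 * E ^ 2 + 1 / 12 * E ^ 3 := by linarith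
  rcases le_total w A with k1 | k1 <;> rcases le_total w B with k2 | k2 <;>
    rcases le_total x E with k3 | k3 <;> rcases le_total x F with k4 | k4
  · rw [max_eq_right (by linarith only [k1] : w - A ≤ 0), max_eq_right (by linarith only [k2] : w - B ≤ 0),
      max_eq_right (by linarith only [k3] : x - E ≤ 0), max_eq_right (by linarith only [k4] : x - F ≤ 0)]
    have := cc_x0000 (w := w) (A := A) (B := B) (x := x) (E := E) (F := F)
      cw cA cB cw1 cT cT2 (by linarith only [k1]) (by linarith only [k2]) dw dA dB dw1 dT dT2 (by linarith only [k3]) (by linarith only [k4]) m1 m2 m3 m4 m5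
    linarith only [this]
  · exfalso
    linarith only [cw, cA, cB, cw1, cT, cT2, dw, dA, dB, dw1, dT, dT2, m1, m2, m3, k1, k2, k3, k4]
  · rw [max_eq_right (by linarith only [k1] : w - A ≤ 0), max_eq_right (by linarith only [k2] : w - B ≤ 0),
      max_eq_left (by linarith only [k3] : 0 ≤ x - E), max_eq_right (by linarith only [k4] : x - F ≤ 0)]
    have := cc_x0010 (w := w) (A := A) (B := B) (x := x) (E := E) (F := F)
      cw cA cB cw1 cT cT2 (by linarith only [k1]) (by linarith only [k2]) dw dA dB dw1 dT dT2 (by linarith only [k3]) (by linarith only [k4]) m1 m2 m3 m4 m5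
    linarith only [this]
  · exfalso
    linarith only [cw, cA, cB, cw1, cT, cT2, dw, dA, dB, dw1, dT, dT2, m1, m2, m3, k1, k2, k3, k4]
  · rw [max_eq_right (by linarith only [k1] : w - A ≤ 0), max_eq_left (by linarith only [k2] : 0 ≤ w - B),
      max_eq_right (by linarith only [k3] : x - E ≤ 0), max_eq_right (by linarith only [k4] : x - F ≤ 0)]
    have := cc_x0100 (w := w) (A := A) (B := B) (x := x) (E := E) (F := F)
      cw cA cB cw1 cT cT2 (by linarith only [k1]) (by linarith only [k2]) dw dA dB dw1 dT dT2 (by linarith only [k3]) (by linarith only [k4]) m1 m2 m3 m4 m5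
    linarith only [this]
  · exfalso
    linarith only [cw, cA, cB, cw1, cT, cT2, dw, dA, dB, dw1, dT, dT2, m1, m2, m3, k1, k2, k3, k4]
  · rw [max_eq_right (by linarith only [k1] : w - A ≤ 0), max_eq_left (by linarith only [k2] : 0 ≤ w - B),
      max_eq_left (by linarith only [k3] : 0 ≤ x - E), max_eq_right (by linarith only [k4] : x - F ≤ 0)]
    have := cc_x0110 (w := w) (A := A) (B := B) (x := x) (E := E) (F := F)
      cw cA cB cw1 cT cT2 (by linarith only [k1]) (by linarith only [k2]) dw dA dB dw1 dT dT2 (by linarith only [k3]) (by linarith only [k4]) m1 m2 m3 m4 m5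
    linarith only [this]
  · exfalso
    linarith only [cw, cA, cB, cw1, cT, cT2, dw, dA, dB, dw1, dT, dT2, m1, m2, m3, k1, k2, k3, k4]
  · rw [max_eq_left (by linarith only [k1] : 0 ≤ w - A), max_eq_right (by linarith only [k2] : w - B ≤ 0),
      max_eq_right (by linarith only [k3] : x - E ≤ 0), max_eq_right (by linarith only [k4] : x - F ≤ 0)]
    have := cc_x1000 (w := w) (A := A) (B := B) (x := x) (E := E) (F := F)
      cw cA cB cw1 cT cT2 (by linarith only [k1]) (by linarith only [k2]) dw dA dB dw1 dT dT2 (by linarith only [k3]) (by linarith only [k4]) m1 m2 m3 m4 m5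
    linarith only [this]
  · exfalso
    linarith only [cw, cA, cB, cw1, cT, cT2, dw, dA, dB, dw1, dT, dT2, m1, m2, m3, k1, k2, k3, k4]
  · rw [max_eq_left (by linarith only [k1] : 0 ≤ w - A), max_eq_right (by linarith only [k2] : w - B ≤ 0),
      max_eq_left (by linarith only [k3] : 0 ≤ x - E), max_eq_right (by linarith only [k4] : x - F ≤ 0)]
    have := cc_x1010 (w := w) (A := A) (B := B) (x := x) (E := E) (F := F)
      cw cA cB cw1 cT cT2 (by linarith only [k1]) (by linarith only [k2]) dw dA dB dw1 dT dT2 (by linarith only [k3]) (by linarith only [k4]) m1 m2 m3 m4 m5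
    linarith only [this]
  · exfalso
    linarith only [cw, cA, cB, cw1, cT, cT2, dw, dA, dB, dw1, dT, dT2, m1, m2, m3, k1, k2, k3, k4]
  · exfalso
    linarith only [cw, cA, cB, cw1, cT, cT2, dw, dA, dB, dw1, dT, dT2, m1, m2, m3, k1, k2, k3, k4]
  · exfalso
    linarith only [cw, cA, cB, cw1, cT, cT2, dw, dA, dB, dw1, dT, dT2, m1, m2, m3, k1, k2, k3, k4]
  · exfalso
    linarith only [cw, cA, cB, cw1, cT, cT2, dw, dA, dB, dw1, dT, dT2, m1, m2, m3, k1, k2, k3, k4]
  · exfalso
    linarith only [cw, cA, cB, cw1, cT, cT2, dw, dA, dB, dw1, dT, dT2, m1, m2, m3, k1, k2, k3, k4]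

theorem ccmr_a (c : Cell3 w A B) (d : Cell3 x E F) (t1 : 9 / 20 ≤ A + B - w)
    (t2 : 9 / 20 ≤ E + F - x) (m1 : E ≤ 29 / 100) (m2 : w + x ≤ 29 / 100) (m3 : w + x ≤ E) :
    vl w A B + vl x E F + ((1 - E) * (1 + (1 - E)) ^ 2 / 4 - (1 - E) ^ 3 / 3 +
      (E - w - x) * (1 + E - w - x) / 6) ≤
      -(27 / 250) + 29 / 100 * (A + B - w) + 29 / 100 * (1 - A) -
        1 / 8 * (1 - F) + 2 / 25 * (E + F - x) + 111 / 200 * (1 - E) := by
  obtain ⟨c1, c2, c3, c4, c5, c6⟩ := c
  obtain ⟨e1, e2, e3, e4, e5, e6⟩ := d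
  unfold vl
  have cw : 0 ≤ w := by linarith
  have cA : 0 ≤ A := by linarith
  have cB : 0 ≤ B := by linarith
  have cw1 : 0 ≤ 1 - w := by linarith
  have cT : 0 ≤ 1 + w - A - B := by linarith
  have cT2 : 0 ≤ -9 / 20 - w + A + B := by linarith
  have dw : 0 ≤ x := by linarith
  have dA : 0 ≤ E := by linarith
  have dB : 0 ≤ F := by linarith
  have dw1 : 0 ≤ 1 - x := by linarith
  have dT : 0 ≤ 1 + x - E - F := by linarith
  have dT2 : 0 ≤ -9 / 20 - x + E + F := by linarith
  have m1 : 0 ≤ 29 / 100 - E := by linarith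
  have m2 : 0 ≤ 29 / 100 - w - x := by linarith
  have m3 : 0 ≤ -w - x + E := by linarith
  rcases le_total w A with k1 | k1 <;> rcases le_total w B with k2 | k2 <;>
    rcases le_total x E with k3 | k3 <;> rcases le_total x F with k4 | k4
  · rw [max_eq_right (by linarith only [k1] : w - A ≤ 0), max_eq_right (by linarith only [k2] : w - B ≤ 0),
      max_eq_right (by linarith only [k3] : x - E ≤ 0), max_eq_right (by linarith only [k4] : x - F ≤ 0)]
    have := ccm_a0000 (w := w) (A := A) (B := B) (x := x) (E := E) (F := F)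
      cw cA cB cw1 cT cT2 (by linarith only [k1]) (by linarith only [k2]) dw dA dB dw1 dT dT2 (by linarith only [k3]) (by linarith only [k4]) m1 m2 m3
    linarith only [this]
  · exfalso
    linarith only [cw, cA, cB, cw1, cT, cT2, dw, dA, dB, dw1, dT, dT2, m1, m2, m3, k1, k2, k3, k4]
  · rw [max_eq_right (by linarith only [k1] : w - A ≤ 0), max_eq_right (by linarith only [k2] : w - B ≤ 0),
      max_eq_left (by linarith only [k3] : 0 ≤ x - E), max_eq_right (by linarith only [k4] : x - F ≤ 0)]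
    have := ccm_a0010 (w := w) (A := A) (B := B) (x := x) (E := E) (F := F)
      cw cA cB cw1 cT cT2 (by linarith only [k1]) (by linarith only [k2]) dw dA dB dw1 dT dT2 (by linarith only [k3]) (by linarith only [k4]) m1 m2 m3
    linarith only [this]
  · exfalso
    linarith only [cw, cA, cB, cw1, cT, cT2, dw, dA, dB, dw1, dT, dT2, m1, m2, m3, k1, k2, k3, k4]
  · rw [max_eq_right (by linarith only [k1] : w - A ≤ 0), max_eq_left (by linarith only [k2] : 0 ≤ w - B),
      max_eq_right (by linarith only [k3] : x - E ≤ 0), max_eq_right (by linarith only [k4] : x - F ≤ 0)]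
    have := ccm_a0100 (w := w) (A := A) (B := B) (x := x) (E := E) (F := F)
      cw cA cB cw1 cT cT2 (by linarith only [k1]) (by linarith only [k2]) dw dA dB dw1 dT dT2 (by linarith only [k3]) (by linarith only [k4]) m1 m2 m3
    linarith only [this]
  · exfalso
    linarith only [cw, cA, cB, cw1, cT, cT2, dw, dA, dB, dw1, dT, dT2, m1, m2, m3, k1, k2, k3, k4]
  · rw [max_eq_right (by linarith only [k1] : w - A ≤ 0), max_eq_left (by linarith only [k2] : 0 ≤ w - B),
      max_eq_left (by linarith only [k3] : 0 ≤ x - E), max_eq_right (by linarith only [k4] : x - F ≤ 0)]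
    have := ccm_a0110 (w := w) (A := A) (B := B) (x := x) (E := E) (F := F)
      cw cA cB cw1 cT cT2 (by linarith only [k1]) (by linarith only [k2]) dw dA dB dw1 dT dT2 (by linarith only [k3]) (by linarith only [k4]) m1 m2 m3
    linarith only [this]
  · exfalso
    linarith only [cw, cA, cB, cw1, cT, cT2, dw, dA, dB, dw1, dT, dT2, m1, m2, m3, k1, k2, k3, k4]
  · rw [max_eq_left (by linarith only [k1] : 0 ≤ w - A), max_eq_right (by linarith only [k2] : w - B ≤ 0),
      max_eq_right (by linarith only [k3] : x - E ≤ 0), max_eq_right (by linarith only [k4] : x - F ≤ 0)]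
    have := ccm_a1000 (w := w) (A := A) (B := B) (x := x) (E := E) (F := F)
      cw cA cB cw1 cT cT2 (by linarith only [k1]) (by linarith only [k2]) dw dA dB dw1 dT dT2 (by linarith only [k3]) (by linarith only [k4]) m1 m2 m3
    linarith only [this]
  · exfalso
    linarith only [cw, cA, cB, cw1, cT, cT2, dw, dA, dB, dw1, dT, dT2, m1, m2, m3, k1, k2, k3, k4]
  · rw [max_eq_left (by linarith only [k1] : 0 ≤ w - A), max_eq_right (by linarith only [k2] : w - B ≤ 0),
      max_eq_left (by linarith only [k3] : 0 ≤ x - E), max_eq_right (by linarith only [k4] : x - F ≤ 0)]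
    have := ccm_a1010 (w := w) (A := A) (B := B) (x := x) (E := E) (F := F)
      cw cA cB cw1 cT cT2 (by linarith only [k1]) (by linarith only [k2]) dw dA dB dw1 dT dT2 (by linarith only [k3]) (by linarith only [k4]) m1 m2 m3
    linarith only [this]
  · exfalso
    linarith only [cw, cA, cB, cw1, cT, cT2, dw, dA, dB, dw1, dT, dT2, m1, m2, m3, k1, k2, k3, k4]
  · exfalso
    linarith only [cw, cA, cB, cw1, cT, cT2, dw, dA, dB, dw1, dT, dT2, m1, m2, m3, k1, k2, k3, k4]
  · exfalso
    linarith only [cw, cA, cB, cw1, cT, cT2, dw, dA, dB, dw1, dT, dT2, m1, m2, m3, k1, k2, k3, k4]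
  · exfalso
    linarith only [cw, cA, cB, cw1, cT, cT2, dw, dA, dB, dw1, dT, dT2, m1, m2, m3, k1, k2, k3, k4]
  · exfalso
    linarith only [cw, cA, cB, cw1, cT, cT2, dw, dA, dB, dw1, dT, dT2, m1, m2, m3, k1, k2, k3, k4]

theorem ccmr_b (c : Cell3 w A B) (d : Cell3 x E F) (t1 : 9 / 20 ≤ A + B - w)
    (t2 : 9 / 20 ≤ E + F - x) (m1 : E ≤ 29 / 100) (m2 : w + x ≤ 29 / 100) (m3 : E ≤ w + x) :
    vl w A B + vl x E F + ((1 - w - x) * (1 + (1 - w - x)) ^ 2 / 4 - (1 - w - x) ^ 3 / 3) ≤
      -(27 / 250) + 29 / 100 * (A + B - w) + 29 / 100 * (1 - A) -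
        1 / 8 * (1 - F) + 2 / 25 * (E + F - x) + 111 / 200 * (1 - E) := by
  obtain ⟨c1, c2, c3, c4, c5, c6⟩ := c
  obtain ⟨e1, e2, e3, e4, e5, e6⟩ := d
  unfold vl
  have cw : 0 ≤ w := by linarith
  have cA : 0 ≤ A := by linarith
  have cB : 0 ≤ B := by linarith
  have cw1 : 0 ≤ 1 - w := by linarith
  have cT : 0 ≤ 1 + w - A - B := by linarith
  have cT2 : 0 ≤ -9 / 20 - w + A + B := by linarith
  have dw : 0 ≤ x := by linarith
  have dA : 0 ≤ E := by linarith
  have dB : 0 ≤ F := by linarith
  have dw1 : 0 ≤ 1 - x := by linarith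
  have dT : 0 ≤ 1 + x - E - F := by linarith
  have dT2 : 0 ≤ -9 / 20 - x + E + F := by linarith
  have m1 : 0 ≤ 29 / 100 - E := by linarith
  have m2 : 0 ≤ 29 / 100 - w - x := by linarith
  have m3 : 0 ≤ w + x - E := by linarith
  rcases le_total w A with k1 | k1 <;> rcases le_total w B with k2 | k2 <;>
    rcases le_total x E with k3 | k3 <;> rcases le_total x F with k4 | k4
  · rw [max_eq_right (by linarith only [k1] : w - A ≤ 0), max_eq_right (by linarith only [k2] : w - B ≤ 0),
      max_eq_right (by linarith only [k3] : x - E ≤ 0), max_eq_right (by linarith only [k4] : x - F ≤ 0)]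
    have := ccm_b0000 (w := w) (A := A) (B := B) (x := x) (E := E) (F := F)
      cw cA cB cw1 cT cT2 (by linarith only [k1]) (by linarith only [k2]) dw dA dB dw1 dT dT2 (by linarith only [k3]) (by linarith only [k4]) m1 m2 m3
    linarith only [this]
  · exfalso
    linarith only [cw, cA, cB, cw1, cT, cT2, dw, dA, dB, dw1, dT, dT2, m1, m2, m3, k1, k2, k3, k4]
  · rw [max_eq_right (by linarith only [k1] : w - A ≤ 0), max_eq_right (by linarith only [k2] : w - B ≤ 0),
      max_eq_left (by linarith only [k3] : 0 ≤ x - E), max_eq_right (by linarith only [k4] : x - F ≤ 0)]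
    have := ccm_b0010 (w := w) (A := A) (B := B) (x := x) (E := E) (F := F)
      cw cA cB cw1 cT cT2 (by linarith only [k1]) (by linarith only [k2]) dw dA dB dw1 dT dT2 (by linarith only [k3]) (by linarith only [k4]) m1 m2 m3
    linarith only [this]
  · exfalso
    linarith only [cw, cA, cB, cw1, cT, cT2, dw, dA, dB, dw1, dT, dT2, m1, m2, m3, k1, k2, k3, k4]
  · rw [max_eq_right (by linarith only [k1] : w - A ≤ 0), max_eq_left (by linarith only [k2] : 0 ≤ w - B),
      max_eq_right (by linarith only [k3] : x - E ≤ 0), max_eq_right (by linarith only [k4] : x - F ≤ 0)]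
    have := ccm_b0100 (w := w) (A := A) (B := B) (x := x) (E := E) (F := F)
      cw cA cB cw1 cT cT2 (by linarith only [k1]) (by linarith only [k2]) dw dA dB dw1 dT dT2 (by linarith only [k3]) (by linarith only [k4]) m1 m2 m3
    linarith only [this]
  · exfalso
    linarith only [cw, cA, cB, cw1, cT, cT2, dw, dA, dB, dw1, dT, dT2, m1, m2, m3, k1, k2, k3, k4]
  · rw [max_eq_right (by linarith only [k1] : w - A ≤ 0), max_eq_left (by linarith only [k2] : 0 ≤ w - B),
      max_eq_left (by linarith only [k3] : 0 ≤ x - E), max_eq_right (by linarith only [k4] : x - F ≤ 0)]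
    have := ccm_b0110 (w := w) (A := A) (B := B) (x := x) (E := E) (F := F)
      cw cA cB cw1 cT cT2 (by linarith only [k1]) (by linarith only [k2]) dw dA dB dw1 dT dT2 (by linarith only [k3]) (by linarith only [k4]) m1 m2 m3
    linarith only [this]
  · exfalso
    linarith only [cw, cA, cB, cw1, cT, cT2, dw, dA, dB, dw1, dT, dT2, m1, m2, m3, k1, k2, k3, k4]
  · rw [max_eq_left (by linarith only [k1] : 0 ≤ w - A), max_eq_right (by linarith only [k2] : w - B ≤ 0),
      max_eq_right (by linarith only [k3] : x - E ≤ 0), max_eq_right (by linarith only [k4] : x - F ≤ 0)]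
    have := ccm_b1000 (w := w) (A := A) (B := B) (x := x) (E := E) (F := F)
      cw cA cB cw1 cT cT2 (by linarith only [k1]) (by linarith only [k2]) dw dA dB dw1 dT dT2 (by linarith only [k3]) (by linarith only [k4]) m1 m2 m3
    linarith only [this]
  · exfalso
    linarith only [cw, cA, cB, cw1, cT, cT2, dw, dA, dB, dw1, dT, dT2, m1, m2, m3, k1, k2, k3, k4]
  · rw [max_eq_left (by linarith only [k1] : 0 ≤ w - A), max_eq_right (by linarith only [k2] : w - B ≤ 0),
      max_eq_left (by linarith only [k3] : 0 ≤ x - E), max_eq_right (by linarith only [k4] : x - F ≤ 0)]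
    have := ccm_b1010 (w := w) (A := A) (B := B) (x := x) (E := E) (F := F)
      cw cA cB cw1 cT cT2 (by linarith only [k1]) (by linarith only [k2]) dw dA dB dw1 dT dT2 (by linarith only [k3]) (by linarith only [k4]) m1 m2 m3
    linarith only [this]
  · exfalso
    linarith only [cw, cA, cB, cw1, cT, cT2, dw, dA, dB, dw1, dT, dT2, m1, m2, m3, k1, k2, k3, k4]
  · exfalso
    linarith only [cw, cA, cB, cw1, cT, cT2, dw, dA, dB, dw1, dT, dT2, m1, m2, m3, k1, k2, k3, k4]
  · exfalso
    linarith only [cw, cA, cB, cw1, cT, cT2, dw, dA, dB, dw1, dT, dT2, m1, m2, m3, k1, k2, k3, k4]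
  · exfalso
    linarith only [cw, cA, cB, cw1, cT, cT2, dw, dA, dB, dw1, dT, dT2, m1, m2, m3, k1, k2, k3, k4]
  · exfalso
    linarith only [cw, cA, cB, cw1, cT, cT2, dw, dA, dB, dw1, dT, dT2, m1, m2, m3, k1, k2, k3, k4]

end

end Pool.Agent.Helper92.TS
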