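import Pool.Agent.Helper92.TS.OwnSmall
import Pool.Agent.Helper74.TS.OneLowE

/-!
# `OL2Brp`: the context

`RpC A P a p r s C D`: the witness `C = (a; r)` of `p`, the witness `D = (a; p)` of `r`, and the
bounds of the heights.
-/

set_option autoImplicit false

namespace Pool.Agent.Helper92.TS

open Pool.Agent.Helper84.TS Pool.Agent.Helper23.TS Pool.Agent.Helper36.TS Pool.Agent.Helper44.TS
  Pool.Agent.Helper74.TS

/-- the context of `OL2Brp` -/
structure RpC (A : Fin 4 → Fin 4 → Option (Fin 4 → ℝ)) (P : Fin 4 → Fin 4 → ℝ) (a p r s : Fin 4)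
    (C D : Fin 4 → ℝ) : Prop where
  h : OLB A P a
  hn : [a, p, r, s].Nodup
  kC : KB A P a r p s C
  kD : KB A P a p r s D
  hp : 9 / 20 ≤ -P p a
  hr : 9 / 20 ≤ -P r a
  hs : -P s a ≤ 9 / 20
  dp : P p p - 1 ≤ 3 / 20
  ds : P s s - 1 ≤ 9 / 25
  hc : -P r s ≤ (P r r - 1) - 3 / 10

section

variable {A : Fin 4 → Fin 4 → Option (Fin 4 → ℝ)} {P : Fin 4 → Fin 4 → ℝ} {a p r s : Fin 4}
  {C D : Fin 4 → ℝ} {Do : ℝ → ℝ → ℝ → ℝ → Prop} {R : ℝ → ℝ → ℝ → ℝ → ℝ}

theorem RpC.c1 (c : RpC A P a p r s C D) : -P s r ≤ (C p + (C a - 1)) + (P s s - 1) :=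
  VB.row c.h c.kC.vb

theorem RpC.c2 (c : RpC A P a p r s C D) : 2 - C a ≤ -P p a := by
  linarith [(c.kC.out c.h).2.1]

theorem RpC.c3 (c : RpC A P a p r s C D) : (C s + (C a - 1)) + (P p p - 1) ≤ -P p r :=
  c.kC.cap.le

theorem RpC.d1 (c : RpC A P a p r s C D) : -P s p ≤ (D r + (D a - 1)) + (P s s - 1) :=
  VB.row c.h c.kD.vb

theorem RpC.d2 (c : RpC A P a p r s C D) : 2 - D a ≤ -P r a := by
  linarith [(c.kD.out c.h).2.1]

theorem RpC.d3 (c : RpC A P a p r s C D) : (D s + (D a - 1)) + (P r r - 1) ≤ -P r p :=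
  c.kD.cap.le

theorem RpC.dr (c : RpC A P a p r s C D) : P r r - 1 ≤ 3 / 5 := (c.h.hd r (nodup_ne c.hn).2.1).le

theorem RpC.all (c : RpC A P a p r s C D) :
    ∑ i, VV A i = VV A a + VV A p + VV A r + VV A s := sum4 c.hn _

theorem RpC.sp (c : RpC A P a p r s C D) : -P p a + -P p r + -P p s = 1 + (P p p - 1) :=
  c.h.sum c.hn

theorem RpC.sr (c : RpC A P a p r s C D) : -P r a + -P r p + -P r s = 1 + (P r r - 1) := by
  refine c.h.sum ?_
  have := c.hn
  clear * - this; revert this; revert a p r s; decide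

theorem RpC.ss (c : RpC A P a p r s C D) : -P s a + -P s p + -P s r = 1 + (P s s - 1) := by
  refine c.h.sum ?_
  have := c.hn
  clear * - this; revert this; revert a p r s; decide

theorem RpC.vp (c : RpC A P a p r s C D) (g : RG Do R)
    (hD : Do (P p p - 1) (-P p a) (-P p r) (-P p s)) :
    VV A p ≤ R (P p p - 1) (-P p a) (-P p r) (-P p s) := by
  have n := nodup_ne c.hn
  have np : [p, a, r, s].Nodup := by
    have := c.hn
    clear * - this; revert this; revert a p r s; decide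
  exact row_gen g c.h.of np (c.h.mn p n.1) (c.h.hd p n.1) (fun j F => c.h.hw p j F n.1) hD

theorem RpC.vr (c : RpC A P a p r s C D) (g : RG Do R)
    (hD : Do (P r r - 1) (-P r a) (-P r p) (-P r s)) :
    VV A r ≤ R (P r r - 1) (-P r a) (-P r p) (-P r s) := by
  have n := nodup_ne c.hn
  have np : [r, a, p, s].Nodup := by
    have := c.hn
    clear * - this; revert this; revert a p r s; decide
  exact row_gen g c.h.of np (c.h.mn r n.2.1) (c.h.hd r n.2.1) (fun j F => c.h.hw r j F n.2.1) hD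

theorem RpC.vs (c : RpC A P a p r s C D) (g : RG Do R)
    (hD : Do (P s s - 1) (-P s a) (-P s p) (-P s r)) :
    VV A s ≤ R (P s s - 1) (-P s a) (-P s p) (-P s r) := by
  have n := nodup_ne c.hn
  have np : [s, a, p, r].Nodup := by
    have := c.hn
    clear * - this; revert this; revert a p r s; decide
  exact row_gen g c.h.of np (c.h.mn s n.2.2) (c.h.hd s n.2.2) (fun j F => c.h.hw s j F n.2.2) hD

theorem RpC.vsH (c : RpC A P a p r s C D) (g : RH Do R)
    (ht : 3 / 5 ≤ -P r a - (P r r - 1))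
    (hD : Do (P s s - 1) (-P s a) (-P s p) (-P s r)) :
    VV A s ≤ R (P s s - 1) (-P s a) (-P s p) (-P s r) := by
  have n := nodup_ne c.hn
  have np : [s, a, p, r].Nodup := by
    have := c.hn
    clear * - this; revert this; revert a p r s; decide
  exact row_genH g c.h.of np (c.h.mn s n.2.2) (c.h.hd s n.2.2) (fun j F => c.h.hw s j F n.2.2)
    (fun F hF => own_small c.h c.hn c.hc ht hF) hD

/-- the context from the hypotheses of `OL2Brp` -/
theorem rpC_of (h : OLB A P a) (hn : [a, p, r, s].Nodup) (kC : KB A P a r p s C)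
    (kD : KB A P a p r s D) (hs : -P s a < 9 / 20) (ho : -P r s ≤ -P p s) :
    RpC A P a p r s C D ∨ ∑ i, VV A i ≤ 613 / 200 := by
  have hp : 9 / 20 ≤ -P p a := by linarith [(kC.out h).2.1, kC.hd]
  have hr : 9 / 20 ≤ -P r a := by linarith [(kD.out h).2.1, kD.hd]
  rcases le_or_gt (3 / 20) (P p p - 1) with g1 | g1
  · exact Or.inr (h.two_dp hn hp hr hs ho g1)
  rcases le_or_gt (9 / 25) (P s s - 1) with g2 | g2
  · exact Or.inr (h.two_ds hn hp hr hs ho g2)
  have hc := h.cap_rs hn hp hr ho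
  exact Or.inl ⟨h, hn, kC, kD, hp, hr, hs.le, g1.le, g2.le, by linarith⟩

end

end Pool.Agent.Helper92.TS
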