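import Pool.Agent.Helper92.TS.RpCtx
import Pool.Agent.Helper92.TS.RpNB
import Pool.Agent.Helper92.TS.RpN0
import Pool.Agent.Helper92.TS.RpDB
import Pool.Agent.Helper92.TS.RpD0
import Pool.Agent.Helper92.TS.RpC2
import Pool.Agent.Helper92.TS.RpV
import Pool.Agent.Helper92.TS.RpA2
import Pool.Agent.Helper92.TS.RpA0

/-!
# `OL2Brp`: the leaves
-/

set_option autoImplicit false

namespace Pool.Agent.Helper92.TS

open Pool.Agent.Helper84.TS Pool.Agent.Helper23.TS Pool.Agent.Helper36.TS Pool.Agent.Helper44.TS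
  Pool.Agent.Helper74.TS

section

variable {A : Fin 4 → Fin 4 → Option (Fin 4 → ℝ)} {P : Fin 4 → Fin 4 → ℝ} {a p r s : Fin 4}
  {C D : Fin 4 → ℝ}

theorem lf_nb2 (c : RpC A P a p r s C D) (va : VV A a ≤ 19 / 50 - 2 / 25 * (C p + (C a - 1)) + 21 / 50 * (2 - C a) + 3 / 25 * (C s + (C a - 1)) -
      77 / 500 * (D r + (D a - 1)) + 11 / 100 * (2 - D a))
    (q1 : -P p a + -P r s ≤ (P p p - 1) + (P r r - 1))
    (q2 : -P s a + -P p r ≤ (P p p - 1) + (P s s - 1))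
    (q3 : -P s a + -P s p ≤ (P r r - 1) + (P s s - 1)) : ∑ i, VV A i ≤ 613 / 200 := by
  have vr := c.vr nb2r ⟨by linarith only [c.dr, c.hr, c.hc], by linarith only [c.dr, c.hr, c.hc], by linarith only [c.dr, c.hr, c.hc]⟩
  have vs := c.vs nb2s ⟨by linarith only [c.hs, c.ds], by linarith only [c.hs, c.ds]⟩
  rw [c.all]
  have vp := c.vp nb2p ⟨by linarith only [c.dp, c.hp], by linarith only [c.dp, c.hp]⟩
  beta_reduce at vp vr vs
  linarith only [vp, vr, vs, va, c.sp, c.sr, c.ss, q1, q2, q3, c.c1, c.c2, c.c3, c.d1, c.d2]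

theorem lf_nb6 (c : RpC A P a p r s C D) (va : VV A a ≤ 19 / 50 - 2 / 25 * (C p + (C a - 1)) + 21 / 50 * (2 - C a) + 3 / 25 * (C s + (C a - 1)) -
      77 / 500 * (D r + (D a - 1)) + 11 / 100 * (2 - D a))
    (q1 : -P r a + -P r s ≤ (P p p - 1) + (P r r - 1))
    (q2 : -P s a + -P p r ≤ (P p p - 1) + (P s s - 1))
    (q3 : -P s a + -P s p ≤ (P r r - 1) + (P s s - 1)) : ∑ i, VV A i ≤ 613 / 200 := by
  have vr := c.vr nb6r ⟨by linarith only [c.dr, c.hr, c.hc], by linarith only [c.dr, c.hr, c.hc], by linarith only [c.dr, c.hr, c.hc]⟩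
  have vs := c.vs nb2s ⟨by linarith only [c.hs, c.ds], by linarith only [c.hs, c.ds]⟩
  rw [c.all]
  have vp := c.vp nb6p ⟨by linarith only [c.dp, c.hp], by linarith only [c.dp, c.hp]⟩
  beta_reduce at vp vr vs
  linarith only [vp, vr, vs, va, c.sp, c.sr, c.ss, q1, q2, q3, c.c1, c.c2, c.c3, c.d1, c.d2]

theorem lf_nb0 (c : RpC A P a p r s C D) (va : VV A a ≤ 19 / 50 - 2 / 25 * (C p + (C a - 1)) + 21 / 50 * (2 - C a) + 3 / 25 * (C s + (C a - 1)) -
      77 / 500 * (D r + (D a - 1)) + 11 / 100 * (2 - D a))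
    (q1 : -P p a + -P r s ≤ (P p p - 1) + (P r r - 1))
    (q3 : -P s a + -P r p ≤ (P r r - 1) + (P s s - 1)) : ∑ i, VV A i ≤ 613 / 200 := by
  have vr := c.vr nb0r ⟨by linarith only [c.dr, c.hr, c.hc], by linarith only [c.dr, c.hr, c.hc], by linarith only [c.dr, c.hr, c.hc]⟩
  have vs := c.vs nb0s ⟨by linarith only [c.hs, c.ds], by linarith only [c.hs, c.ds]⟩
  rw [c.all]
  have vp := c.vp nb0p ⟨by linarith only [c.dp, c.hp], by linarith only [c.dp, c.hp]⟩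
  beta_reduce at vp vr vs
  linarith only [vp, vr, vs, va, c.sp, c.sr, c.ss, q1, q3, c.c1, c.c2, c.c3, c.d1, c.d2]

theorem lf_db2 (c : RpC A P a p r s C D) (va : VV A a ≤ 229 / 2000 - 3 / 100 * (C p + (C a - 1)) + 9 / 50 * (2 - C a) + 1 / 100 * (C s + (C a - 1)) -
      21 / 100 * (D r + (D a - 1)) + 53 / 100 * (2 - D a))
    (q1 : -P p a + -P r s ≤ (P p p - 1) + (P r r - 1))
    (q2 : -P s a + -P p r ≤ (P p p - 1) + (P s s - 1))
    (q3 : -P s a + -P s p ≤ (P r r - 1) + (P s s - 1)) : ∑ i, VV A i ≤ 613 / 200 := by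
  have vr := c.vr db2r ⟨by linarith only [c.dr, c.hr, c.hc], by linarith only [c.dr, c.hr, c.hc], by linarith only [c.dr, c.hr, c.hc]⟩
  have vs := c.vs db2s ⟨by linarith only [c.hs, c.ds], by linarith only [c.hs, c.ds]⟩
  rw [c.all]
  have vp := c.vp db2p ⟨by linarith only [c.dp, c.hp], by linarith only [c.dp, c.hp]⟩
  beta_reduce at vp vr vs
  linarith only [vp, vr, vs, va, c.sp, c.sr, c.ss, q1, q2, q3, c.c1, c.c2, c.c3, c.d1, c.d2]

theorem lf_db6 (c : RpC A P a p r s C D) (va : VV A a ≤ 229 / 2000 - 3 / 100 * (C p + (C a - 1)) + 9 / 50 * (2 - C a) + 1 / 100 * (C s + (C a - 1)) -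
      21 / 100 * (D r + (D a - 1)) + 53 / 100 * (2 - D a))
    (q1 : -P r a + -P r s ≤ (P p p - 1) + (P r r - 1))
    (o1 : -P r a ≤ -P p a)
    (q2 : -P s a + -P p r ≤ (P p p - 1) + (P s s - 1))
    (q3 : -P s a + -P s p ≤ (P r r - 1) + (P s s - 1)) : ∑ i, VV A i ≤ 613 / 200 := by
  have vr := c.vr db6r ⟨by linarith only [c.dr, c.hr, c.hc], by linarith only [c.dr, c.hr, c.hc], by linarith only [c.dr, c.hr, c.hc]⟩
  have vs := c.vs db2s ⟨by linarith only [c.hs, c.ds], by linarith only [c.hs, c.ds]⟩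
  rw [c.all]
  have vp := c.vp db6p ⟨by linarith only [c.dp, c.hp], by linarith only [c.dp, c.hp]⟩
  beta_reduce at vp vr vs
  linarith only [vp, vr, vs, va, c.sp, c.sr, c.ss, q1, o1, q2, q3, c.c1, c.c2, c.c3, c.d1, c.d2]

theorem lf_db0 (c : RpC A P a p r s C D) (va : VV A a ≤ 229 / 2000 - 3 / 100 * (C p + (C a - 1)) + 9 / 50 * (2 - C a) + 1 / 100 * (C s + (C a - 1)) -
      21 / 100 * (D r + (D a - 1)) + 53 / 100 * (2 - D a))
    (q1 : -P p a + -P r s ≤ (P p p - 1) + (P r r - 1))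
    (q3 : -P s a + -P r p ≤ (P r r - 1) + (P s s - 1)) : ∑ i, VV A i ≤ 613 / 200 := by
  have vr := c.vr db0r ⟨by linarith only [c.dr, c.hr, c.hc], by linarith only [c.dr, c.hr, c.hc], by linarith only [c.dr, c.hr, c.hc]⟩
  have vs := c.vs db0s ⟨by linarith only [c.hs, c.ds], by linarith only [c.hs, c.ds]⟩
  rw [c.all]
  have vp := c.vp db0p ⟨by linarith only [c.dp, c.hp], by linarith only [c.dp, c.hp]⟩
  beta_reduce at vp vr vs
  linarith only [vp, vr, vs, va, c.sp, c.sr, c.ss, q1, q3, c.c1, c.c2, c.c3, c.d1, c.d2]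

theorem lf_cc2 (c : RpC A P a p r s C D) (va : VV A a ≤ -(27 / 250) + 29 / 100 * (2 - C a) + 29 / 100 * (C s + (C a - 1)) - 1 / 8 * (D r + (D a - 1)) +
      2 / 25 * (2 - D a) + 111 / 200 * (D s + (D a - 1)))
    (q2 : -P s a + -P p r ≤ (P p p - 1) + (P s s - 1))
    (q3 : -P s a + -P s p ≤ (P r r - 1) + (P s s - 1)) : ∑ i, VV A i ≤ 613 / 200 := by
  have vr := c.vr cc2r ⟨by linarith only [c.dr, c.hr, c.hc], by linarith only [c.dr, c.hr, c.hc], by linarith only [c.dr, c.hr, c.hc]⟩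
  have vs := c.vs cc2s ⟨by linarith only [c.hs, c.ds], by linarith only [c.hs, c.ds]⟩
  rw [c.all]
  have vp := c.vp cc2p ⟨by linarith only [c.dp, c.hp], by linarith only [c.dp, c.hp]⟩
  beta_reduce at vp vr vs
  linarith only [vp, vr, vs, va, c.sp, c.sr, c.ss, q2, q3, c.c2, c.c3, c.d1, c.d2, c.d3]

theorem lf_cc0 (c : RpC A P a p r s C D) (va : VV A a ≤ -(27 / 250) + 29 / 100 * (2 - C a) + 29 / 100 * (C s + (C a - 1)) - 1 / 8 * (D r + (D a - 1)) +
      2 / 25 * (2 - D a) + 111 / 200 * (D s + (D a - 1)))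
    (q1 : -P p a + -P r s ≤ (P p p - 1) + (P r r - 1))
    (q3 : -P s a + -P r p ≤ (P r r - 1) + (P s s - 1)) : ∑ i, VV A i ≤ 613 / 200 := by
  have vr := c.vr cc0r ⟨by linarith only [c.dr, c.hr, c.hc], by linarith only [c.dr, c.hr, c.hc], by linarith only [c.dr, c.hr, c.hc]⟩
  have vs := c.vs cc0s ⟨by linarith only [c.hs, c.ds], by linarith only [c.hs, c.ds]⟩
  rw [c.all]
  have vp := c.vp cc0p ⟨by linarith only [c.dp, c.hp], by linarith only [c.dp, c.hp]⟩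
  beta_reduce at vp vr vs
  linarith only [vp, vr, vs, va, c.sp, c.sr, c.ss, q1, q3, c.c2, c.c3, c.d1, c.d2, c.d3]

theorem lf_aa2 (c : RpC A P a p r s C D) (va : ∀ x, 0 ≤ x → x ≤ 2 + C r → x ≤ 29 / 100 ∧
      VV A a ≤ 2 / 3 - 3 / 4 * x + 3 / 4 * x ^ 2) (w1 : -P p s ≤ 2 + C r) (w0 : 0 ≤ 2 + C r)
    (q1 : -P p a + -P r s ≤ (P p p - 1) + (P r r - 1))
    (q2 : -P s a + -P p r ≤ (P p p - 1) + (P s s - 1))
    (q3 : -P s a + -P s p ≤ (P r r - 1) + (P s s - 1)) : ∑ i, VV A i ≤ 613 / 200 := by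
  have vr := c.vr aa2r ⟨by linarith only [c.dr, c.hr, c.hc], by linarith only [c.dr, c.hr, c.hc], by linarith only [c.dr, c.hr, c.hc]⟩
  have vs := c.vs aa2s ⟨by linarith only [c.hs, c.ds], by linarith only [c.hs, c.ds]⟩
  rw [c.all]
  rcases le_total 0 (-P p s) with g | g
  · obtain ⟨g1, va⟩ := va _ g w1
    have vp := c.vp aa2p ⟨by linarith only [c.dp, c.hp, g, g1], by linarith only [c.dp, c.hp, g, g1], by linarith only [c.dp, c.hp, g, g1], by linarith only [c.dp, c.hp, g, g1]⟩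
    beta_reduce at vp vr vs
    linarith only [vp, vr, vs, va, c.sp, c.sr, c.ss, q1, q2, q3]
  · obtain ⟨g1, va⟩ := va 0 le_rfl w0
    have vp := c.vp aa2P ⟨by linarith only [c.dp, c.hp, g, g1], by linarith only [c.dp, c.hp, g, g1], by linarith only [c.dp, c.hp, g, g1]⟩
    beta_reduce at vp vr vs
    linarith only [vp, vr, vs, va, c.sp, c.sr, c.ss, q1, q2, q3]

theorem lf_aa6 (c : RpC A P a p r s C D) (va : ∀ x, 0 ≤ x → x ≤ 2 + C r → x ≤ 29 / 100 ∧
      VV A a ≤ 2 / 3 - 3 / 4 * x + 3 / 4 * x ^ 2) (w1 : -P p s ≤ 2 + C r) (w0 : 0 ≤ 2 + C r)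
    (q1 : -P r a + -P r s ≤ (P p p - 1) + (P r r - 1))
    (o1 : -P r a ≤ -P p a)
    (q2 : -P s a + -P p r ≤ (P p p - 1) + (P s s - 1))
    (q3 : -P s a + -P s p ≤ (P r r - 1) + (P s s - 1)) : ∑ i, VV A i ≤ 613 / 200 := by
  have vr := c.vr aa6r ⟨by linarith only [c.dr, c.hr, c.hc], by linarith only [c.dr, c.hr, c.hc], by linarith only [c.dr, c.hr, c.hc]⟩
  have vs := c.vs aa2s ⟨by linarith only [c.hs, c.ds], by linarith only [c.hs, c.ds]⟩
  rw [c.all]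
  rcases le_total 0 (-P p s) with g | g
  · obtain ⟨g1, va⟩ := va _ g w1
    have vp := c.vp aa6p ⟨by linarith only [c.dp, c.hp, g, g1], by linarith only [c.dp, c.hp, g, g1], by linarith only [c.dp, c.hp, g, g1], by linarith only [c.dp, c.hp, g, g1]⟩
    beta_reduce at vp vr vs
    linarith only [vp, vr, vs, va, c.sp, c.sr, c.ss, q1, o1, q2, q3]
  · obtain ⟨g1, va⟩ := va 0 le_rfl w0
    have vp := c.vp aa6P ⟨by linarith only [c.dp, c.hp, g, g1], by linarith only [c.dp, c.hp, g, g1], by linarith only [c.dp, c.hp, g, g1]⟩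
    beta_reduce at vp vr vs
    linarith only [vp, vr, vs, va, c.sp, c.sr, c.ss, q1, o1, q2, q3]

theorem lf_aai (c : RpC A P a p r s C D) (va : ∀ x, 0 ≤ x → x ≤ 2 + C r → x ≤ 29 / 100 ∧
      VV A a ≤ 2 / 3 - 3 / 4 * x + 3 / 4 * x ^ 2) (w1 : -P p s ≤ 2 + C r) (w0 : 0 ≤ 2 + C r)
    (k2 : -P r a - (P r r - 1) ≤ 3 / 5)
    (q1 : -P p a + -P r s ≤ (P p p - 1) + (P r r - 1))
    (q3 : -P s a + -P r p ≤ (P r r - 1) + (P s s - 1)) : ∑ i, VV A i ≤ 613 / 200 := by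
  have vr := c.vr aair ⟨by linarith only [c.dr, c.hr, c.hc, k2], by linarith only [c.dr, c.hr, c.hc, k2], by linarith only [c.dr, c.hr, c.hc, k2], by linarith only [c.dr, c.hr, c.hc, k2]⟩
  have vs := c.vs aais ⟨by linarith only [c.hs, c.ds], by linarith only [c.hs, c.ds]⟩
  rw [c.all]
  rcases le_total 0 (-P p s) with g | g
  · obtain ⟨g1, va⟩ := va _ g w1
    have vp := c.vp aaip ⟨by linarith only [c.dp, c.hp, g, g1], by linarith only [c.dp, c.hp, g, g1], by linarith only [c.dp, c.hp, g, g1], by linarith only [c.dp, c.hp, g, g1]⟩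
    beta_reduce at vp vr vs
    linarith only [vp, vr, vs, va, c.sp, c.sr, c.ss, q1, q3]
  · obtain ⟨g1, va⟩ := va 0 le_rfl w0
    have vp := c.vp aaiP ⟨by linarith only [c.dp, c.hp, g, g1], by linarith only [c.dp, c.hp, g, g1], by linarith only [c.dp, c.hp, g, g1]⟩
    beta_reduce at vp vr vs
    linarith only [vp, vr, vs, va, c.sp, c.sr, c.ss, q1, q3]

theorem lf_aaj (c : RpC A P a p r s C D) (va : ∀ x, 0 ≤ x → x ≤ 2 + C r → x ≤ 29 / 100 ∧
      VV A a ≤ 2 / 3 - 3 / 4 * x + 3 / 4 * x ^ 2) (w1 : -P p s ≤ 2 + C r) (w0 : 0 ≤ 2 + C r)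
    (k2 : 3 / 5 ≤ -P r a - (P r r - 1))
    (q1 : -P p a + -P r s ≤ (P p p - 1) + (P r r - 1))
    (q3 : -P s a + -P r p ≤ (P r r - 1) + (P s s - 1)) : ∑ i, VV A i ≤ 613 / 200 := by
  have vr := c.vr aajr ⟨by linarith only [c.dr, c.hr, c.hc, k2], by linarith only [c.dr, c.hr, c.hc, k2], by linarith only [c.dr, c.hr, c.hc, k2], by linarith only [c.dr, c.hr, c.hc, k2]⟩
  have vs := c.vsH aajs k2 ⟨by linarith only [c.hs, c.ds], by linarith only [c.hs, c.ds]⟩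
  rw [c.all]
  rcases le_total 0 (-P p s) with g | g
  · obtain ⟨g1, va⟩ := va _ g w1
    have vp := c.vp aajp ⟨by linarith only [c.dp, c.hp, g, g1], by linarith only [c.dp, c.hp, g, g1], by linarith only [c.dp, c.hp, g, g1], by linarith only [c.dp, c.hp, g, g1]⟩
    beta_reduce at vp vr vs
    linarith only [vp, vr, vs, va, c.sp, c.sr, c.ss, q1, q3]
  · obtain ⟨g1, va⟩ := va 0 le_rfl w0
    have vp := c.vp aajP ⟨by linarith only [c.dp, c.hp, g, g1], by linarith only [c.dp, c.hp, g, g1], by linarith only [c.dp, c.hp, g, g1]⟩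
    beta_reduce at vp vr vs
    linarith only [vp, vr, vs, va, c.sp, c.sr, c.ss, q1, q3]

theorem lf_bb0 (c : RpC A P a p r s C D) (k1 : 71 / 100 ≤ -P p r - (P p p - 1))
    (q2 : -P s a + -P p r ≤ (P p p - 1) + (P s s - 1)) : ∑ i, VV A i ≤ 613 / 200 := by
  have va := c.h.low_le
  have vr := c.vr bb0r ⟨by linarith only [c.dr, c.hr, c.hc], by linarith only [c.dr, c.hr, c.hc], by linarith only [c.dr, c.hr, c.hc]⟩
  have vs := c.vs bb0s ⟨by linarith only [c.hs, c.ds], by linarith only [c.hs, c.ds]⟩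
  rw [c.all]
  have vp := c.vp bb0p ⟨by linarith only [c.dp, c.hp, k1], by linarith only [c.dp, c.hp, k1], by linarith only [c.dp, c.hp, k1]⟩
  beta_reduce at vp vr vs
  linarith only [vp, vr, vs, va, c.sp, c.sr, c.ss, q2]

theorem lf_bb1 (c : RpC A P a p r s C D) (k1 : 71 / 100 ≤ -P p r - (P p p - 1))
    (q1 : -P p a + -P r s ≤ (P p p - 1) + (P r r - 1))
    (q2 : -P s a + -P s r ≤ (P p p - 1) + (P s s - 1))
    (q3 : -P s a + -P r p ≤ (P r r - 1) + (P s s - 1)) : ∑ i, VV A i ≤ 613 / 200 := by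
  have va := c.h.low_le
  have vr := c.vr bb1r ⟨by linarith only [c.dr, c.hr, c.hc], by linarith only [c.dr, c.hr, c.hc], by linarith only [c.dr, c.hr, c.hc]⟩
  have vs := c.vs bb1s ⟨by linarith only [c.hs, c.ds], by linarith only [c.hs, c.ds]⟩
  rw [c.all]
  have vp := c.vp bb1p ⟨by linarith only [c.dp, c.hp, k1], by linarith only [c.dp, c.hp, k1], by linarith only [c.dp, c.hp, k1]⟩
  beta_reduce at vp vr vs
  linarith only [vp, vr, vs, va, c.sp, c.sr, c.ss, q1, q2, q3]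

theorem lf_vv3 (c : RpC A P a p r s C D) 
    (q2 : -P s a + -P s r ≤ (P p p - 1) + (P s s - 1))
    (o2 : -P s r ≤ -P p r)
    (q3 : -P s a + -P s p ≤ (P r r - 1) + (P s s - 1))
    (o3 : -P s p ≤ -P r p) : ∑ i, VV A i ≤ 613 / 200 := by
  have va := c.h.low_le
  have vr := c.vr vv3r ⟨by linarith only [c.dr, c.hr, c.hc], by linarith only [c.dr, c.hr, c.hc], by linarith only [c.dr, c.hr, c.hc]⟩
  have vs := c.vs vv3s ⟨by linarith only [c.hs, c.ds], by linarith only [c.hs, c.ds]⟩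
  rw [c.all]
  have vp := c.vp vv3p ⟨by linarith only [c.dp, c.hp], by linarith only [c.dp, c.hp]⟩
  beta_reduce at vp vr vs
  linarith only [vp, vr, vs, va, c.sp, c.sr, c.ss, q2, o2, q3, o3]

theorem lf_vv4 (c : RpC A P a p r s C D) 
    (q1 : -P r a + -P r s ≤ (P p p - 1) + (P r r - 1))
    (o1 : -P r a ≤ -P p a)
    (q3 : -P s a + -P r p ≤ (P r r - 1) + (P s s - 1))
    (o3 : -P r p ≤ -P s p) : ∑ i, VV A i ≤ 613 / 200 := by
  have va := c.h.low_le
  have vr := c.vr vv4r ⟨by linarith only [c.dr, c.hr, c.hc], by linarith only [c.dr, c.hr, c.hc], by linarith only [c.dr, c.hr, c.hc]⟩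
  have vs := c.vs vv4s ⟨by linarith only [c.hs, c.ds], by linarith only [c.hs, c.ds]⟩
  rw [c.all]
  have vp := c.vp vv4p ⟨by linarith only [c.dp, c.hp], by linarith only [c.dp, c.hp]⟩
  beta_reduce at vp vr vs
  linarith only [vp, vr, vs, va, c.sp, c.sr, c.ss, q1, o1, q3, o3]

end

end Pool.Agent.Helper92.TS
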