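import Pool.Agent.Helper92.TS.SpLeaf
import Pool.Agent.Helper95.TS.SpDefs

/-!
# `OL2Bsp`: the cases
-/

set_option autoImplicit false

namespace Pool.Agent.Helper92.TS

open Pool.Agent.Helper84.TS Pool.Agent.Helper23.TS Pool.Agent.Helper36.TS Pool.Agent.Helper44.TS
  Pool.Agent.Helper74.TS Pool.Agent.Helper5.TS Pool.Agent.Helper36.TB Pool.Agent.Helper95.TS

section

variable {A : Fin 4 → Fin 4 → Option (Fin 4 → ℝ)} {P : Fin 4 → Fin 4 → ℝ} {a p r s : Fin 4}
  {C D : Fin 4 → ℝ}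

/-- the alternatives of the class `a` with the relations of the third cell -/
def SpKey (A : Fin 4 → Fin 4 → Option (Fin 4 → ℝ)) (P : Fin 4 → Fin 4 → ℝ) (a p r s : Fin 4)
    (C D : Fin 4 → ℝ) : Prop :=
  (∃ x y : ℝ, VV A a ≤ 13 / 25 + 1 / 5 * (2 - C a) + 19 / 100 * (C r + (C a - 1)) +
      1 / 10 * (2 - D a) - 3 / 25 * x - 9 / 20 * y ∧ -P p r ≤ x + (P p p - 1) ∧
      -P s r ≤ y + (P s s - 1)) ∨
  (∃ y : ℝ, VV A a ≤ 49 / 100 + 1 / 4 * (2 - C a) - 17 / 100 * (D r + (D a - 1)) +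
      1 / 4 * (2 - D a) - 4 / 25 * y ∧ -P s r ≤ y + (P s s - 1) ∧ 2 + C s ≤ 7 / 10) ∨
  (∃ y : ℝ, VV A a ≤ 73 / 200 + 39 / 100 * (2 - C a) - 1 / 20 * (D r + (D a - 1)) +
      2 / 25 * (2 - D a) - 3 / 50 * y ∧ -P s r ≤ y + (P s s - 1)) ∨
  (∃ y : ℝ, VV A a ≤ 51 / 500 + 3 / 50 * (2 - C a) - 13 / 50 * (D r + (D a - 1)) +
      63 / 100 * (2 - D a) - 3 / 50 * y ∧ -P s r ≤ y + (P s s - 1)) ∨
  (VV A a ≤ 53 / 250 + 47 / 100 * (2 - C a) - 2 / 25 * (D r + (D a - 1)) +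
      17 / 100 * (2 - D a)) ∨
  (VV A a ≤ 13 / 250 + 1 / 20 * (2 - C a) - 27 / 100 * (D r + (D a - 1)) +
      16 / 25 * (2 - D a))

theorem sp_key (c : SpC A P a p r s C D) (ns : ¬ InS A P a s) (k : SpCl A a p r s C D) :
    SpKey A P a p r s C D := by
  have hn := c.hn
  have n := nodup_ne hn
  have hrs : r ≠ s := by
    clear * - hn; revert hn; revert a p r s; decide
  rcases hE : A a r with _ | E
  · -- no third cell
    have m1 := c.h.of.main s _ (c.h.mn s n.2.2) r hrs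
    have d0 := (c.h.of.cell s s _ (c.h.mn s n.2.2)).one
    have e2 : -P s r ≤ 1 + (P s s - 1) := by linarith
    rcases le_total (2 + C s) (7 / 10) with h | h
    · rcases k.na hE h with g | g
      · exact Or.inr (Or.inl ⟨1, g, e2, h⟩)
      · exact Or.inr (Or.inr (Or.inl ⟨1, g, e2⟩))
    · rcases k.ha hE h with g | g
      · exact Or.inr (Or.inr (Or.inl ⟨1, g, e2⟩))
      · exact Or.inr (Or.inr (Or.inr (Or.inl ⟨1, g, e2⟩)))
  · rcases lt_or_ge (E a - 1) (11 / 20) with hd | hd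
    · have e1 := c.e1 hE
      have e2 := c.e2 ns hE hd
      rcases le_total (2 + C s) (7 / 10) with h | h
      · rcases k.np E hE hd.le h with g | g | g
        · exact Or.inl ⟨_, _, g, e1, e2⟩
        · exact Or.inr (Or.inl ⟨_, g, e2, h⟩)
        · exact Or.inr (Or.inr (Or.inl ⟨_, g, e2⟩))
      · rcases k.hp E hE hd.le h with g | g | g
        · exact Or.inl ⟨_, _, g, e1, e2⟩
        · exact Or.inr (Or.inr (Or.inl ⟨_, g, e2⟩))
        · exact Or.inr (Or.inr (Or.inr (Or.inl ⟨_, g, e2⟩)))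
    · rcases k.kk E hE hd with g | g
      · exact Or.inr (Or.inr (Or.inr (Or.inr (Or.inl g))))
      · exact Or.inr (Or.inr (Or.inr (Or.inr (Or.inr g))))

theorem sp_glue (c : SpC A P a p r s C D) (ns : ¬ InS A P a s) (ho : -P r s ≤ -P p s)
    (k : SpCl A a p r s C D) : ∑ i, VV A i ≤ 613 / 200 := by
  have hn := c.hn
  have n1 : [a, p, s, r].Nodup := by
    clear * - hn; revert hn; revert a p r s; decide
  have n2 : [a, r, s, p].Nodup := by
    clear * - hn; revert hn; revert a p r s; decide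
  have p1 := c.h.pair hn
  rw [min_eq_right ho] at p1
  have p2 := c.h.pair n1
  rw [min_eq_right (by linarith [c.hs, c.hp] : -P s a ≤ -P p a)] at p2
  have p3 := c.h.pair n2
  rw [min_eq_right (by linarith [c.hs, c.hr] : -P s a ≤ -P r a)] at p3
  rcases le_total (-P r p) (-P s p) with h3 | h3
  · rw [min_eq_left h3] at p3
    rcases le_total (-P p a) (-P r a) with h1 | h1
    · rw [min_eq_left h1] at p1
      rcases sp_key c ns k with ⟨x, y, g, e1, e2⟩ | ⟨y, g, e2, hw⟩ | ⟨y, g, e2⟩ | ⟨y, g, e2⟩ | g | g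
      · exact ls_eb0 c g e1 e2 p1 p3
      · exact ls_nd0 c g e2 hw p1 p3
      · exact ls_hn0 c g e2 p1 p3
      · exact ls_hd0 c g e2 p1 p3
      · exact ls_kn0 c g p1 p3
      · exact ls_kd0 c g p1 p3
    · rw [min_eq_right h1] at p1
      exact ls_vv4 c p1 h1 p3 h3
  · rw [min_eq_right h3] at p3
    rcases le_total (-P p r) (-P s r) with h2 | h2
    · rw [min_eq_left h2] at p2
      rcases le_total (-P p a) (-P r a) with h1 | h1
      · rw [min_eq_left h1] at p1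
        rcases sp_key c ns k with ⟨x, y, g, e1, e2⟩ | ⟨y, g, e2, hw⟩ | ⟨y, g, e2⟩ | ⟨y, g, e2⟩ | g | g
        · exact ls_eb2 c g e1 e2 p1 p2 p3
        · exact ls_nd2 c g e2 hw p1 p2 p3
        · exact ls_hn2 c g e2 p1 p2 p3
        · exact ls_hd2 c g e2 p1 p2 p3
        · exact ls_kn2 c g p1 p2 p3
        · exact ls_kd2 c g p1 p2 p3
      · rw [min_eq_right h1] at p1
        rcases sp_key c ns k with ⟨x, y, g, e1, e2⟩ | ⟨y, g, e2, hw⟩ | ⟨y, g, e2⟩ | ⟨y, g, e2⟩ | g | g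
        · exact ls_eb6 c g e1 e2 p1 p2 p3
        · exact ls_nd6 c g e2 hw p1 p2 p3
        · exact ls_hn6 c g e2 p1 p2 p3
        · exact ls_hd6 c g e2 p1 h1 p2 p3
        · exact ls_kn6 c g p1 p2 p3
        · exact ls_kd6 c g p1 h1 p2 p3
    · rw [min_eq_right h2] at p2
      exact ls_vv3 c p2 h2 p3 h3

/-- **`OL2Bsp` from the alternatives of the class `a`** -/
theorem ol2Bsp_of (H : ∀ (A : Fin 4 → Fin 4 → Option (Fin 4 → ℝ)) (a p r s : Fin 4)
    (C D : Fin 4 → ℝ), OF A → R2 A a → [a, p, r, s].Nodup → A a s = some C → A a p = some D →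
    C a - 1 ≤ 11 / 20 → D a - 1 ≤ 11 / 20 → SpCl A a p r s C D) : OL2Bsp := by
  intro A P a p r s C D h hn _ kC kD ns hs ho
  rcases spC_of h hn kC kD hs ho with c | c
  · exact sp_glue c ns ho (H A a p r s C D h.of h.low hn kC.hC kD.hC kC.hd.le kD.hd.le)
  · exact c

end

end Pool.Agent.Helper92.TS
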