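import Pool.Agent.Helper36.TB.SpCtx
import Pool.Agent.Helper92.TS.SpEB
import Pool.Agent.Helper92.TS.SpND
import Pool.Agent.Helper92.TS.SpHN
import Pool.Agent.Helper92.TS.SpHD
import Pool.Agent.Helper92.TS.SpKN
import Pool.Agent.Helper92.TS.SpKD
import Pool.Agent.Helper92.TS.SpE0
import Pool.Agent.Helper92.TS.SpH0
import Pool.Agent.Helper92.TS.SpK0
import Pool.Agent.Helper92.TS.RpV

/-!
# `OL2Bsp`: the leaves
-/

set_option autoImplicit false

namespace Pool.Agent.Helper92.TS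

open Pool.Agent.Helper84.TS Pool.Agent.Helper23.TS Pool.Agent.Helper36.TS Pool.Agent.Helper44.TS
  Pool.Agent.Helper74.TS Pool.Agent.Helper36.TB

section

variable {A : Fin 4 → Fin 4 → Option (Fin 4 → ℝ)} {P : Fin 4 → Fin 4 → ℝ} {a p r s : Fin 4}
  {C D : Fin 4 → ℝ}

theorem ls_eb2 {x y : ℝ} (c : SpC A P a p r s C D)
    (va : VV A a ≤ 13 / 25 + 1 / 5 * (2 - C a) + 19 / 100 * (C r + (C a - 1)) + 1 / 10 * (2 - D a) -
      3 / 25 * x - 9 / 20 * y)
    (e1 : -P p r ≤ x + (P p p - 1)) (e2 : -P s r ≤ y + (P s s - 1))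
    (q1 : -P p a + -P r s ≤ (P p p - 1) + (P r r - 1))
    (q2 : -P s a + -P p r ≤ (P p p - 1) + (P s s - 1))
    (q3 : -P s a + -P s p ≤ (P r r - 1) + (P s s - 1)) :
    ∑ i, VV A i ≤ 613 / 200 := by
  have vr := c.vr seb2r ⟨by linarith only [c.dr, c.hr, c.hc], by linarith only [c.dr, c.hr, c.hc], by linarith only [c.dr, c.hr, c.hc]⟩
  have vs := c.vs seb2s ⟨by linarith only [c.hs, c.ds], by linarith only [c.hs, c.ds]⟩
  rw [c.all]
  have vp := c.vp seb2p ⟨by linarith only [c.dp, c.hp], by linarith only [c.dp, c.hp]⟩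
  beta_reduce at vp vr vs
  linarith only [vp, vr, vs, va, e1, e2, c.sp, c.sr, c.ss, q1, q2, q3, c.c2, c.c3, c.d2]

theorem ls_eb6 {x y : ℝ} (c : SpC A P a p r s C D)
    (va : VV A a ≤ 13 / 25 + 1 / 5 * (2 - C a) + 19 / 100 * (C r + (C a - 1)) + 1 / 10 * (2 - D a) -
      3 / 25 * x - 9 / 20 * y)
    (e1 : -P p r ≤ x + (P p p - 1)) (e2 : -P s r ≤ y + (P s s - 1))
    (q1 : -P r a + -P r s ≤ (P p p - 1) + (P r r - 1))
    (q2 : -P s a + -P p r ≤ (P p p - 1) + (P s s - 1))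
    (q3 : -P s a + -P s p ≤ (P r r - 1) + (P s s - 1)) :
    ∑ i, VV A i ≤ 613 / 200 := by
  have vr := c.vr seb6r ⟨by linarith only [c.dr, c.hr, c.hc], by linarith only [c.dr, c.hr, c.hc], by linarith only [c.dr, c.hr, c.hc]⟩
  have vs := c.vs seb2s ⟨by linarith only [c.hs, c.ds], by linarith only [c.hs, c.ds]⟩
  rw [c.all]
  have vp := c.vp seb6p ⟨by linarith only [c.dp, c.hp], by linarith only [c.dp, c.hp]⟩
  beta_reduce at vp vr vs
  linarith only [vp, vr, vs, va, e1, e2, c.sp, c.sr, c.ss, q1, q2, q3, c.c2, c.c3, c.d2]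

theorem ls_eb0 {x y : ℝ} (c : SpC A P a p r s C D)
    (va : VV A a ≤ 13 / 25 + 1 / 5 * (2 - C a) + 19 / 100 * (C r + (C a - 1)) + 1 / 10 * (2 - D a) -
      3 / 25 * x - 9 / 20 * y)
    (e1 : -P p r ≤ x + (P p p - 1)) (e2 : -P s r ≤ y + (P s s - 1))
    (q1 : -P p a + -P r s ≤ (P p p - 1) + (P r r - 1))
    (q3 : -P s a + -P r p ≤ (P r r - 1) + (P s s - 1)) :
    ∑ i, VV A i ≤ 613 / 200 := by
  have vr := c.vr seb0r ⟨by linarith only [c.dr, c.hr, c.hc], by linarith only [c.dr, c.hr, c.hc], by linarith only [c.dr, c.hr, c.hc]⟩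
  have vs := c.vs seb0s ⟨by linarith only [c.hs, c.ds], by linarith only [c.hs, c.ds]⟩
  rw [c.all]
  have vp := c.vp seb0p ⟨by linarith only [c.dp, c.hp], by linarith only [c.dp, c.hp]⟩
  beta_reduce at vp vr vs
  linarith only [vp, vr, vs, va, e1, e2, c.sp, c.sr, c.ss, q1, q3, c.c2, c.c3, c.d2]

theorem ls_nd2 {y : ℝ} (c : SpC A P a p r s C D)
    (va : VV A a ≤ 49 / 100 + 1 / 4 * (2 - C a) - 17 / 100 * (D r + (D a - 1)) + 1 / 4 * (2 - D a) -
      4 / 25 * y)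
    (e2 : -P s r ≤ y + (P s s - 1)) (hw : 2 + C s ≤ 7 / 10)
    (q1 : -P p a + -P r s ≤ (P p p - 1) + (P r r - 1))
    (q2 : -P s a + -P p r ≤ (P p p - 1) + (P s s - 1))
    (q3 : -P s a + -P s p ≤ (P r r - 1) + (P s s - 1)) :
    ∑ i, VV A i ≤ 613 / 200 := by
  have vr := c.vrC snd2r hw ⟨by linarith only [c.dr, c.hr, c.hc], by linarith only [c.dr, c.hr, c.hc], by linarith only [c.dr, c.hr, c.hc]⟩
  have vs := c.vs snd2s ⟨by linarith only [c.hs, c.ds], by linarith only [c.hs, c.ds]⟩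
  rw [c.all]
  have vp := c.vp snd2p ⟨by linarith only [c.dp, c.hp], by linarith only [c.dp, c.hp]⟩
  beta_reduce at vp vr vs
  linarith only [vp, vr, vs, va, e2, c.sp, c.sr, c.ss, q1, q2, q3, c.c2, c.d1, c.d2]

theorem ls_nd6 {y : ℝ} (c : SpC A P a p r s C D)
    (va : VV A a ≤ 49 / 100 + 1 / 4 * (2 - C a) - 17 / 100 * (D r + (D a - 1)) + 1 / 4 * (2 - D a) -
      4 / 25 * y)
    (e2 : -P s r ≤ y + (P s s - 1)) (hw : 2 + C s ≤ 7 / 10)
    (q1 : -P r a + -P r s ≤ (P p p - 1) + (P r r - 1))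
    (q2 : -P s a + -P p r ≤ (P p p - 1) + (P s s - 1))
    (q3 : -P s a + -P s p ≤ (P r r - 1) + (P s s - 1)) :
    ∑ i, VV A i ≤ 613 / 200 := by
  have vr := c.vrC snd6r hw ⟨by linarith only [c.dr, c.hr, c.hc], by linarith only [c.dr, c.hr, c.hc], by linarith only [c.dr, c.hr, c.hc]⟩
  have vs := c.vs snd2s ⟨by linarith only [c.hs, c.ds], by linarith only [c.hs, c.ds]⟩
  rw [c.all]
  have vp := c.vp snd6p ⟨by linarith only [c.dp, c.hp], by linarith only [c.dp, c.hp]⟩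
  beta_reduce at vp vr vs
  linarith only [vp, vr, vs, va, e2, c.sp, c.sr, c.ss, q1, q2, q3, c.c2, c.d1, c.d2]

theorem ls_nd0 {y : ℝ} (c : SpC A P a p r s C D)
    (va : VV A a ≤ 49 / 100 + 1 / 4 * (2 - C a) - 17 / 100 * (D r + (D a - 1)) + 1 / 4 * (2 - D a) -
      4 / 25 * y)
    (e2 : -P s r ≤ y + (P s s - 1)) (hw : 2 + C s ≤ 7 / 10)
    (q1 : -P p a + -P r s ≤ (P p p - 1) + (P r r - 1))
    (q3 : -P s a + -P r p ≤ (P r r - 1) + (P s s - 1)) :
    ∑ i, VV A i ≤ 613 / 200 := by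
  have vr := c.vrC snd0r hw ⟨by linarith only [c.dr, c.hr, c.hc], by linarith only [c.dr, c.hr, c.hc], by linarith only [c.dr, c.hr, c.hc]⟩
  have vs := c.vs snd0s ⟨by linarith only [c.hs, c.ds], by linarith only [c.hs, c.ds]⟩
  rw [c.all]
  have vp := c.vp snd0p ⟨by linarith only [c.dp, c.hp], by linarith only [c.dp, c.hp]⟩
  beta_reduce at vp vr vs
  linarith only [vp, vr, vs, va, e2, c.sp, c.sr, c.ss, q1, q3, c.c2, c.d1, c.d2]

theorem ls_hn2 {y : ℝ} (c : SpC A P a p r s C D)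
    (va : VV A a ≤ 73 / 200 + 39 / 100 * (2 - C a) - 1 / 20 * (D r + (D a - 1)) + 2 / 25 * (2 - D a) -
      3 / 50 * y)
    (e2 : -P s r ≤ y + (P s s - 1))
    (q1 : -P p a + -P r s ≤ (P p p - 1) + (P r r - 1))
    (q2 : -P s a + -P p r ≤ (P p p - 1) + (P s s - 1))
    (q3 : -P s a + -P s p ≤ (P r r - 1) + (P s s - 1)) :
    ∑ i, VV A i ≤ 613 / 200 := by
  have vr := c.vr shn2r ⟨by linarith only [c.dr, c.hr, c.hc], by linarith only [c.dr, c.hr, c.hc], by linarith only [c.dr, c.hr, c.hc]⟩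
  have vs := c.vs shn2s ⟨by linarith only [c.hs, c.ds], by linarith only [c.hs, c.ds]⟩
  rw [c.all]
  have vp := c.vp shn2p ⟨by linarith only [c.dp, c.hp], by linarith only [c.dp, c.hp]⟩
  beta_reduce at vp vr vs
  linarith only [vp, vr, vs, va, e2, c.sp, c.sr, c.ss, q1, q2, q3, c.c2, c.d1, c.d2]

theorem ls_hn6 {y : ℝ} (c : SpC A P a p r s C D)
    (va : VV A a ≤ 73 / 200 + 39 / 100 * (2 - C a) - 1 / 20 * (D r + (D a - 1)) + 2 / 25 * (2 - D a) -
      3 / 50 * y)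
    (e2 : -P s r ≤ y + (P s s - 1))
    (q1 : -P r a + -P r s ≤ (P p p - 1) + (P r r - 1))
    (q2 : -P s a + -P p r ≤ (P p p - 1) + (P s s - 1))
    (q3 : -P s a + -P s p ≤ (P r r - 1) + (P s s - 1)) :
    ∑ i, VV A i ≤ 613 / 200 := by
  have vr := c.vr shn6r ⟨by linarith only [c.dr, c.hr, c.hc], by linarith only [c.dr, c.hr, c.hc], by linarith only [c.dr, c.hr, c.hc]⟩
  have vs := c.vs shn2s ⟨by linarith only [c.hs, c.ds], by linarith only [c.hs, c.ds]⟩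
  rw [c.all]
  have vp := c.vp shn6p ⟨by linarith only [c.dp, c.hp], by linarith only [c.dp, c.hp]⟩
  beta_reduce at vp vr vs
  linarith only [vp, vr, vs, va, e2, c.sp, c.sr, c.ss, q1, q2, q3, c.c2, c.d1, c.d2]

theorem ls_hn0 {y : ℝ} (c : SpC A P a p r s C D)
    (va : VV A a ≤ 73 / 200 + 39 / 100 * (2 - C a) - 1 / 20 * (D r + (D a - 1)) + 2 / 25 * (2 - D a) -
      3 / 50 * y)
    (e2 : -P s r ≤ y + (P s s - 1))
    (q1 : -P p a + -P r s ≤ (P p p - 1) + (P r r - 1))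
    (q3 : -P s a + -P r p ≤ (P r r - 1) + (P s s - 1)) :
    ∑ i, VV A i ≤ 613 / 200 := by
  have vr := c.vr shn0r ⟨by linarith only [c.dr, c.hr, c.hc], by linarith only [c.dr, c.hr, c.hc], by linarith only [c.dr, c.hr, c.hc]⟩
  have vs := c.vs shn0s ⟨by linarith only [c.hs, c.ds], by linarith only [c.hs, c.ds]⟩
  rw [c.all]
  have vp := c.vp shn0p ⟨by linarith only [c.dp, c.hp], by linarith only [c.dp, c.hp]⟩
  beta_reduce at vp vr vs
  linarith only [vp, vr, vs, va, e2, c.sp, c.sr, c.ss, q1, q3, c.c2, c.d1, c.d2]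

theorem ls_hd2 {y : ℝ} (c : SpC A P a p r s C D)
    (va : VV A a ≤ 51 / 500 + 3 / 50 * (2 - C a) - 13 / 50 * (D r + (D a - 1)) + 63 / 100 * (2 - D a) -
      3 / 50 * y)
    (e2 : -P s r ≤ y + (P s s - 1))
    (q1 : -P p a + -P r s ≤ (P p p - 1) + (P r r - 1))
    (q2 : -P s a + -P p r ≤ (P p p - 1) + (P s s - 1))
    (q3 : -P s a + -P s p ≤ (P r r - 1) + (P s s - 1)) :
    ∑ i, VV A i ≤ 613 / 200 := by
  have vr := c.vr shd2r ⟨by linarith only [c.dr, c.hr, c.hc], by linarith only [c.dr, c.hr, c.hc], by linarith only [c.dr, c.hr, c.hc]⟩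
  have vs := c.vs shd2s ⟨by linarith only [c.hs, c.ds], by linarith only [c.hs, c.ds]⟩
  rw [c.all]
  have vp := c.vp shd2p ⟨by linarith only [c.dp, c.hp], by linarith only [c.dp, c.hp]⟩
  beta_reduce at vp vr vs
  linarith only [vp, vr, vs, va, e2, c.sp, c.sr, c.ss, q1, q2, q3, c.c2, c.d1, c.d2]

theorem ls_hd6 {y : ℝ} (c : SpC A P a p r s C D)
    (va : VV A a ≤ 51 / 500 + 3 / 50 * (2 - C a) - 13 / 50 * (D r + (D a - 1)) + 63 / 100 * (2 - D a) -
      3 / 50 * y)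
    (e2 : -P s r ≤ y + (P s s - 1))
    (q1 : -P r a + -P r s ≤ (P p p - 1) + (P r r - 1))
    (o1 : -P r a ≤ -P p a)
    (q2 : -P s a + -P p r ≤ (P p p - 1) + (P s s - 1))
    (q3 : -P s a + -P s p ≤ (P r r - 1) + (P s s - 1)) :
    ∑ i, VV A i ≤ 613 / 200 := by
  have vr := c.vr shd6r ⟨by linarith only [c.dr, c.hr, c.hc], by linarith only [c.dr, c.hr, c.hc], by linarith only [c.dr, c.hr, c.hc]⟩
  have vs := c.vs shd2s ⟨by linarith only [c.hs, c.ds], by linarith only [c.hs, c.ds]⟩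
  rw [c.all]
  have vp := c.vp shd6p ⟨by linarith only [c.dp, c.hp], by linarith only [c.dp, c.hp]⟩
  beta_reduce at vp vr vs
  linarith only [vp, vr, vs, va, e2, c.sp, c.sr, c.ss, q1, o1, q2, q3, c.c2, c.d1, c.d2]

theorem ls_hd0 {y : ℝ} (c : SpC A P a p r s C D)
    (va : VV A a ≤ 51 / 500 + 3 / 50 * (2 - C a) - 13 / 50 * (D r + (D a - 1)) + 63 / 100 * (2 - D a) -
      3 / 50 * y)
    (e2 : -P s r ≤ y + (P s s - 1))
    (q1 : -P p a + -P r s ≤ (P p p - 1) + (P r r - 1))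
    (q3 : -P s a + -P r p ≤ (P r r - 1) + (P s s - 1)) :
    ∑ i, VV A i ≤ 613 / 200 := by
  have vr := c.vr shd0r ⟨by linarith only [c.dr, c.hr, c.hc], by linarith only [c.dr, c.hr, c.hc], by linarith only [c.dr, c.hr, c.hc]⟩
  have vs := c.vs shd0s ⟨by linarith only [c.hs, c.ds], by linarith only [c.hs, c.ds]⟩
  rw [c.all]
  have vp := c.vp shd0p ⟨by linarith only [c.dp, c.hp], by linarith only [c.dp, c.hp]⟩
  beta_reduce at vp vr vs
  linarith only [vp, vr, vs, va, e2, c.sp, c.sr, c.ss, q1, q3, c.c2, c.d1, c.d2]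

theorem ls_kn2 (c : SpC A P a p r s C D)
    (va : VV A a ≤ 53 / 250 + 47 / 100 * (2 - C a) - 2 / 25 * (D r + (D a - 1)) + 17 / 100 * (2 - D a))
    (q1 : -P p a + -P r s ≤ (P p p - 1) + (P r r - 1))
    (q2 : -P s a + -P p r ≤ (P p p - 1) + (P s s - 1))
    (q3 : -P s a + -P s p ≤ (P r r - 1) + (P s s - 1)) :
    ∑ i, VV A i ≤ 613 / 200 := by
  have vr := c.vr skn2r ⟨by linarith only [c.dr, c.hr, c.hc], by linarith only [c.dr, c.hr, c.hc], by linarith only [c.dr, c.hr, c.hc]⟩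
  have vs := c.vs skn2s ⟨by linarith only [c.hs, c.ds], by linarith only [c.hs, c.ds]⟩
  rw [c.all]
  have vp := c.vp skn2p ⟨by linarith only [c.dp, c.hp], by linarith only [c.dp, c.hp]⟩
  beta_reduce at vp vr vs
  linarith only [vp, vr, vs, va, c.sp, c.sr, c.ss, q1, q2, q3, c.c2, c.d1, c.d2]

theorem ls_kn6 (c : SpC A P a p r s C D)
    (va : VV A a ≤ 53 / 250 + 47 / 100 * (2 - C a) - 2 / 25 * (D r + (D a - 1)) + 17 / 100 * (2 - D a))
    (q1 : -P r a + -P r s ≤ (P p p - 1) + (P r r - 1))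
    (q2 : -P s a + -P p r ≤ (P p p - 1) + (P s s - 1))
    (q3 : -P s a + -P s p ≤ (P r r - 1) + (P s s - 1)) :
    ∑ i, VV A i ≤ 613 / 200 := by
  have vr := c.vr skn6r ⟨by linarith only [c.dr, c.hr, c.hc], by linarith only [c.dr, c.hr, c.hc], by linarith only [c.dr, c.hr, c.hc]⟩
  have vs := c.vs skn2s ⟨by linarith only [c.hs, c.ds], by linarith only [c.hs, c.ds]⟩
  rw [c.all]
  have vp := c.vp skn6p ⟨by linarith only [c.dp, c.hp], by linarith only [c.dp, c.hp]⟩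
  beta_reduce at vp vr vs
  linarith only [vp, vr, vs, va, c.sp, c.sr, c.ss, q1, q2, q3, c.c2, c.d1, c.d2]

theorem ls_kn0 (c : SpC A P a p r s C D)
    (va : VV A a ≤ 53 / 250 + 47 / 100 * (2 - C a) - 2 / 25 * (D r + (D a - 1)) + 17 / 100 * (2 - D a))
    (q1 : -P p a + -P r s ≤ (P p p - 1) + (P r r - 1))
    (q3 : -P s a + -P r p ≤ (P r r - 1) + (P s s - 1)) :
    ∑ i, VV A i ≤ 613 / 200 := by
  have vr := c.vr skn0r ⟨by linarith only [c.dr, c.hr, c.hc], by linarith only [c.dr, c.hr, c.hc], by linarith only [c.dr, c.hr, c.hc]⟩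
  have vs := c.vs skn0s ⟨by linarith only [c.hs, c.ds], by linarith only [c.hs, c.ds]⟩
  rw [c.all]
  have vp := c.vp skn0p ⟨by linarith only [c.dp, c.hp], by linarith only [c.dp, c.hp]⟩
  beta_reduce at vp vr vs
  linarith only [vp, vr, vs, va, c.sp, c.sr, c.ss, q1, q3, c.c2, c.d1, c.d2]

theorem ls_kd2 (c : SpC A P a p r s C D)
    (va : VV A a ≤ 13 / 250 + 1 / 20 * (2 - C a) - 27 / 100 * (D r + (D a - 1)) + 16 / 25 * (2 - D a))
    (q1 : -P p a + -P r s ≤ (P p p - 1) + (P r r - 1))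
    (q2 : -P s a + -P p r ≤ (P p p - 1) + (P s s - 1))
    (q3 : -P s a + -P s p ≤ (P r r - 1) + (P s s - 1)) :
    ∑ i, VV A i ≤ 613 / 200 := by
  have vr := c.vr skd2r ⟨by linarith only [c.dr, c.hr, c.hc], by linarith only [c.dr, c.hr, c.hc], by linarith only [c.dr, c.hr, c.hc]⟩
  have vs := c.vs skd2s ⟨by linarith only [c.hs, c.ds], by linarith only [c.hs, c.ds]⟩
  rw [c.all]
  have vp := c.vp skd2p ⟨by linarith only [c.dp, c.hp], by linarith only [c.dp, c.hp]⟩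
  beta_reduce at vp vr vs
  linarith only [vp, vr, vs, va, c.sp, c.sr, c.ss, q1, q2, q3, c.c2, c.d1, c.d2]

theorem ls_kd6 (c : SpC A P a p r s C D)
    (va : VV A a ≤ 13 / 250 + 1 / 20 * (2 - C a) - 27 / 100 * (D r + (D a - 1)) + 16 / 25 * (2 - D a))
    (q1 : -P r a + -P r s ≤ (P p p - 1) + (P r r - 1))
    (o1 : -P r a ≤ -P p a)
    (q2 : -P s a + -P p r ≤ (P p p - 1) + (P s s - 1))
    (q3 : -P s a + -P s p ≤ (P r r - 1) + (P s s - 1)) :
    ∑ i, VV A i ≤ 613 / 200 := by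
  have vr := c.vr skd6r ⟨by linarith only [c.dr, c.hr, c.hc], by linarith only [c.dr, c.hr, c.hc], by linarith only [c.dr, c.hr, c.hc]⟩
  have vs := c.vs skd2s ⟨by linarith only [c.hs, c.ds], by linarith only [c.hs, c.ds]⟩
  rw [c.all]
  have vp := c.vp skd6p ⟨by linarith only [c.dp, c.hp], by linarith only [c.dp, c.hp]⟩
  beta_reduce at vp vr vs
  linarith only [vp, vr, vs, va, c.sp, c.sr, c.ss, q1, o1, q2, q3, c.c2, c.d1, c.d2]

theorem ls_kd0 (c : SpC A P a p r s C D)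
    (va : VV A a ≤ 13 / 250 + 1 / 20 * (2 - C a) - 27 / 100 * (D r + (D a - 1)) + 16 / 25 * (2 - D a))
    (q1 : -P p a + -P r s ≤ (P p p - 1) + (P r r - 1))
    (q3 : -P s a + -P r p ≤ (P r r - 1) + (P s s - 1)) :
    ∑ i, VV A i ≤ 613 / 200 := by
  have vr := c.vr skd0r ⟨by linarith only [c.dr, c.hr, c.hc], by linarith only [c.dr, c.hr, c.hc], by linarith only [c.dr, c.hr, c.hc]⟩
  have vs := c.vs skd0s ⟨by linarith only [c.hs, c.ds], by linarith only [c.hs, c.ds]⟩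
  rw [c.all]
  have vp := c.vp skd0p ⟨by linarith only [c.dp, c.hp], by linarith only [c.dp, c.hp]⟩
  beta_reduce at vp vr vs
  linarith only [vp, vr, vs, va, c.sp, c.sr, c.ss, q1, q3, c.c2, c.d1, c.d2]

theorem ls_vv3 (c : SpC A P a p r s C D)
    (q2 : -P s a + -P s r ≤ (P p p - 1) + (P s s - 1))
    (o2 : -P s r ≤ -P p r)
    (q3 : -P s a + -P s p ≤ (P r r - 1) + (P s s - 1))
    (o3 : -P s p ≤ -P r p) : ∑ i, VV A i ≤ 613 / 200 := by
  have va := c.h.low_le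
  have vr := c.vr vv3r ⟨by linarith only [c.dr, c.hr, c.hc], by linarith only [c.dr, c.hr, c.hc], by linarith only [c.dr, c.hr, c.hc]⟩
  have vs := c.vs vv3s ⟨by linarith only [c.hs, c.ds], by linarith only [c.hs, c.ds]⟩
  rw [c.all]
  have vp := c.vp vv3p ⟨by linarith only [c.dp, c.hp], by linarith only [c.dp, c.hp]⟩
  beta_reduce at vp vr vs
  linarith only [vp, vr, vs, va, c.sp, c.sr, c.ss, q2, o2, q3, o3]

theorem ls_vv4 (c : SpC A P a p r s C D)
    (q1 : -P r a + -P r s ≤ (P p p - 1) + (P r r - 1))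
    (o1 : -P r a ≤ -P p a)
    (q3 : -P s a + -P r p ≤ (P r r - 1) + (P s s - 1))
    (o3 : -P r p ≤ -P s p) : ∑ i, VV A i ≤ 613 / 200 := by
  have va := c.h.low_le
  have vr := c.vr vv4r ⟨by linarith only [c.dr, c.hr, c.hc], by linarith only [c.dr, c.hr, c.hc], by linarith only [c.dr, c.hr, c.hc]⟩
  have vs := c.vs vv4s ⟨by linarith only [c.hs, c.ds], by linarith only [c.hs, c.ds]⟩
  rw [c.all]
  have vp := c.vp vv4p ⟨by linarith only [c.dp, c.hp], by linarith only [c.dp, c.hp]⟩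
  beta_reduce at vp vr vs
  linarith only [vp, vr, vs, va, c.sp, c.sr, c.ss, q1, o1, q3, o3]

end

end Pool.Agent.Helper92.TS
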